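import Pool.Agent.Lib.MP_1dedaf_gt.DK.Reg

/-!
# TASK DK A0: continuity and derivatives of the column functions

Proof. All integrands are continuous; `intervalIntegral.integral_hasDerivAt_right` etc. `Xu_eq`: `Xl x = Xl w - ∫_x^w rl` and
`q mr x = ∫_x^w (ru - rl)` (`q ≠ 0`). `Xu_zero`: `Xu 0 = Xl 0 - q mr 0 = - q M`. `Xu_w`: `mr w = 0`.
-/

set_option autoImplicit false

open MeasureTheory Set Filter Topology

namespace Pool.Agent.Lib.MP_1dedaf_gt.DK

namespace Dat

theorem rl_pos (K : Dat) (x : ℝ) : 0 < K.rl x := by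
  exact Real.exp_pos _

theorem ru_pos (K : Dat) (x : ℝ) : 0 < K.ru x := by
  exact Real.exp_pos _

theorem rl_cont (K : Dat) (cl : Continuous K.l) : Continuous K.rl := by
  unfold rl
  exact Real.continuous_exp.comp ((continuous_const.mul continuous_id).add (continuous_const.mul cl))

theorem ru_cont (K : Dat) (cu : Continuous K.u) : Continuous K.ru := by
  unfold ru
  exact Real.continuous_exp.comp ((continuous_const.mul continuous_id).add (continuous_const.mul cu))

theorem mu_cont (K : Dat) (cl : Continuous K.l) (cu : Continuous K.u) : Continuous K.mu := by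
  unfold mu
  exact ((K.ru_cont cu).sub (K.rl_cont cl)).div_const _

theorem Xl_deriv (K : Dat) (cl : Continuous K.l) (x : ℝ) : HasDerivAt K.Xl (K.rl x) x := by
  exact ((K.rl_cont cl).integral_hasStrictDerivAt 0 x).hasDerivAt

theorem Xl_cont (K : Dat) (cl : Continuous K.l) : Continuous K.Xl := by
  exact continuous_iff_continuousAt.mpr fun x => (K.Xl_deriv cl x).continuousAt

theorem Xl_zero (K : Dat) : K.Xl 0 = 0 := by
  unfold Xl
  exact intervalIntegral.integral_same

theorem mr_deriv (K : Dat) (cl : Continuous K.l) (cu : Continuous K.u) (x : ℝ) : HasDerivAt K.mr (- K.mu x) x := by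
  have h1 : K.mr = fun x => - ∫ t in K.w..x, K.mu t := by
    funext x
    unfold mr
    exact intervalIntegral.integral_symm _ _
  rw [h1]
  exact ((K.mu_cont cl cu).integral_hasStrictDerivAt K.w x).hasDerivAt.neg

theorem mr_cont (K : Dat) (cl : Continuous K.l) (cu : Continuous K.u) : Continuous K.mr := by
  exact continuous_iff_continuousAt.mpr fun x => (K.mr_deriv cl cu x).continuousAt

theorem mr_zero (K : Dat) : K.mr 0 = K.M := by
  rfl

theorem mr_w (K : Dat) : K.mr K.w = 0 := by
  unfold mr
  exact intervalIntegral.integral_same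

theorem Xu_eq (K : Dat) (hq : K.q ≠ 0) (cl : Continuous K.l) (cu : Continuous K.u) (x : ℝ) :
    K.Xu x = K.Xl K.w - ∫ t in x..K.w, K.ru t := by
  have hl : ∀ a b : ℝ, IntervalIntegrable K.rl volume a b := fun a b =>
    (K.rl_cont cl).intervalIntegrable a b
  have hu : ∀ a b : ℝ, IntervalIntegrable K.ru volume a b := fun a b =>
    (K.ru_cont cu).intervalIntegrable a b
  have h1 : K.q * K.mr x = (∫ t in x..K.w, K.ru t) - ∫ t in x..K.w, K.rl t := by
    unfold mr mu
    rw [intervalIntegral.integral_div, mul_div_cancel₀ _ hq,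
      intervalIntegral.integral_sub (hu _ _) (hl _ _)]
  have h2 : K.Xl x + (∫ t in x..K.w, K.rl t) = K.Xl K.w := by
    unfold Xl
    exact intervalIntegral.integral_add_adjacent_intervals (hl _ _) (hl _ _)
  unfold Xu
  rw [h1, ← h2]
  ring

theorem Xu_deriv (K : Dat) (hq : K.q ≠ 0) (cl : Continuous K.l) (cu : Continuous K.u) (x : ℝ) :
    HasDerivAt K.Xu (K.ru x) x := by
  have h1 : K.Xu = fun x => K.Xl x - K.q * K.mr x := rfl
  rw [h1]
  have h2 := (K.Xl_deriv cl x).sub ((K.mr_deriv cl cu x).const_mul K.q)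
  have h3 : K.rl x - K.q * - K.mu x = K.ru x := by
    unfold mu
    field_simp
    ring
  rw [h3] at h2
  exact h2

theorem Xu_cont (K : Dat) (cl : Continuous K.l) (cu : Continuous K.u) : Continuous K.Xu := by
  exact (K.Xl_cont cl).sub (continuous_const.mul (K.mr_cont cl cu))

theorem Xu_zero (K : Dat) : K.Xu 0 = - (K.q * K.M) := by
  unfold Xu
  rw [K.Xl_zero, K.mr_zero, zero_sub]

theorem Xu_w (K : Dat) : K.Xu K.w = K.Xl K.w := by
  unfold Xu
  rw [K.mr_w, mul_zero, sub_zero]

end Dat

end Pool.Agent.Lib.MP_1dedaf_gt.DK
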