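import Pool.Agent.Lib.MP_1dedaf_gt.DK.Reg

/-!
# TASK DK A3: row functions of a convex body given by column functions

`S = {(x, y) : 0 ≤ x ≤ w, l x ≤ y ≤ u x}` is compact and convex, `0 ≤ l`, `l = 0` at some point `x0 ∈ [0, w]`. Proof. `h := max u` on `[0,w]`,
attained at `xN`; `h > 0` by `fat` and `0 ≤ l`. For `y ∈ [0, h]` the slice `{x : (x, y) ∈ S}` is not empty (a point of the segment from `(x0, 0)` to `(xN, h)`),
compact and convex; `r0 y`, `g0 y` its maximum and minimum (`sSup`, `sInf`), `r y := r0 (max 0 (min y h))`, the same for `g`.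
`r` is concave on `[0, h]`: the point of `S` on the segment between `(r y, y)` and `(r y', y')`. `iff`: if `(x, y) ∈ S` then `0 ≤ l x ≤ y ≤ u x ≤ h` and
`g y ≤ x ≤ r y`; conversely the slice is convex and contains `g y`, `r y`. Continuity of `r` on `[0, h]` (then the clamped function is
continuous on the line): if `y_n → y` and `r y_n → ξ` along a subsequence then `(ξ, y) ∈ S` (closed), so `limsup r y_n ≤ r y`; concavity gives
`liminf ≥`: for `y_n` between `y` and an end point `e ≠ y` of `[0, h]`: `r y_n ≥ (1-t) r y + t r e` with `t → 0` (one may also use that a concave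
function is continuous in the interior, `ConcaveOn.continuousOn` on the open interval, and treat the end points in this way).
-/

set_option autoImplicit false

open MeasureTheory Set Filter Topology

namespace Pool.Agent.Lib.MP_1dedaf_gt.DK

private theorem A3_cont {h : ℝ} {f : ℝ → ℝ} (hf : ConcaveOn ℝ (Icc 0 h) f)
    (hpos : ∀ y ∈ Icc 0 h, 0 ≤ f y) (husc : ∀ c, IsClosed {y | y ∈ Icc 0 h ∧ c ≤ f y}) :
    ContinuousOn f (Icc 0 h) := by
  rw [continuousOn_iff_lower_upperSemicontinuousOn]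
  constructor
  · intro x hx c hc
    have h0h : 0 ≤ h := hx.1.trans hx.2
    have hl0 : (0 : ℝ) ∈ Icc 0 h := ⟨le_refl _, h0h⟩
    have hlh : h ∈ Icc 0 h := ⟨h0h, le_refl _⟩
    have key : ∀ x' ∈ Icc 0 h, f x - f x * (|x' - x| * (1 / x + 1 / (h - x))) ≤ f x' := by
      intro x' hx'
      have hfx := hpos x hx
      have hA : 0 ≤ 1 / x := one_div_nonneg.2 hx.1
      have hB : 0 ≤ 1 / (h - x) := one_div_nonneg.2 (sub_nonneg.2 hx.2)
      rcases lt_trichotomy x' x with h1 | h1 | h1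
      · have hx0 : 0 < x := hx'.1.trans_lt h1
        have ht0 : 0 ≤ (x - x') / x := div_nonneg (by linarith) hx0.le
        have ht1 : 0 ≤ x' / x := div_nonneg hx'.1 hx0.le
        have hs : x' / x + (x - x') / x = 1 := by field_simp; ring
        have h2 := hf.2 hx hl0 ht1 ht0 hs
        have h3 : (x' / x) • x + ((x - x') / x) • (0 : ℝ) = x' := by
          simp only [smul_eq_mul]
          field_simp
          ring
        rw [h3] at h2
        simp only [smul_eq_mul] at h2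
        have h4 : 0 ≤ (x - x') / x * f 0 := mul_nonneg ht0 (hpos 0 hl0)
        have h5 : |x' - x| = x - x' := by rw [abs_of_neg (by linarith)]; ring
        have h6 : (x - x') / x ≤ |x' - x| * (1 / x + 1 / (h - x)) := by
          rw [h5, mul_add]
          have : 0 ≤ (x - x') * (1 / (h - x)) := mul_nonneg (by linarith) hB
          have h7 : (x - x') / x = (x - x') * (1 / x) := by ring
          linarith
        have h8 : f x * ((x - x') / x) ≤ f x * (|x' - x| * (1 / x + 1 / (h - x))) :=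
          mul_le_mul_of_nonneg_left h6 hfx
        have h9 : x' / x * f x = f x - f x * ((x - x') / x) := by
          have : x' / x = 1 - (x - x') / x := by linarith
          rw [this]
          ring
        linarith
      · rw [h1]
        simp
      · have hx0 : 0 < h - x := by have := hx'.2; linarith
        have ht0 : 0 ≤ (x' - x) / (h - x) := div_nonneg (by linarith) hx0.le
        have ht1 : 0 ≤ (h - x') / (h - x) := div_nonneg (by have := hx'.2; linarith) hx0.le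
        have hs : (h - x') / (h - x) + (x' - x) / (h - x) = 1 := by
          rw [← add_div]
          rw [show h - x' + (x' - x) = h - x by ring]
          exact div_self hx0.ne'
        have h2 := hf.2 hx hlh ht1 ht0 hs
        have h3 : ((h - x') / (h - x)) • x + ((x' - x) / (h - x)) • h = x' := by
          simp only [smul_eq_mul]
          rw [div_mul_eq_mul_div, div_mul_eq_mul_div, ← add_div, div_eq_iff hx0.ne']
          ring
        rw [h3] at h2
        simp only [smul_eq_mul] at h2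
        have h4 : 0 ≤ (x' - x) / (h - x) * f h := mul_nonneg ht0 (hpos h hlh)
        have h5 : |x' - x| = x' - x := abs_of_pos (by linarith)
        have h6 : (x' - x) / (h - x) ≤ |x' - x| * (1 / x + 1 / (h - x)) := by
          rw [h5, mul_add]
          have : 0 ≤ (x' - x) * (1 / x) := mul_nonneg (by linarith) hA
          have h7 : (x' - x) / (h - x) = (x' - x) * (1 / (h - x)) := by ring
          linarith
        have h8 : f x * ((x' - x) / (h - x)) ≤ f x * (|x' - x| * (1 / x + 1 / (h - x))) :=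
          mul_le_mul_of_nonneg_left h6 hfx
        have h9 : (h - x') / (h - x) * f x = f x - f x * ((x' - x) / (h - x)) := by
          have : (h - x') / (h - x) = 1 - (x' - x) / (h - x) := by linarith
          rw [this]
          ring
        linarith
    have hcont : Continuous fun x' : ℝ => f x - f x * (|x' - x| * (1 / x + 1 / (h - x))) := by
      fun_prop
    have hev : ∀ᶠ x' in 𝓝 x, c < f x - f x * (|x' - x| * (1 / x + 1 / (h - x))) := by
      have h1 := hcont.tendsto x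
      simp only [sub_self, abs_zero, zero_mul, mul_zero, sub_zero] at h1
      exact h1.eventually (lt_mem_nhds hc)
    filter_upwards [nhdsWithin_le_nhds hev, self_mem_nhdsWithin] with x' h1 h2
    exact h1.trans_le (key x' h2)
  · intro x hx c hc
    have h1 : {y | y ∈ Icc 0 h ∧ c ≤ f y}ᶜ ∈ 𝓝 x :=
      (husc c).isOpen_compl.mem_nhds fun h2 => absurd h2.2 (not_le.2 hc)
    filter_upwards [nhdsWithin_le_nhds h1, self_mem_nhdsWithin] with x' h2 h3
    by_contra h4
    exact h2 ⟨h3, not_lt.1 h4⟩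

theorem exists_rows (w : ℝ) (l u : ℝ → ℝ) (hw : 0 < w) (cl : Continuous l) (cu : Continuous u)
    (vl : ConvexOn ℝ (Icc 0 w) l) (vu : ConcaveOn ℝ (Icc 0 w) u) (lu : ∀ x ∈ Icc 0 w, l x ≤ u x)
    (fat : ∃ x ∈ Icc 0 w, l x < u x) (hl : ∀ x ∈ Icc 0 w, 0 ≤ l x) (h0 : ∃ x ∈ Icc 0 w, l x = 0) :
    ∃ (h : ℝ) (g r : ℝ → ℝ), 0 < h ∧ Continuous g ∧ Continuous r ∧ ConvexOn ℝ (Icc 0 h) g ∧ ConcaveOn ℝ (Icc 0 h) r ∧
      (∀ y ∈ Icc 0 h, g y ≤ r y) ∧
      ∀ x y, (0 ≤ x ∧ x ≤ w ∧ l x ≤ y ∧ y ≤ u x) ↔ (0 ≤ y ∧ y ≤ h ∧ g y ≤ x ∧ x ≤ r y) := by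
  obtain ⟨x0, hx0, hlx0⟩ := h0
  obtain ⟨xN, hxN, hmax'⟩ := (isCompact_Icc (a := (0:ℝ)) (b := w)).exists_isMaxOn
    ⟨x0, hx0⟩ cu.continuousOn
  have hmax : ∀ x ∈ Icc 0 w, u x ≤ u xN := fun x hx => hmax' hx
  set h : ℝ := u xN with hh
  have hpos : 0 < h := by
    obtain ⟨x, hx, h1⟩ := fat
    exact ((hl x hx).trans_lt h1).trans_le (hmax x hx)
  set Sl : ℝ → Set ℝ := fun y => {x | x ∈ Icc 0 w ∧ l x ≤ y ∧ y ≤ u x} with hSl
  have hconv : ∀ x x' y y' a b : ℝ, x ∈ Sl y → x' ∈ Sl y' → 0 ≤ a → 0 ≤ b → a + b = 1 →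
      a * x + b * x' ∈ Sl (a * y + b * y') := by
    intro x x' y y' a b hx hx' ha hb hab
    refine ⟨convex_Icc 0 w hx.1 hx'.1 ha hb hab, ?_, ?_⟩
    · have h1 := vl.2 hx.1 hx'.1 ha hb hab
      simp only [smul_eq_mul] at h1
      refine h1.trans (add_le_add (mul_le_mul_of_nonneg_left hx.2.1 ha)
        (mul_le_mul_of_nonneg_left hx'.2.1 hb))
    · have h1 := vu.2 hx.1 hx'.1 ha hb hab
      simp only [smul_eq_mul] at h1
      exact (add_le_add (mul_le_mul_of_nonneg_left hx.2.2 ha)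
        (mul_le_mul_of_nonneg_left hx'.2.2 hb)).trans h1
  have hne : ∀ y ∈ Icc 0 h, (Sl y).Nonempty := by
    intro y hy
    have h1 : x0 ∈ Sl 0 := ⟨hx0, hlx0.le, by rw [← hlx0]; exact lu x0 hx0⟩
    have h2 : xN ∈ Sl h := ⟨hxN, lu xN hxN, le_refl _⟩
    have h3 := hconv x0 xN 0 h (1 - y / h) (y / h) h1 h2
      (by rw [sub_nonneg, div_le_one hpos]; exact hy.2) (div_nonneg hy.1 hpos.le) (by ring)
    have h4 : (1 - y / h) * 0 + y / h * h = y := by
      rw [mul_zero, zero_add, div_mul_cancel₀ _ hpos.ne']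
    rw [h4] at h3
    exact ⟨_, h3⟩
  have hcomp : ∀ y, IsCompact (Sl y) := by
    intro y
    have h1 : Sl y = Icc 0 w ∩ ({x | l x ≤ y} ∩ {x | y ≤ u x}) := rfl
    rw [h1]
    exact isCompact_Icc.inter_right
      ((isClosed_le cl continuous_const).inter (isClosed_le continuous_const cu))
  have hbdA : ∀ y, BddAbove (Sl y) := fun y => (hcomp y).bddAbove
  have hbdB : ∀ y, BddBelow (Sl y) := fun y => (hcomp y).bddBelow
  set r0 : ℝ → ℝ := fun y => sSup (Sl y) with hr0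
  set g0 : ℝ → ℝ := fun y => sInf (Sl y) with hg0
  have hrm : ∀ y ∈ Icc 0 h, r0 y ∈ Sl y := fun y hy => (hcomp y).sSup_mem (hne y hy)
  have hgm : ∀ y ∈ Icc 0 h, g0 y ∈ Sl y := fun y hy => (hcomp y).sInf_mem (hne y hy)
  have hler : ∀ x y, x ∈ Sl y → x ≤ r0 y := fun x y hx => le_csSup (hbdA y) hx
  have hleg : ∀ x y, x ∈ Sl y → g0 y ≤ x := fun x y hx => csInf_le (hbdB y) hx
  have hyr : ∀ x y, x ∈ Sl y → y ∈ Icc 0 h := fun x y hx =>
    ⟨(hl x hx.1).trans hx.2.1, hx.2.2.trans (hmax x hx.1)⟩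
  have hgr : ∀ y ∈ Icc 0 h, g0 y ≤ r0 y := fun y hy => hleg _ y (hrm y hy)
  have hmid : ∀ y ∈ Icc 0 h, ∀ x, g0 y ≤ x → x ≤ r0 y → x ∈ Sl y := by
    intro y hy x h1 h2
    rcases eq_or_lt_of_le (h1.trans h2) with h3 | h3
    · have : x = g0 y := le_antisymm (h2.trans h3.ge) h1
      rw [this]
      exact hgm y hy
    · have hd : 0 < r0 y - g0 y := by linarith
      have h4 := hconv (g0 y) (r0 y) y y ((r0 y - x) / (r0 y - g0 y)) ((x - g0 y) / (r0 y - g0 y))
        (hgm y hy) (hrm y hy) (div_nonneg (by linarith) hd.le) (div_nonneg (by linarith) hd.le)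
        (by rw [← add_div, show r0 y - x + (x - g0 y) = r0 y - g0 y by ring]; exact div_self hd.ne')
      have h5 : (r0 y - x) / (r0 y - g0 y) * g0 y + (x - g0 y) / (r0 y - g0 y) * r0 y = x := by
        rw [div_mul_eq_mul_div, div_mul_eq_mul_div, ← add_div, div_eq_iff hd.ne']
        ring
      have h6 : (r0 y - x) / (r0 y - g0 y) * y + (x - g0 y) / (r0 y - g0 y) * y = y := by
        rw [div_mul_eq_mul_div, div_mul_eq_mul_div, ← add_div, div_eq_iff hd.ne']
        ring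
      rw [h5, h6] at h4
      exact h4
  have vr0 : ConcaveOn ℝ (Icc 0 h) r0 := by
    refine ⟨convex_Icc 0 h, fun y hy y' hy' a b ha hb hab => ?_⟩
    exact hler _ _ (hconv _ _ y y' a b (hrm y hy) (hrm y' hy') ha hb hab)
  have vg0 : ConvexOn ℝ (Icc 0 h) g0 := by
    refine ⟨convex_Icc 0 h, fun y hy y' hy' a b ha hb hab => ?_⟩
    exact hleg _ _ (hconv _ _ y y' a b (hgm y hy) (hgm y' hy') ha hb hab)
  have hclosed : ∀ q : ℝ → Prop, IsClosed {x | q x} →
      IsClosed {y | ∃ x, x ∈ Sl y ∧ q x} := by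
    intro q hq
    have h1 : {y | ∃ x, x ∈ Sl y ∧ q x} =
        Prod.snd '' ((Icc 0 w ×ˢ Icc 0 h) ∩
          ({z : ℝ × ℝ | l z.1 ≤ z.2} ∩ ({z : ℝ × ℝ | z.2 ≤ u z.1} ∩ {z : ℝ × ℝ | q z.1}))) := by
      ext y
      constructor
      · rintro ⟨x, hx, hqx⟩
        exact ⟨(x, y), ⟨⟨hx.1, hyr x y hx⟩, hx.2.1, hx.2.2, hqx⟩, rfl⟩
      · rintro ⟨⟨x, y'⟩, ⟨⟨h1, h2⟩, h3, h4, h5⟩, h6⟩
        have h7 : y' = y := h6
        subst h7
        exact ⟨x, ⟨h1, h3, h4⟩, h5⟩
    rw [h1]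
    refine IsCompact.isClosed (IsCompact.image ?_ continuous_snd)
    refine (isCompact_Icc.prod isCompact_Icc).inter_right ?_
    refine (isClosed_le (cl.comp continuous_fst) continuous_snd).inter
      ((isClosed_le continuous_snd (cu.comp continuous_fst)).inter ?_)
    exact hq.preimage continuous_fst
  have cr0 : ContinuousOn r0 (Icc 0 h) := by
    refine A3_cont vr0 (fun y hy => (hrm y hy).1.1) fun c => ?_
    have h1 : {y | y ∈ Icc 0 h ∧ c ≤ r0 y} = {y | ∃ x, x ∈ Sl y ∧ c ≤ x} := by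
      ext y
      constructor
      · rintro ⟨hy, hc⟩
        exact ⟨r0 y, hrm y hy, hc⟩
      · rintro ⟨x, hx, hc⟩
        exact ⟨hyr x y hx, hc.trans (hler x y hx)⟩
    rw [h1]
    exact hclosed _ (isClosed_le continuous_const continuous_id)
  have cg0 : ContinuousOn g0 (Icc 0 h) := by
    have h2 : ContinuousOn (fun y => w - g0 y) (Icc 0 h) := by
      refine A3_cont ?_ (fun y hy => sub_nonneg.2 (hgm y hy).1.2) fun c => ?_
      · refine ⟨convex_Icc 0 h, fun y hy y' hy' a b ha hb hab => ?_⟩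
        have h3 := vg0.2 hy hy' ha hb hab
        simp only [smul_eq_mul] at h3 ⊢
        have h4 : a * (w - g0 y) + b * (w - g0 y') = (a + b) * w - (a * g0 y + b * g0 y') := by ring
        rw [h4, hab, one_mul]
        linarith
      · have h1 : {y | y ∈ Icc 0 h ∧ c ≤ w - g0 y} = {y | ∃ x, x ∈ Sl y ∧ x ≤ w - c} := by
          ext y
          constructor
          · rintro ⟨hy, hc⟩
            exact ⟨g0 y, hgm y hy, by linarith⟩
          · rintro ⟨x, hx, hc⟩
            have := hleg x y hx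
            exact ⟨hyr x y hx, by linarith⟩
        rw [h1]
        exact hclosed _ (isClosed_le continuous_id continuous_const)
    have h3 : ContinuousOn (fun y => w - (w - g0 y)) (Icc 0 h) := continuousOn_const.sub h2
    refine h3.congr fun y _ => ?_
    ring
  have hclm : ∀ y : ℝ, max 0 (min y h) ∈ Icc 0 h := fun y =>
    ⟨le_max_left _ _, max_le hpos.le (min_le_right _ _)⟩
  have hcle : ∀ y ∈ Icc 0 h, max 0 (min y h) = y := by
    intro y hy
    rw [min_eq_left hy.2, max_eq_right hy.1]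
  have hclc : Continuous fun y : ℝ => max 0 (min y h) :=
    continuous_const.max (continuous_id.min continuous_const)
  refine ⟨h, fun y => g0 (max 0 (min y h)), fun y => r0 (max 0 (min y h)), hpos,
    cg0.comp_continuous hclc hclm, cr0.comp_continuous hclc hclm, ?_, ?_, ?_, ?_⟩
  · refine vg0.congr fun y hy => ?_
    show g0 y = g0 (max 0 (min y h))
    rw [hcle y hy]
  · refine vr0.congr fun y hy => ?_
    show r0 y = r0 (max 0 (min y h))
    rw [hcle y hy]
  · intro y hy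
    show g0 (max 0 (min y h)) ≤ r0 (max 0 (min y h))
    exact hgr _ (hclm y)
  · intro x y
    show _ ↔ (0 ≤ y ∧ y ≤ h ∧ g0 (max 0 (min y h)) ≤ x ∧ x ≤ r0 (max 0 (min y h)))
    constructor
    · rintro ⟨h1, h2, h3, h4⟩
      have hx : x ∈ Sl y := ⟨⟨h1, h2⟩, h3, h4⟩
      have hy := hyr x y hx
      rw [hcle y hy]
      exact ⟨hy.1, hy.2, hleg x y hx, hler x y hx⟩
    · rintro ⟨h1, h2, h3, h4⟩
      have hy : y ∈ Icc 0 h := ⟨h1, h2⟩
      rw [hcle y hy] at h3 h4
      have hx := hmid y hy x h3 h4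
      exact ⟨hx.1.1, hx.1.2, hx.2.1, hx.2.2⟩

theorem exists_bd (p q w : ℝ) (l u : ℝ → ℝ) (hp : p ≠ 0) (hq : q ≠ 0) (hw : 0 < w) (cl : Continuous l) (cu : Continuous u)
    (vl : ConvexOn ℝ (Icc 0 w) l) (vu : ConcaveOn ℝ (Icc 0 w) u) (lu : ∀ x ∈ Icc 0 w, l x ≤ u x)
    (fat : ∃ x ∈ Icc 0 w, l x < u x) (hl : ∀ x ∈ Icc 0 w, 0 ≤ l x) (h0 : ∃ x ∈ Icc 0 w, l x = 0) :
    ∃ K : Bd, K.Ok ∧ K.col = ⟨p, q, w, l, u⟩ ∧ (l 0 = 0 → K.CF) := by
  obtain ⟨h, g, r, hh, cg, cr, vg, vr, gr, hiff⟩ := exists_rows w l u hw cl cu vl vu lu fat hl h0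
  have hok : (⟨p, q, w, h, l, u, g, r⟩ : Bd).Ok :=
    { hp := hp
      hq := hq
      hw := hw
      hh := hh
      cl := cl
      cu := cu
      cg := cg
      cr := cr
      vl := vl
      vu := vu
      vg := vg
      vr := vr
      lu := lu
      gr := gr
      fat := fat
      iff := hiff }
  refine ⟨⟨p, q, w, h, l, u, g, r⟩, hok, rfl, fun hl0 => ⟨hok, ?_⟩⟩
  have h1 := lu 0 ⟨le_refl _, hw.le⟩
  have h2 : 0 ≤ u 0 := by linarith
  exact ⟨le_refl _, hw.le, hl0.le, h2⟩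

private theorem A3_rowfat (K : Bd) (h : K.Ok) : ∃ y ∈ Icc 0 K.h, K.g y < K.r y := by
  obtain ⟨x, hx, hlt⟩ := h.fat
  obtain ⟨y, hy1, hy2⟩ := exists_between hlt
  have hopen : IsOpen {z | K.l z < y ∧ y < K.u z} :=
    (isOpen_lt h.cl continuous_const).inter (isOpen_lt continuous_const h.cu)
  obtain ⟨ε, hε, hball⟩ := Metric.isOpen_iff.1 hopen x ⟨hy1, hy2⟩
  have hex : ∃ z ∈ Icc 0 K.w, z ≠ x ∧ z ∈ Metric.ball x ε := by
    rcases lt_or_ge x K.w with h1 | h1
    · refine ⟨x + min (ε / 2) (K.w - x), ?_, ?_, ?_⟩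
      · have h2 : 0 < min (ε / 2) (K.w - x) := lt_min (by linarith) (by linarith)
        exact ⟨by linarith [hx.1], by linarith [min_le_right (ε / 2) (K.w - x)]⟩
      · have h2 : 0 < min (ε / 2) (K.w - x) := lt_min (by linarith) (by linarith)
        intro h3
        linarith
      · have h2 : 0 < min (ε / 2) (K.w - x) := lt_min (by linarith) (by linarith)
        rw [Metric.mem_ball, Real.dist_eq, add_sub_cancel_left, abs_of_pos h2]
        linarith [min_le_left (ε / 2) (K.w - x)]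
    · have hxw : x = K.w := le_antisymm hx.2 h1
      have hw := h.hw
      have h2 : 0 < min (ε / 2) x := lt_min (by linarith) (by linarith)
      refine ⟨x - min (ε / 2) x, ?_, ?_, ?_⟩
      · exact ⟨by linarith [min_le_right (ε / 2) x], by linarith⟩
      · intro h3
        linarith
      · rw [Metric.mem_ball, Real.dist_eq, sub_sub_cancel_left, abs_neg, abs_of_pos h2]
        linarith [min_le_left (ε / 2) x]
  obtain ⟨z, hz, hzx, hzb⟩ := hex
  have hz2 := hball hzb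
  have m1 := (h.iff x y).1 ⟨hx.1, hx.2, hy1.le, hy2.le⟩
  have m2 := (h.iff z y).1 ⟨hz.1, hz.2, hz2.1.le, hz2.2.le⟩
  refine ⟨y, ⟨m1.1, m1.2.1⟩, ?_⟩
  rcases lt_or_gt_of_ne hzx with h3 | h3
  · linarith [m2.2.2.1, m1.2.2.2]
  · linarith [m1.2.2.1, m2.2.2.2]

/-- Properties of a corner-filled body. -/
theorem cf_facts (K : Bd) (h : K.CF) : K.l 0 = 0 ∧ K.g 0 = 0 ∧ 0 ≤ K.u 0 ∧ 0 ≤ K.r 0 ∧ (∀ x ∈ Icc 0 K.w, 0 ≤ K.l x) ∧
    (∀ y ∈ Icc 0 K.h, 0 ≤ K.g y) ∧ (∀ x, 0 ≤ x → x ≤ K.r 0 → x ≤ K.w ∧ K.l x = 0 ∧ 0 ≤ K.u x) ∧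
    (∀ x, K.r 0 < x → x ≤ K.w → 0 < K.l x) ∧ K.r 0 ≤ K.w ∧ K.u 0 ≤ K.h ∧ K.col.Reg ∧ K.row.Reg ∧ K.swap.CF := by
  have hc := h.corner
  have hw := h.hw
  have hh := h.hh
  have hlx : ∀ x ∈ Icc 0 K.w, 0 ≤ K.l x := fun x hx =>
    ((h.iff x (K.l x)).1 ⟨hx.1, hx.2, le_refl _, h.lu x hx⟩).1
  have hgy : ∀ y ∈ Icc 0 K.h, 0 ≤ K.g y := fun y hy =>
    ((h.iff (K.g y) y).2 ⟨hy.1, hy.2, le_refl _, h.gr y hy⟩).1
  have hl0 : K.l 0 = 0 := le_antisymm hc.2.2.1 (hlx 0 ⟨le_refl _, hw.le⟩)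
  have hc2 := (h.iff 0 0).1 hc
  have hg0 : K.g 0 = 0 := le_antisymm hc2.2.2.1 (hgy 0 ⟨le_refl _, hh.le⟩)
  have hb : ∀ x, 0 ≤ x → x ≤ K.r 0 → x ≤ K.w ∧ K.l x = 0 ∧ 0 ≤ K.u x := by
    intro x h1 h2
    have h3 := (h.iff x 0).2 ⟨le_refl _, hh.le, hg0.le.trans h1, h2⟩
    exact ⟨h3.2.1, le_antisymm h3.2.2.1 (hlx x ⟨h1, h3.2.1⟩), h3.2.2.2⟩
  have hr0 : 0 ≤ K.r 0 := hc2.2.2.2
  have hrf := A3_rowfat K h.toOk
  refine ⟨hl0, hg0, hc.2.2.2, hr0, hlx, hgy, hb, ?_, (hb (K.r 0) hr0 (le_refl _)).1, ?_, ?_, ?_, ?_⟩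
  · intro x h1 h2
    have hx : x ∈ Icc 0 K.w := ⟨hr0.trans h1.le, h2⟩
    by_contra h3
    have h4 := not_lt.1 h3
    have h5 := (h.iff x 0).1 ⟨hx.1, hx.2, h4, (hlx x hx).trans (h.lu x hx)⟩
    exact absurd h5.2.2.2 (not_le.2 h1)
  · exact ((h.iff 0 (K.u 0)).1 ⟨le_refl _, hw.le, h.lu 0 ⟨le_refl _, hw.le⟩, le_refl _⟩).2.1
  · exact ⟨h.hq, hw, h.cl, h.cu, h.lu, h.fat⟩
  · exact ⟨h.hp, hh, h.cg, h.cr, h.gr, hrf⟩
  · exact
      { hp := h.hq
        hq := h.hp
        hw := hh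
        hh := hw
        cl := h.cg
        cu := h.cr
        cg := h.cl
        cr := h.cu
        vl := h.vg
        vu := h.vr
        vg := h.vl
        vr := h.vu
        lu := h.gr
        gr := h.lu
        fat := hrf
        iff := fun x y => (h.iff y x).symm
        corner := ⟨le_refl _, hh.le, hg0.le, hr0⟩ }

end Pool.Agent.Lib.MP_1dedaf_gt.DK
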