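import Pool.Agent.Lib.MP_1dedaf_gt.Mg.G002

/-!
# The polygon as seen from its edge `s`

Coordinates `x = k s - <u s, z>` (the distance from the edge `s`), `y = - <rot (u s), z>`. `sx`, `sy` are the
coordinates of the vertex `s + j`, `ln j` the line of the edge `s + j` as a graph over `x`, `sv` the column data
(for `n = 2 h + 1` the edges `s + 1, ..., s + h` form the lower boundary, `s + h + 1, ..., s + n - 1` the upper one),
`sC` the constant with `density = sC * exp (p x + q y)`, `Xj l` the value of `∫ density dx` at the vertex `s + l`.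
-/

set_option autoImplicit false

open MeasureTheory Set Filter Topology

namespace Pool.Agent.Lib.MP_1dedaf_gt.DK

open Pool.Agent.Lib.MP_1dedaf_gt.LB

/-- The `x`-coordinate of the vertex `s + j`. -/
noncomputable def sx (n : ℕ) (k : ZMod n → ℝ) (s : ZMod n) (j : ℕ) : ℝ :=
  k s - inner ℝ (ver n k (s + (j : ℕ))) (dir n s)

/-- The `y`-coordinate of the vertex `s + j`. -/
noncomputable def sy (n : ℕ) (k : ZMod n → ℝ) (s : ZMod n) (j : ℕ) : ℝ :=
  - inner ℝ (ver n k (s + (j : ℕ))) (rot (dir n s))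

/-- The line through the edge `s + j` as a graph. -/
noncomputable def ln (n : ℕ) (k : ZMod n → ℝ) (s : ZMod n) (j : ℕ) (x : ℝ) : ℝ :=
  ((k s - x) * Real.cos (j * dl n) - k (s + (j : ℕ))) / Real.sin (j * dl n)

/-- The column data of the polygon. -/
noncomputable def sv (n : ℕ) (k : ZMod n → ℝ) (θ : E2) (s : ZMod n) : Dat where
  p := - inner ℝ θ (dir n s)
  q := - inner ℝ θ (rot (dir n s))
  w := sx n k s ((n - 1) / 2)
  l := fun x => ⨆ i : Fin ((n - 1) / 2), ln n k s (i.val + 1) x
  u := fun x => ⨅ i : Fin ((n - 1) / 2), ln n k s ((n - 1) / 2 + 1 + i.val) x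

/-- `density = sC * exp (p x + q y)`. -/
noncomputable def sC (n : ℕ) (k : ZMod n → ℝ) (θ : E2) (s : ZMod n) : ℝ :=
  Real.exp (k s * inner ℝ θ (dir n s)) / Z (dir n) k θ

/-- The integral of the density against `dx` up to the vertex `s + l`. -/
noncomputable def Xj (n : ℕ) (T : ZMod n → ℝ) (s : ZMod n) (l : ℕ) : ℝ :=
  ∑ j ∈ Finset.range l, Real.sin ((j + 1 : ℕ) * dl n) * T (s + ((j + 1 : ℕ) : ZMod n))

end Pool.Agent.Lib.MP_1dedaf_gt.DK
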