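import Pool.Agent.Lib.MP_1dedaf_gt.DK.Reg
import Pool.Agent.Lib.MP_1dedaf_gt.DK.A0
import Pool.Agent.Lib.MP_1dedaf_gt.DK.A3
import Pool.Agent.Lib.MP_1dedaf_gt.Mg.G004

/-!
# TASK DK C1b: geometry of a corner-filled body: pockets

`K.CF`: the body contains `(0, 0)`, so `l 0 = 0`, `g 0 = 0`. Proof. `l_mono`: `l` is convex on `[0, w]`, `l 0 = 0 ≤ l`, so `l` is nondecreasing there; the same for `g`. `no_ne`: let `(x, y)` be in the
box `[0,w] × [0,h]`, `l x ≤ y`, `g y ≤ x`, not in the body. Then `u x < y` (column) and `r y < x` (row). If `(x', y')` is in the body with `x ≤ x'`, `y ≤ y'`: the points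
`(x, u x)`, `(r y, y)`, `(x', y')` are in the body, and `(x, y)` is in their convex hull: if `x' = x` then `y' ≤ u x < y`, contradiction, so `x < x'`, in the same way `y < y'`; on the segment from `(r y, y)` to `(x', y')` the
point over `x` has height `y'' ≥ y`, it is in the body, so `y ≤ y'' ≤ u x < y`, contradiction (convexity: `vu` or convexity of the set `S`). `below`: `(x, y)` with `0 ≤ y < l x`, `x' > x`... if `(x', y')` is in
the body and `x ≤ x'` then `y' ≥ l x' ≥ l x > y`. `left`: mirror image. `cover`: for a point `(x, y)` of the body and `0 ≤ x0 ≤ x`, `0 ≤ y0 ≤ y`: `y0 < l x0`, or `x0 < g y0`, or `(x0, y0)` in the body (by `no_ne`); the first two exclude each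
other and the third (`disj`: if `y0 < l x0` and `x0 < g y0`: `(x0, l x0)` is in the body, so `g (l x0) ≤ x0 < g y0 ≤ g (l x0)` by monotonicity).
-/

set_option autoImplicit false

open MeasureTheory Set Filter Topology

namespace Pool.Agent.Lib.MP_1dedaf_gt.DK

namespace Bd

theorem l_mono (K : Bd) (h : K.CF) : MonotoneOn K.l (Icc 0 K.w) ∧ MonotoneOn K.g (Icc 0 K.h) := by
  obtain ⟨hl0, hg0, -, -, hl, hg, -⟩ := cf_facts K h
  have key : ∀ (f : ℝ → ℝ) (w : ℝ), ConvexOn ℝ (Icc 0 w) f → f 0 = 0 → (∀ x ∈ Icc 0 w, 0 ≤ f x) →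
      MonotoneOn f (Icc 0 w) := by
    intro f w hf h0 hn x hx y hy hxy
    rcases eq_or_lt_of_le hx.1 with hx0 | hx0
    · rw [← hx0, h0]; exact hn y hy
    · have hy0 : 0 < y := lt_of_lt_of_le hx0 hxy
      have ht0 : 0 ≤ x / y := div_nonneg hx.1 hy0.le
      have ht1 : x / y ≤ 1 := (div_le_one hy0).2 hxy
      have h1 := hf.2 (⟨le_refl 0, le_trans hx.1 hx.2⟩ : (0:ℝ) ∈ Icc 0 w) hy (sub_nonneg.2 ht1) ht0 (by ring)
      have h2 : (1 - x / y) • (0:ℝ) + (x / y) • y = x := by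
        simp only [smul_eq_mul]; field_simp; ring
      rw [h2, h0] at h1
      simp only [smul_eq_mul, mul_zero, zero_add] at h1
      have h3 := hn y hy
      nlinarith
  exact ⟨key K.l K.w h.vl hl0 hl, key K.g K.h h.vg hg0 hg⟩

theorem no_ne (K : Bd) (h : K.CF) (x y x' y' : ℝ) (hx : x ∈ Icc 0 K.w) (hy : y ∈ Icc 0 K.h) (h1 : K.l x ≤ y) (h2 : K.g y ≤ x)
    (h3 : ¬ K.mem x y) (hx' : x ≤ x') (hy' : y ≤ y') : ¬ K.mem x' y' := by
  intro hm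
  have hux : K.u x < y := by
    by_contra hcon
    exact h3 ⟨hx.1, hx.2, h1, not_lt.1 hcon⟩
  have hry : K.r y < x := by
    by_contra hcon
    exact h3 ((h.iff x y).2 ⟨hy.1, hy.2, h2, not_lt.1 hcon⟩)
  have hmr : K.mem (K.r y) y := (h.iff (K.r y) y).2 ⟨hy.1, hy.2, h.gr y hy, le_refl _⟩
  have hd : 0 < x' - K.r y := by linarith
  have ht0 : 0 ≤ (x - K.r y) / (x' - K.r y) := div_nonneg (by linarith) hd.le
  have ht1 : (x - K.r y) / (x' - K.r y) ≤ 1 := (div_le_one hd).2 (by linarith)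
  set t : ℝ := (x - K.r y) / (x' - K.r y) with ht
  have h4 := h.vu.2 (⟨hmr.1, hmr.2.1⟩ : K.r y ∈ Icc 0 K.w) (⟨hm.1, hm.2.1⟩ : x' ∈ Icc 0 K.w)
    (sub_nonneg.2 ht1) ht0 (by ring)
  have h5 : (1 - t) • K.r y + t • x' = x := by
    have h6 : t * (x' - K.r y) = x - K.r y := by rw [ht]; field_simp
    simp only [smul_eq_mul]; linarith
  rw [h5] at h4
  simp only [smul_eq_mul] at h4
  have h7 : y ≤ K.u (K.r y) := hmr.2.2.2
  have h8 : y' ≤ K.u x' := hm.2.2.2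
  have h9 : y ≤ K.u x' := le_trans hy' h8
  have h10 : (1 - t) * y ≤ (1 - t) * K.u (K.r y) := mul_le_mul_of_nonneg_left h7 (sub_nonneg.2 ht1)
  have h11 : t * y ≤ t * K.u x' := mul_le_mul_of_nonneg_left h9 ht0
  nlinarith

theorem below (K : Bd) (h : K.CF) (x y x' y' : ℝ) (hx : x ∈ Icc 0 K.w) (h1 : y < K.l x) (hx' : x ≤ x') (hm : K.mem x' y') : y ≤ y' := by
  have h2 := (l_mono K h).1 hx (⟨hm.1, hm.2.1⟩ : x' ∈ Icc 0 K.w) hx'
  have h3 : K.l x' ≤ y' := hm.2.2.1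
  linarith

theorem left (K : Bd) (h : K.CF) (x y x' y' : ℝ) (hy : y ∈ Icc 0 K.h) (h1 : x < K.g y) (hy' : y ≤ y') (hm : K.mem x' y') : x ≤ x' := by
  obtain ⟨h2, h3, h4, h5⟩ := (h.iff x' y').1 hm
  have h6 := (l_mono K h).2 hy (⟨h2, h3⟩ : y' ∈ Icc 0 K.h) hy'
  linarith

theorem cover (K : Bd) (h : K.CF) (x y x0 y0 : ℝ) (hm : K.mem x y) (h1 : 0 ≤ x0) (h2 : x0 ≤ x) (h3 : 0 ≤ y0) (h4 : y0 ≤ y) :
    y0 < K.l x0 ∨ x0 < K.g y0 ∨ K.mem x0 y0 := by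
  by_contra hcon
  have c1 : K.l x0 ≤ y0 := not_lt.1 fun hc => hcon (Or.inl hc)
  have c2 : K.g y0 ≤ x0 := not_lt.1 fun hc => hcon (Or.inr (Or.inl hc))
  have c3 : ¬ K.mem x0 y0 := fun hc => hcon (Or.inr (Or.inr hc))
  obtain ⟨h5, h6, h7, h8⟩ := (h.iff x y).1 hm
  exact no_ne K h x0 y0 x y ⟨h1, le_trans h2 hm.2.1⟩ ⟨h3, le_trans h4 h6⟩ c1 c2 c3 h2 h4 hm

theorem disj (K : Bd) (h : K.CF) (x0 y0 : ℝ) (hx : x0 ∈ Icc 0 K.w) (hy : y0 ∈ Icc 0 K.h) : ¬ (y0 < K.l x0 ∧ x0 < K.g y0) ∧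
    (y0 < K.l x0 → ¬ K.mem x0 y0) ∧ (x0 < K.g y0 → ¬ K.mem x0 y0) := by
  refine ⟨?_, ?_, ?_⟩
  · rintro ⟨h1, h2⟩
    have hm : K.mem x0 (K.l x0) := ⟨hx.1, hx.2, le_refl _, h.lu x0 hx⟩
    obtain ⟨h3, h4, h5, h6⟩ := (h.iff x0 (K.l x0)).1 hm
    have h7 := (l_mono K h).2 hy (⟨h3, h4⟩ : K.l x0 ∈ Icc 0 K.h) h1.le
    linarith
  · intro h1 hm
    exact absurd hm.2.2.1 (not_le.2 h1)
  · intro h1 hm
    obtain ⟨h3, h4, h5, h6⟩ := (h.iff x0 y0).1 hm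
    exact absurd h5 (not_le.2 h1)

end Bd

end Pool.Agent.Lib.MP_1dedaf_gt.DK
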