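import Pool.Agent.Lib.MP_1dedaf_gt.DK.Reg
import Pool.Agent.Lib.MP_1dedaf_gt.DK.A0

/-!
# TASK DK A4: congruence, collapsed columns, composition of cuts

Proof. `congr`: all definitions use `l`, `u` only on `[0, w]` (`Xl x` for `x ∈ [0, w]` uses `[0, x]`, `mr x` uses `[x, w]`); `intervalIntegral.integral_congr`. `collapse`: on
`[w1, w]` `rl = ru`, so `mu = 0`, `mr = 0`, `Xu = Xl`, and the integrands of `M`, `xb`, `N i` vanish there; split `∫_0^w = ∫_0^{w1} + ∫_{w1}^w`; for `x ∈ [0, w1]` `mr` is the same for both data.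
`cut_t`, `cut_s`: `max (max y c - c) ε - ε = max y (c + ε) - (c + ε)` for `ε ≥ 0`, `max (max y c - c) 0 - 0 = max y c - c`. `cut_zero`: `l = max l 0 - 0` on `[0, w]` if `0 ≤ l ≤ u`.
-/

set_option autoImplicit false

open MeasureTheory Set Filter Topology

namespace Pool.Agent.Lib.MP_1dedaf_gt.DK

namespace Dat

theorem congr (K K' : Dat) (hp : K'.p = K.p) (hq : K'.q = K.q) (hw : K'.w = K.w) (hw0 : 0 ≤ K.w)
    (hl : ∀ x ∈ Icc 0 K.w, K'.l x = K.l x) (hu : ∀ x ∈ Icc 0 K.w, K'.u x = K.u x) :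
    K'.M = K.M ∧ K'.xb = K.xb ∧ (∀ i, K'.N i = K.N i) ∧ K'.D = K.D ∧ K'.a = K.a ∧ K'.b = K.b ∧ K'.J = K.J ∧
      ∀ x ∈ Icc 0 K.w, K'.rl x = K.rl x ∧ K'.ru x = K.ru x ∧ K'.Xl x = K.Xl x ∧ K'.Xu x = K.Xu x ∧ K'.mr x = K.mr x := by
  have hrl : ∀ x ∈ Icc 0 K.w, K'.rl x = K.rl x := fun x hx => by
    simp only [rl, hp, hq, hl x hx]
  have hru : ∀ x ∈ Icc 0 K.w, K'.ru x = K.ru x := fun x hx => by
    simp only [ru, hp, hq, hu x hx]
  have hmu : ∀ x ∈ Icc 0 K.w, K'.mu x = K.mu x := fun x hx => by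
    simp only [mu, hq, hrl x hx, hru x hx]
  have hXl : ∀ x ∈ Icc 0 K.w, K'.Xl x = K.Xl x := fun x hx => by
    unfold Xl
    refine intervalIntegral.integral_congr fun t ht => ?_
    rw [uIcc_of_le hx.1] at ht
    exact hrl t ⟨ht.1, ht.2.trans hx.2⟩
  have hmr : ∀ x ∈ Icc 0 K.w, K'.mr x = K.mr x := fun x hx => by
    unfold mr
    rw [hw]
    refine intervalIntegral.integral_congr fun t ht => ?_
    rw [uIcc_of_le hx.2] at ht
    exact hmu t ⟨hx.1.trans ht.1, ht.2⟩
  have hXu : ∀ x ∈ Icc 0 K.w, K'.Xu x = K.Xu x := fun x hx => by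
    simp only [Xu, hq, hXl x hx, hmr x hx]
  have hM : K'.M = K.M := by
    unfold M
    rw [hw]
    refine intervalIntegral.integral_congr fun t ht => ?_
    rw [uIcc_of_le hw0] at ht
    exact hmu t ht
  have hxb : K'.xb = K.xb := by
    unfold xb
    rw [hw]
    refine intervalIntegral.integral_congr fun t ht => ?_
    rw [uIcc_of_le hw0] at ht
    simp only [hmu t ht]
  have hN : ∀ i, K'.N i = K.N i := fun i => by
    unfold N
    rw [hw]
    refine intervalIntegral.integral_congr fun t ht => ?_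
    rw [uIcc_of_le hw0] at ht
    simp only [hXl t ht, hrl t ht, hXu t ht, hru t ht]
  have hD : K'.D = K.D := by simp only [D, hN, hq]
  have ha : K'.a = K.a := by simp only [a, hN]
  have hV : K'.V = K.V := by simp only [V, hN, ha]
  have hb : K'.b = K.b := by simp only [b, hM, hD, hp, hq, ha]
  have hJ : K'.J = K.J := by simp only [J, hxb, hM, ha, hp, hq, hV]
  exact ⟨hM, hxb, hN, hD, ha, hb, hJ, fun x hx => ⟨hrl x hx, hru x hx, hXl x hx, hXu x hx, hmr x hx⟩⟩

theorem collapse (K : Dat) (cl : Continuous K.l) (cu : Continuous K.u) (w1 : ℝ) (h0 : 0 ≤ w1) (h1 : w1 ≤ K.w)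
    (h : ∀ x ∈ Icc w1 K.w, K.l x = K.u x) (K' : Dat) (hK' : K' = ⟨K.p, K.q, w1, K.l, K.u⟩) :
    K'.M = K.M ∧ K'.xb = K.xb ∧ (∀ i, K'.N i = K.N i) ∧ K'.D = K.D ∧ K'.a = K.a ∧ K'.b = K.b ∧ K'.J = K.J ∧
      ∀ x ∈ Icc 0 w1, K'.Xl x = K.Xl x ∧ K'.Xu x = K.Xu x ∧ K'.mr x = K.mr x := by
  have hp : K'.p = K.p := by rw [hK']
  have hq : K'.q = K.q := by rw [hK']
  have hw : K'.w = w1 := by rw [hK']
  have hl : K'.l = K.l := by rw [hK']
  have hu : K'.u = K.u := by rw [hK']
  have hrl : ∀ x, K'.rl x = K.rl x := fun x => by simp only [rl, hp, hq, hl]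
  have hru : ∀ x, K'.ru x = K.ru x := fun x => by simp only [ru, hp, hq, hu]
  have hmu : ∀ x, K'.mu x = K.mu x := fun x => by simp only [mu, hq, hrl, hru]
  have hXl : ∀ x, K'.Xl x = K.Xl x := fun x => by simp only [Xl, hrl]
  have hrr : ∀ x ∈ Icc w1 K.w, K.rl x = K.ru x := fun x hx => by simp only [rl, ru, h x hx]
  have hmu0 : ∀ x ∈ Icc w1 K.w, K.mu x = 0 := fun x hx => by simp only [mu, hrr x hx, sub_self, zero_div]
  have cmu := K.mu_cont cl cu
  have hii : ∀ a b : ℝ, IntervalIntegrable K.mu volume a b := fun a b => cmu.intervalIntegrable a b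
  have hz : ∀ x ∈ Icc w1 K.w, ∫ t in x..K.w, K.mu t = 0 := fun x hx => by
    have h2 : ∫ t in x..K.w, K.mu t = ∫ _ in x..K.w, (0:ℝ) := by
      refine intervalIntegral.integral_congr fun t ht => ?_
      rw [uIcc_of_le hx.2] at ht
      exact hmu0 t ⟨hx.1.trans ht.1, ht.2⟩
    rw [h2]
    simp
  have hmr : ∀ x, K'.mr x = K.mr x := fun x => by
    unfold mr
    rw [hw, ← intervalIntegral.integral_add_adjacent_intervals (hii x w1) (hii w1 K.w),
      hz w1 ⟨le_rfl, h1⟩, add_zero]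
    exact intervalIntegral.integral_congr fun t _ => hmu t
  have hXu : ∀ x, K'.Xu x = K.Xu x := fun x => by simp only [Xu, hq, hXl, hmr]
  have hM : K'.M = K.M := hmr 0
  have hxb : K'.xb = K.xb := by
    unfold xb
    have hi : ∀ a b : ℝ, IntervalIntegrable (fun x => x * K.mu x) volume a b := fun a b =>
      (continuous_id.mul cmu).intervalIntegrable a b
    have h2 : ∫ x in w1..K.w, x * K.mu x = 0 := by
      have h3 : ∫ x in w1..K.w, x * K.mu x = ∫ _ in w1..K.w, (0:ℝ) := by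
        refine intervalIntegral.integral_congr fun t ht => ?_
        rw [uIcc_of_le h1] at ht
        simp only [hmu0 t ht, mul_zero]
      rw [h3]
      simp
    rw [hw, ← intervalIntegral.integral_add_adjacent_intervals (hi 0 w1) (hi w1 K.w), h2, add_zero]
    refine intervalIntegral.integral_congr fun t _ => ?_
    simp only [hmu]
  have hN : ∀ i, K'.N i = K.N i := fun i => by
    unfold N
    have crl := K.rl_cont cl
    have cru := K.ru_cont cu
    have cXl := K.Xl_cont cl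
    have cXu := K.Xu_cont cl cu
    have hi : ∀ a b : ℝ, IntervalIntegrable (fun x => K.Xl x ^ i / K.rl x - K.Xu x ^ i / K.ru x)
        volume a b := fun a b =>
      (((cXl.pow i).div crl fun x => (K.rl_pos x).ne').sub
        ((cXu.pow i).div cru fun x => (K.ru_pos x).ne')).intervalIntegrable a b
    have h2 : ∫ x in w1..K.w, (K.Xl x ^ i / K.rl x - K.Xu x ^ i / K.ru x) = 0 := by
      have h3 : ∫ x in w1..K.w, (K.Xl x ^ i / K.rl x - K.Xu x ^ i / K.ru x) =
          ∫ _ in w1..K.w, (0:ℝ) := by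
        refine intervalIntegral.integral_congr fun t ht => ?_
        rw [uIcc_of_le h1] at ht
        have h4 : K.Xu t = K.Xl t := by
          simp only [Xu, mr, hz t ht, mul_zero, sub_zero]
        simp only [h4, hrr t ht, sub_self]
      rw [h3]
      simp
    rw [hw, ← intervalIntegral.integral_add_adjacent_intervals (hi 0 w1) (hi w1 K.w), h2, add_zero]
    refine intervalIntegral.integral_congr fun t _ => ?_
    simp only [hXl, hrl, hXu, hru]
  have hD : K'.D = K.D := by simp only [D, hN, hq]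
  have ha : K'.a = K.a := by simp only [a, hN]
  have hV : K'.V = K.V := by simp only [V, hN, ha]
  have hb : K'.b = K.b := by simp only [b, hM, hD, hp, hq, ha]
  have hJ : K'.J = K.J := by simp only [J, hxb, hM, ha, hp, hq, hV]
  exact ⟨hM, hxb, hN, hD, ha, hb, hJ, fun x _ => ⟨hXl x, hXu x, hmr x⟩⟩

private theorem A4_max (y c ε : ℝ) (hε : 0 ≤ ε) : max (max y c - c) ε - ε = max y (c + ε) - (c + ε) := by
  rcases le_total y c with h | h
  · rw [max_eq_right h, sub_self, max_eq_right hε, sub_self, max_eq_right (by linarith), sub_self]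
  · rw [max_eq_left h]
    rcases le_total (y - c) ε with h2 | h2
    · rw [max_eq_right h2, max_eq_right (by linarith : y ≤ c + ε)]
      ring
    · rw [max_eq_left h2, max_eq_left (by linarith : c + ε ≤ y)]
      ring

private theorem A4_max0 (y c : ℝ) : max (max y c - c) 0 - 0 = max y c - c := by
  rw [sub_zero, max_eq_left (sub_nonneg.2 (le_max_right y c))]

theorem cut_t (K : Dat) (a c ε : ℝ) (hε : 0 ≤ ε) : (K.cut a c).cut 0 ε = K.cut a (c + ε) := by
  simp only [cut, zero_add, sub_zero, Dat.mk.injEq, true_and]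
  exact ⟨funext fun x => A4_max _ _ _ hε, funext fun x => A4_max _ _ _ hε⟩

theorem cut_s (K : Dat) (a c ε : ℝ) : (K.cut a c).cut ε 0 = K.cut (a + ε) c := by
  simp only [cut, Dat.mk.injEq, true_and]
  refine ⟨by ring, funext fun x => ?_, funext fun x => ?_⟩
  · rw [A4_max0, add_assoc]
  · rw [A4_max0, add_assoc]

theorem cut_zero (K : Dat) (hw0 : 0 ≤ K.w) (hl : ∀ x ∈ Icc 0 K.w, 0 ≤ K.l x) (lu : ∀ x ∈ Icc 0 K.w, K.l x ≤ K.u x) :
    (K.cut 0 0).J = K.J := by
  refine (congr K (K.cut 0 0) rfl rfl (by simp [cut]) hw0 ?_ ?_).2.2.2.2.2.2.1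
  · intro x hx
    show max (K.l (0 + x)) 0 - 0 = K.l x
    rw [zero_add, sub_zero, max_eq_left (hl x hx)]
  · intro x hx
    show max (K.u (0 + x)) 0 - 0 = K.u x
    rw [zero_add, sub_zero, max_eq_left ((hl x hx).trans (lu x hx))]

end Dat

end Pool.Agent.Lib.MP_1dedaf_gt.DK
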