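import Pool.Agent.Lib.MP_1dedaf_gt.DK.Reg

/-!
# The statements to be proved for corner-filled bodies

`x1 = K.r 0` and `y1 = K.u 0` are the lengths of the sides on `y = 0` and `x = 0`, `St`, `Ss` their masses (density `1` at the corner),
`(a, b) = (K.col.a, K.col.b)` the pivot. `X` and `Y = (density - 1 - p q M - p X)/q` are the coordinates of a boundary point.
-/

set_option autoImplicit false

open MeasureTheory Set Filter Topology

namespace Pool.Agent.Lib.MP_1dedaf_gt.DK

/-- The mass of the side `y = 0`. -/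
noncomputable def Bd.St (K : Bd) : ℝ := ee K.p (K.r 0)

/-- The mass of the side `x = 0`. -/
noncomputable def Bd.Ss (K : Bd) : ℝ := ee K.q (K.u 0)

/-- The `Y`-coordinate of the lower boundary point over `x`. -/
noncomputable def Dat.Yl (K : Dat) (x : ℝ) : ℝ := (K.rl x - 1 - K.p * K.q * K.M - K.p * K.Xl x) / K.q

/-- The `Y`-coordinate of the upper boundary point over `x`. -/
noncomputable def Dat.Yu (K : Dat) (x : ℝ) : ℝ := (K.ru x - 1 - K.p * K.q * K.M - K.p * K.Xu x) / K.q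

/-- No boundary point has `X > ξ` and `Y > η`. -/
def Dat.Out (K : Dat) (ξ η : ℝ) : Prop :=
  ∀ x ∈ Icc 0 K.w, ¬ (ξ < K.Xl x ∧ η < K.Yl x) ∧ ¬ (ξ < K.Xu x ∧ η < K.Yu x)

/-- The inequality for terminal positions. -/
def Term : Prop := ∀ K : Bd, K.CF → 0 < K.r 0 → 0 < K.u 0 →
  0 ≤ (K.col.a - K.St) * (K.col.b * K.St - K.col.M) → 0 ≤ (K.col.b - K.Ss) * (K.col.a * K.Ss - K.col.M) → 0 ≤ K.col.J

/-- The kernel inequality for corner-filled bodies. -/
def CFPos : Prop := ∀ K : Bd, K.CF → 0 < K.r 0 → 0 < K.u 0 → 0 ≤ K.col.J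

end Pool.Agent.Lib.MP_1dedaf_gt.DK
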