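import Pool.Agent.Lib.MP_1dedaf_gt.Mg.G002

/-!
# Regular column data
-/

set_option autoImplicit false

open MeasureTheory Set Filter Topology

namespace Pool.Agent.Lib.MP_1dedaf_gt.DK

/-- Regular column data. -/
structure Dat.Reg (K : Dat) : Prop where
  hq : K.q ≠ 0
  hw : 0 < K.w
  cl : Continuous K.l
  cu : Continuous K.u
  lu : ∀ x ∈ Icc 0 K.w, K.l x ≤ K.u x
  fat : ∃ x ∈ Icc 0 K.w, K.l x < K.u x

/-- The loop integral of `G X density` against `dx / density`, with density scaled by `C`. -/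
noncomputable def Dat.loop (K : Dat) (C : ℝ) (G : ℝ → ℝ → ℝ) : ℝ :=
  ∫ x in (0:ℝ)..K.w, (G (C * K.Xl x) (C * K.rl x) / (C * K.rl x) - G (C * K.Xu x) (C * K.ru x) / (C * K.ru x))

/-- The same integral over the arc from the lower point over `xt` to the upper point over `0`. -/
noncomputable def Dat.far (K : Dat) (C : ℝ) (xt : ℝ) (G : ℝ → ℝ → ℝ) : ℝ :=
  (∫ x in xt..K.w, G (C * K.Xl x) (C * K.rl x) / (C * K.rl x)) -
    ∫ x in (0:ℝ)..K.w, G (C * K.Xu x) (C * K.ru x) / (C * K.ru x)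

end Pool.Agent.Lib.MP_1dedaf_gt.DK
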