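import Pool.Agent.Lib.MP_1dedaf_gt.DK.Reg
import Pool.Agent.Lib.MP_1dedaf_gt.DK.A0
import Pool.Agent.Lib.MP_1dedaf_gt.Mg.G003
import Pool.Agent.Lib.MP_1dedaf_gt.DK.A3
import Pool.Agent.Lib.MP_1dedaf_gt.Mg.G004
import Pool.Agent.Lib.MP_1dedaf_gt.DK.C1b
import Pool.Agent.Lib.MP_1dedaf_gt.Mg.G005

/-!
# TASK DK C1: the pivots of both sides

Proof. `R z := 1 / den z`, all integrals over `S` unless indicated. By `N1_eq` and `Xu = Xl - q mr`, `(1/rl - 1/ru) = q ∫_l^u R dy`, `1/rl x = e^{-p x} - q e^{-p x} ee (-q) (l x)` (as `ee (-q) y = (1 - e^{-q y})/q`):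
`N 1 / q = ∫_S (Xl - q mr) R + ∫_0^w mr e^{-p x} dx - q ∫_0^w mr e^{-p x} ee (-q) (l x) dx`, and
`∫_0^w mr x e^{-p x} dx = ∫_S den z * ee (-p) z.1` (integration by parts: `mr = 0` at `w`, `ee (-p)` is the primitive; then `slice_col`). Let `P = K.col.N 1 / q` (`= a D`), `P' = K.row.N 1 / p`. Adding `p P + q P'`:
`p P + q P' = ∫_S [p Xl + q Xl' - p q (mr + mr')] R + ∫_S den [p ee (-p) x + q ee (-q) y] - p q (I1 + I2)` with `I1`, `I2` the last two integrals of `part`. By `box_dec`: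
`p Xl + q Xl' - p q (mr + mr') = p ee p x + q ee q y + p q (ee p x ee q y - M - mne)`, and `1 + p ee p x = e^{p x}`, so `1 + p ee p x + q ee q y + p q ee p x ee q y = e^{p x + q y} = den`:
the first integral is `∫_S (den - 1 - p q M - p q mne) R = |S| - D - p q M D - p q ∫_S mne R`. By `part` and `fub`: `p q (∫_S mne R + I1 + I2) = p q ∫_S den ee (-p) x ee (-q) y`, and
`p ee (-p) x + q ee (-q) y - p q ee (-p) x ee (-q) y = 1 - (1 - p ee (-p) x)(1 - q ee (-q) y) = 1 - e^{-p x} e^{-q y} = 1 - R`. So `p P + q P' = |S| - D - p q M D + ∫_S den (1 - R) = M - D - p q M D`. Divide by `D > 0`: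
`p a + q a' = M/D - 1 - p q M`, that is `a' = b`. The rest is `row_M`, `row_D` and symmetry.
-/

set_option autoImplicit false

open MeasureTheory Set Filter Topology

namespace Pool.Agent.Lib.MP_1dedaf_gt.DK

private theorem C1_ee_deriv (k : ℝ) (hk : k ≠ 0) (x : ℝ) : HasDerivAt (fun t => ee k t) (Real.exp (k * x)) x := by
  unfold ee
  have h1 : HasDerivAt (fun t : ℝ => k * t) k x := by simpa using (hasDerivAt_id x).const_mul k
  have h2 := ((h1.exp).sub_const 1).div_const k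
  rw [mul_div_assoc, div_self hk, mul_one] at h2
  exact h2

private theorem C1_ee_cont (k : ℝ) : Continuous (fun t => ee k t) := by
  unfold ee
  fun_prop

private theorem C1_ee_zero (k : ℝ) : ee k 0 = 0 := by
  unfold ee
  simp

private theorem C1_int (k c l u : ℝ) (hk : k ≠ 0) :
    ∫ y in l..u, Real.exp (c + k * y) = (Real.exp (c + k * u) - Real.exp (c + k * l)) / k := by
  have hd : ∀ y : ℝ, HasDerivAt (fun y => Real.exp (c + k * y) / k) (Real.exp (c + k * y)) y := by
    intro y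
    have h1 : HasDerivAt (fun t : ℝ => c + k * t) k y := by
      simpa using ((hasDerivAt_id y).const_mul k).const_add c
    have h2 := (h1.exp).div_const k
    rw [mul_div_assoc, div_self hk, mul_one] at h2
    exact h2
  rw [intervalIntegral.integral_eq_sub_of_hasDerivAt (fun y _ => hd y)
    ((by fun_prop : Continuous fun y => Real.exp (c + k * y)).intervalIntegrable _ _)]
  ring

/-- The generic form of the first loop integral. -/
private theorem C1_N1 (K : Dat) (hp : K.p ≠ 0) (hq : K.q ≠ 0) (cl : Continuous K.l) (cu : Continuous K.u) :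
    K.N 1 / K.q = (∫ x in (0:ℝ)..K.w, ∫ y in (K.l x)..(K.u x), K.Xu x * (Real.exp (K.p * x + K.q * y))⁻¹) +
      (∫ x in (0:ℝ)..K.w, ∫ y in (K.l x)..(K.u x), Real.exp (K.p * x + K.q * y) * ee (-K.p) x) -
      K.q * ∫ x in (0:ℝ)..K.w, K.mr x * (Real.exp (- (K.p * x)) * ee (-K.q) (K.l x)) := by
  have hXu := K.Xu_cont cl cu
  have hm := K.mr_cont cl cu
  have hmu := K.mu_cont cl cu
  have hrl := K.rl_cont cl
  have hru := K.ru_cont cu
  have h1 : (∫ x in (0:ℝ)..K.w, ∫ y in (K.l x)..(K.u x), K.Xu x * (Real.exp (K.p * x + K.q * y))⁻¹) =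
      (∫ x in (0:ℝ)..K.w, K.Xu x * (1 / K.rl x - 1 / K.ru x)) / K.q := by
    rw [← intervalIntegral.integral_div]
    refine intervalIntegral.integral_congr fun x _ => ?_
    rw [intervalIntegral.integral_const_mul]
    have e1 : (∫ y in (K.l x)..(K.u x), (Real.exp (K.p * x + K.q * y))⁻¹) =
        ∫ y in (K.l x)..(K.u x), Real.exp (-(K.p * x) + (-K.q) * y) := by
      refine intervalIntegral.integral_congr fun y _ => ?_
      rw [← Real.exp_neg]
      congr 1
      ring
    rw [e1, C1_int _ _ _ _ (neg_ne_zero.2 hq)]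
    have e2 : 1 / K.rl x = Real.exp (-(K.p * x) + (-K.q) * K.l x) := by
      unfold Dat.rl
      rw [one_div, ← Real.exp_neg]
      congr 1
      ring
    have e3 : 1 / K.ru x = Real.exp (-(K.p * x) + (-K.q) * K.u x) := by
      unfold Dat.ru
      rw [one_div, ← Real.exp_neg]
      congr 1
      ring
    rw [e2, e3]
    field_simp
    ring
  have h2 : (∫ x in (0:ℝ)..K.w, ∫ y in (K.l x)..(K.u x), Real.exp (K.p * x + K.q * y) * ee (-K.p) x) =
      ∫ x in (0:ℝ)..K.w, K.mu x * ee (-K.p) x := by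
    refine intervalIntegral.integral_congr fun x _ => ?_
    rw [intervalIntegral.integral_mul_const, C1_int _ _ _ _ hq]
    rfl
  have hec := C1_ee_cont (-K.p)
  have hecq := C1_ee_cont (-K.q)
  have hex : Continuous fun x : ℝ => Real.exp (-(K.p * x)) := by fun_prop
  have h3 : (∫ x in (0:ℝ)..K.w, K.mr x * Real.exp (-(K.p * x))) = ∫ x in (0:ℝ)..K.w, K.mu x * ee (-K.p) x := by
    have hd : ∀ x : ℝ, HasDerivAt (fun t : ℝ => K.mr t * ee (-K.p) t)
        ((-K.mu x) * ee (-K.p) x + K.mr x * Real.exp (-K.p * x)) x :=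
      fun x => (K.mr_deriv cl cu x).mul (C1_ee_deriv (-K.p) (neg_ne_zero.2 hp) x)
    have hc : Continuous (fun x : ℝ => (-K.mu x) * ee (-K.p) x + K.mr x * Real.exp (-K.p * x)) := by
      fun_prop
    have h4 := intervalIntegral.integral_eq_sub_of_hasDerivAt (a := 0) (b := K.w)
      (fun x _ => hd x) (hc.intervalIntegrable _ _)
    simp only [K.mr_w, C1_ee_zero] at h4
    have hc1 : Continuous (fun x : ℝ => K.mr x * Real.exp (-(K.p * x))) := hm.mul hex
    have hc2 : Continuous (fun x : ℝ => K.mu x * ee (-K.p) x) := hmu.mul hec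
    have h5 : (∫ x in (0:ℝ)..K.w, ((-K.mu x) * ee (-K.p) x + K.mr x * Real.exp (-K.p * x))) =
        (∫ x in (0:ℝ)..K.w, K.mr x * Real.exp (-(K.p * x))) - ∫ x in (0:ℝ)..K.w, K.mu x * ee (-K.p) x := by
      rw [← intervalIntegral.integral_sub (hc1.intervalIntegrable _ _) (hc2.intervalIntegrable _ _)]
      refine intervalIntegral.integral_congr fun x _ => ?_
      rw [neg_mul K.p x]
      ring
    rw [h5] at h4
    linarith
  have h6 : (∫ x in (0:ℝ)..K.w, K.mr x / K.rl x) =
      (∫ x in (0:ℝ)..K.w, K.mr x * Real.exp (-(K.p * x))) -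
        K.q * ∫ x in (0:ℝ)..K.w, K.mr x * (Real.exp (- (K.p * x)) * ee (-K.q) (K.l x)) := by
    have hc1 : Continuous (fun x : ℝ => K.mr x * Real.exp (-(K.p * x))) := hm.mul hex
    have hc2 : Continuous (fun x : ℝ => K.q * (K.mr x * (Real.exp (- (K.p * x)) * ee (-K.q) (K.l x)))) :=
      continuous_const.mul (hm.mul (hex.mul (hecq.comp cl)))
    rw [← intervalIntegral.integral_const_mul,
      ← intervalIntegral.integral_sub (hc1.intervalIntegrable _ _) (hc2.intervalIntegrable _ _)]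
    refine intervalIntegral.integral_congr fun x _ => ?_
    have e1 : K.mr x / K.rl x = K.mr x * (Real.exp (-(K.p * x)) * Real.exp (-K.q * K.l x)) := by
      unfold Dat.rl
      rw [div_eq_mul_inv, ← Real.exp_neg, ← Real.exp_add]
      congr 2
      ring
    rw [e1]
    unfold ee
    field_simp
    ring
  rw [h1, h2, ← h3, K.N1_eq cl cu, h6]
  field_simp
  ring

namespace Bd

private theorem C1_den_cont (K : Bd) : Continuous K.den := by
  unfold den
  fun_prop

private theorem C1_deni_cont (K : Bd) : Continuous fun z => (K.den z)⁻¹ :=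
  (C1_den_cont K).inv₀ fun _ => (Real.exp_pos _).ne'

private theorem C1_col (K : Bd) (h : K.Ok) :
    K.col.N 1 / K.q = (∫ z in K.S, K.col.Xu z.1 * (K.den z)⁻¹) + (∫ z in K.S, K.den z * ee (-K.p) z.1) -
      K.q * ∫ x in (0:ℝ)..K.w, K.col.mr x * (Real.exp (- (K.p * x)) * ee (-K.q) (K.l x)) := by
  have h1 := C1_N1 K.col h.hp h.hq h.cl h.cu
  have hX : Continuous K.col.Xu := K.col.Xu_cont h.cl h.cu
  have hF : Continuous fun z : ℝ × ℝ => K.col.Xu z.1 * (K.den z)⁻¹ :=
    (hX.comp continuous_fst).mul (C1_deni_cont K)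
  have hG : Continuous fun z : ℝ × ℝ => K.den z * ee (-K.p) z.1 :=
    (C1_den_cont K).mul ((C1_ee_cont _).comp continuous_fst)
  rw [slice_col K h _ hF, slice_col K h _ hG]
  exact h1

private theorem C1_row (K : Bd) (h : K.Ok) :
    K.row.N 1 / K.p = (∫ z in K.S, K.row.Xu z.2 * (K.den z)⁻¹) + (∫ z in K.S, K.den z * ee (-K.q) z.2) -
      K.p * ∫ y in (0:ℝ)..K.h, K.row.mr y * (Real.exp (- (K.q * y)) * ee (-K.p) (K.g y)) := by
  have h1 := C1_N1 K.row h.hq h.hp h.cg h.cr
  have hX : Continuous K.row.Xu := K.row.Xu_cont h.cg h.cr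
  have hF : Continuous fun z : ℝ × ℝ => K.row.Xu z.2 * (K.den z)⁻¹ :=
    (hX.comp continuous_snd).mul (C1_deni_cont K)
  have hG : Continuous fun z : ℝ × ℝ => K.den z * ee (-K.q) z.2 :=
    (C1_den_cont K).mul ((C1_ee_cont _).comp continuous_snd)
  rw [slice_row K h _ hF, slice_row K h _ hG]
  have e1 : (∫ y in (0:ℝ)..K.h, ∫ x in (K.g y)..(K.r y), K.row.Xu y * (Real.exp (K.q * y + K.p * x))⁻¹) =
      ∫ y in (0:ℝ)..K.h, ∫ x in (K.g y)..(K.r y), K.row.Xu (x, y).2 * (K.den (x, y))⁻¹ := by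
    refine intervalIntegral.integral_congr fun y _ => ?_
    refine intervalIntegral.integral_congr fun x _ => ?_
    simp only [den]
    rw [add_comm (K.q * y)]
  have e2 : (∫ y in (0:ℝ)..K.h, ∫ x in (K.g y)..(K.r y), Real.exp (K.q * y + K.p * x) * ee (-K.q) y) =
      ∫ y in (0:ℝ)..K.h, ∫ x in (K.g y)..(K.r y), K.den (x, y) * ee (-K.q) (x, y).2 := by
    refine intervalIntegral.integral_congr fun y _ => ?_
    refine intervalIntegral.integral_congr fun x _ => ?_
    simp only [den]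
    rw [add_comm (K.q * y)]
  rw [← e1, ← e2]
  exact h1

private theorem C1_point (K : Bd) (h : K.CF) (z : ℝ × ℝ) (hz : z ∈ K.S) :
    K.p * (K.col.Xu z.1 * (K.den z)⁻¹) + K.q * (K.row.Xu z.2 * (K.den z)⁻¹) + K.p * (K.den z * ee (-K.p) z.1) +
      K.q * (K.den z * ee (-K.q) z.2) - K.p * K.q * (K.den z * (ee (-K.p) z.1 * ee (-K.q) z.2)) +
      K.p * K.q * (K.mne z.1 z.2 / K.den z) = K.den z - (K.den z)⁻¹ - K.p * K.q * K.col.M * (K.den z)⁻¹ := by
  have hp := h.hp
  have hq := h.hq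
  obtain ⟨x, y⟩ := z
  have hb := box_dec K h x y hz
  have hXu : K.col.Xu x = K.col.Xl x - K.q * K.col.mr x := rfl
  have hXu' : K.row.Xu y = K.row.Xl y - K.p * K.row.mr y := rfl
  have hE : K.den (x, y) = Real.exp (K.p * x) * Real.exp (K.q * y) := by
    unfold den
    exact Real.exp_add _ _
  have hE' : (K.den (x, y))⁻¹ = Real.exp (-K.p * x) * Real.exp (-K.q * y) := by
    unfold den
    rw [← Real.exp_neg, ← Real.exp_add]
    congr 1
    ring
  have e1 : Real.exp (K.p * x) = 1 + K.p * ee K.p x := by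
    unfold ee
    field_simp
    ring
  have e2 : Real.exp (K.q * y) = 1 + K.q * ee K.q y := by
    unfold ee
    field_simp
    ring
  have e3 : Real.exp (-K.p * x) = 1 - K.p * ee (-K.p) x := by
    unfold ee
    field_simp
    ring
  have e4 : Real.exp (-K.q * y) = 1 - K.q * ee (-K.q) y := by
    unfold ee
    field_simp
    ring
  have hne : K.den (x, y) ≠ 0 := (Real.exp_pos _).ne'
  have hb' : K.p * K.q * (ee K.p x * ee K.q y) = K.p * (K.col.Xl x - ee K.p x) + K.q * (K.row.Xl y - ee K.q y) +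
      K.p * K.q * (K.col.M - K.col.mr x - K.row.mr y + K.mne x y) := by
    rw [hb]
    field_simp
  have k1 : K.p * K.col.Xu x + K.q * K.row.Xu y + K.p * K.q * K.mne x y = K.den (x, y) - 1 - K.p * K.q * K.col.M := by
    rw [hXu, hXu', hE, e1, e2]
    linear_combination -hb'
  have k2 : K.p * ee (-K.p) x + K.q * ee (-K.q) y - K.p * K.q * (ee (-K.p) x * ee (-K.q) y) = 1 - (K.den (x, y))⁻¹ := by
    rw [hE', e3, e4]
    ring
  have k3 : K.den (x, y) * (K.den (x, y))⁻¹ = 1 := mul_inv_cancel₀ hne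
  simp only [div_eq_mul_inv]
  linear_combination (K.den (x, y))⁻¹ * k1 + K.den (x, y) * k2 + (1 - 1) * k3

private theorem C1_int3 (S : Set (ℝ × ℝ)) (f1 f2 f3 : ℝ × ℝ → ℝ) (j1 : IntegrableOn f1 S) (j2 : IntegrableOn f2 S)
    (j3 : IntegrableOn f3 S) : ∫ z in S, (f1 z - f2 z - f3 z) = (∫ z in S, f1 z) - (∫ z in S, f2 z) - ∫ z in S, f3 z := by
  have e1 : ∫ z in S, (f1 z - f2 z) = (∫ z in S, f1 z) - ∫ z in S, f2 z := integral_sub j1 j2
  have e2 : ∫ z in S, (f1 z - f2 z - f3 z) = (∫ z in S, (f1 z - f2 z)) - ∫ z in S, f3 z :=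
    integral_sub (j1.sub j2) j3
  rw [e2, e1]

private theorem C1_int6 (S : Set (ℝ × ℝ)) (f1 f2 f3 f4 f5 f6 : ℝ × ℝ → ℝ) (j1 : IntegrableOn f1 S)
    (j2 : IntegrableOn f2 S) (j3 : IntegrableOn f3 S) (j4 : IntegrableOn f4 S) (j5 : IntegrableOn f5 S)
    (j6 : IntegrableOn f6 S) : ∫ z in S, (f1 z + f2 z + f3 z + f4 z - f5 z + f6 z) =
      (∫ z in S, f1 z) + (∫ z in S, f2 z) + (∫ z in S, f3 z) + (∫ z in S, f4 z) - (∫ z in S, f5 z) +
        ∫ z in S, f6 z := by
  have i2 := j1.add j2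
  have i3 := i2.add j3
  have i4 := i3.add j4
  have i5 := i4.sub j5
  have e2 : ∫ z in S, (f1 z + f2 z) = (∫ z in S, f1 z) + ∫ z in S, f2 z := integral_add j1 j2
  have e3 : ∫ z in S, (f1 z + f2 z + f3 z) = (∫ z in S, (f1 z + f2 z)) + ∫ z in S, f3 z := integral_add i2 j3
  have e4 : ∫ z in S, (f1 z + f2 z + f3 z + f4 z) = (∫ z in S, (f1 z + f2 z + f3 z)) + ∫ z in S, f4 z :=
    integral_add i3 j4
  have e5 : ∫ z in S, (f1 z + f2 z + f3 z + f4 z - f5 z) =
      (∫ z in S, (f1 z + f2 z + f3 z + f4 z)) - ∫ z in S, f5 z := integral_sub i4 j5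
  have e6 : ∫ z in S, (f1 z + f2 z + f3 z + f4 z - f5 z + f6 z) =
      (∫ z in S, (f1 z + f2 z + f3 z + f4 z - f5 z)) + ∫ z in S, f6 z := integral_add i5 j6
  rw [e6, e5, e4, e3, e2]

private theorem C1_sum (K : Bd) (h : K.CF) :
    K.p * (K.col.N 1 / K.q) + K.q * (K.row.N 1 / K.p) = K.col.M - K.col.D - K.p * K.q * K.col.M * K.col.D := by
  have hO : K.Ok := h.toOk
  obtain ⟨hcomp, hmeas⟩ := S_compact K hO
  have hint : ∀ F : ℝ × ℝ → ℝ, Continuous F → IntegrableOn F K.S := fun F hF =>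
    hF.continuousOn.integrableOn_compact hcomp
  have hXu : Continuous K.col.Xu := K.col.Xu_cont hO.cl hO.cu
  have hXu' : Continuous K.row.Xu := K.row.Xu_cont hO.cg hO.cr
  have hden := C1_den_cont K
  have hdeni := C1_deni_cont K
  have c1 : Continuous fun z : ℝ × ℝ => K.col.Xu z.1 * (K.den z)⁻¹ := (hXu.comp continuous_fst).mul hdeni
  have c2 : Continuous fun z : ℝ × ℝ => K.row.Xu z.2 * (K.den z)⁻¹ := (hXu'.comp continuous_snd).mul hdeni
  have c3 : Continuous fun z : ℝ × ℝ => K.den z * ee (-K.p) z.1 :=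
    hden.mul ((C1_ee_cont _).comp continuous_fst)
  have c4 : Continuous fun z : ℝ × ℝ => K.den z * ee (-K.q) z.2 :=
    hden.mul ((C1_ee_cont _).comp continuous_snd)
  have c5 : Continuous fun z : ℝ × ℝ => K.den z * (ee (-K.p) z.1 * ee (-K.q) z.2) :=
    hden.mul (((C1_ee_cont _).comp continuous_fst).mul ((C1_ee_cont _).comp continuous_snd))
  have i6 : IntegrableOn (fun z : ℝ × ℝ => K.mne z.1 z.2 / K.den z) K.S := by
    obtain ⟨hm, hb⟩ := mne_meas K h
    have hi : IntegrableOn (fun z : ℝ × ℝ => K.col.M * (K.den z)⁻¹) K.S :=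
      hint _ (continuous_const.mul hdeni)
    refine Integrable.mono' hi ?_ ?_
    · exact (hm.div hden.measurable).aestronglyMeasurable
    · refine Filter.Eventually.of_forall fun z => ?_
      have hz := hb z.1 z.2
      have hd : 0 < K.den z := Real.exp_pos _
      rw [Real.norm_eq_abs, abs_of_nonneg (div_nonneg hz.1 hd.le), div_eq_mul_inv]
      exact mul_le_mul_of_nonneg_right hz.2 (inv_pos.2 hd).le
  have hcol := C1_col K hO
  have hrow := C1_row K hO
  have hpart := part K h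
  rw [fub K h] at hpart
  have hpoint : (∫ z in K.S, (K.p * (K.col.Xu z.1 * (K.den z)⁻¹) + K.q * (K.row.Xu z.2 * (K.den z)⁻¹) +
      K.p * (K.den z * ee (-K.p) z.1) + K.q * (K.den z * ee (-K.q) z.2) -
      K.p * K.q * (K.den z * (ee (-K.p) z.1 * ee (-K.q) z.2)) +
      K.p * K.q * (K.mne z.1 z.2 / K.den z))) =
      ∫ z in K.S, (K.den z - (K.den z)⁻¹ - K.p * K.q * K.col.M * (K.den z)⁻¹) :=
    setIntegral_congr_fun hmeas fun z hz => C1_point K h z hz
  have j1 := (hint _ c1).const_mul K.p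
  have j2 := (hint _ c2).const_mul K.q
  have j3 := (hint _ c3).const_mul K.p
  have j4 := (hint _ c4).const_mul K.q
  have j5 := (hint _ c5).const_mul (K.p * K.q)
  have j6 := i6.const_mul (K.p * K.q)
  rw [C1_int6 _ _ _ _ _ _ _ j1 j2 j3 j4 j5 j6,
    integral_const_mul, integral_const_mul, integral_const_mul, integral_const_mul, integral_const_mul,
    integral_const_mul] at hpoint
  have k1 := hint _ hden
  have k2 := hint _ hdeni
  have k3 := k2.const_mul (K.p * K.q * K.col.M)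
  rw [C1_int3 _ _ _ _ k1 k2 k3, integral_const_mul, ← M_set K hO, ← D_set K hO] at hpoint
  rw [hcol, hrow]
  linear_combination hpoint + K.p * K.q * hpart

theorem pivot_symm (K : Bd) (h : K.CF) : K.row.a = K.col.b ∧ K.row.b = K.col.a := by
  have hO : K.Ok := h.toOk
  have hp := h.hp
  have hq := h.hq
  have hfacts := cf_facts K h
  have hReg : K.col.Reg := hfacts.2.2.2.2.2.2.2.2.2.2.1
  have hD := K.col.D_pos hReg
  have hsum := C1_sum K h
  have hN0 : K.col.N 0 = K.q * K.col.D := by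
    have : K.col.D = K.col.N 0 / K.q := rfl
    rw [this]
    field_simp
  have hN0' : K.row.N 0 = K.p * K.col.D := by
    have e : K.row.D = K.row.N 0 / K.p := rfl
    rw [← row_D K hO, e]
    field_simp
  have ha : K.col.a = K.col.N 1 / K.q / K.col.D := by
    have : K.col.a = K.col.N 1 / K.col.N 0 := rfl
    rw [this, hN0, div_div]
  have ha' : K.row.a = K.row.N 1 / K.p / K.col.D := by
    have : K.row.a = K.row.N 1 / K.row.N 0 := rfl
    rw [this, hN0', div_div]
  have hkey : K.p * K.col.a + K.q * K.row.a = K.col.M / K.col.D - 1 - K.p * K.q * K.col.M := by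
    rw [ha, ha']
    have : K.p * (K.col.N 1 / K.q / K.col.D) + K.q * (K.row.N 1 / K.p / K.col.D) =
        (K.p * (K.col.N 1 / K.q) + K.q * (K.row.N 1 / K.p)) / K.col.D := by ring
    rw [this, hsum]
    have hD' := hD.ne'
    field_simp
  have hb : K.col.b = (K.col.M / K.col.D - 1 - K.p * K.col.a - K.p * K.q * K.col.M) / K.q := rfl
  have hb' : K.row.b = (K.row.M / K.row.D - 1 - K.q * K.row.a - K.q * K.p * K.row.M) / K.p := rfl
  constructor
  · rw [hb, eq_div_iff hq]
    linear_combination hkey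
  · rw [hb', row_M K hO, row_D K hO, div_eq_iff hp]
    linear_combination -hkey

end Bd

end Pool.Agent.Lib.MP_1dedaf_gt.DK
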