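import Pool.Agent.Lib.MP_1dedaf_gt.DK.Reg
import Pool.Agent.Lib.MP_1dedaf_gt.DK.A0
import Pool.Agent.Lib.MP_1dedaf_gt.Mg.G003
import Pool.Agent.Lib.MP_1dedaf_gt.DK.A3
import Pool.Agent.Lib.MP_1dedaf_gt.DK.Goals

/-!
# TASK DK C2a: moving the side `y = 0`: right derivatives of the moments

`tc K c` is the body with `l`, `u` replaced by `max l c`, `max u c` (not moved to the origin). `x1 = K.r 0`: `l = 0` on `[0, x1]`, `l > 0` on `(x1, w]` (`cf_facts`); `u > 0` on `(0, w)` (`u` is concave, `≥ 0`,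
positive somewhere, `cf_facts`, `fat`). General lemma `deriv_int`: if for `0 ≤ c ≤ 1` the functions `f c` are continuous on `[0, w]`, `|f c x - f 0 x| ≤ B c`, and for almost every `x ∈ (0, w)` the quotient
`(f c x - f 0 x)/c → f' x` for `c → 0+`, then the right derivative of `∫_0^w f c` at `0` is `∫_0^w f'` (dominated convergence for the slopes: `hasDerivWithinAt_iff_tendsto_slope`,
`intervalIntegral.tendsto_integral_filter_of_dominated_convergence`). Proof of the five formulas. The function `c ↦ rl (tc K c) x = exp (p x + q max (l x) c)` has right derivative `q e^{p x}` at `0` for `x < x1`, `0` for `x > x1`, and is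
Lipschitz in `c ∈ [0, 1]` uniformly in `x ∈ [0, w]`; `ru` has right derivative `0` for `0 < x < w`. So `Xl` has the right derivative `q ee p (min x x1)` (`deriv_int` on `[0, x]`), `Xu x = Xl w - ∫_x^w ru` (`Xu_eq`) has
`q ee p x1 = q St`, both with uniform Lipschitz bounds. `M`: `(ru - rl)/q`: `- ∫_0^{x1} e^{p x} = - St`. `xb`: `x mu`. `N 0`: `1/rl - 1/ru`: for `x < x1` the derivative is `- q e^{-p x}`. `N 1`: `Xl/rl`: for `x < x1`
`(q ee p x · e^{p x} - ee p x · q e^{p x}) e^{-2 p x} = 0` (as `Xl = ee p x`, `rl = e^{p x}` there), for `x > x1` `q St / rl`; `Xu/ru`: `q St/ru`; together `q St (N 0 - ∫_0^{x1} e^{-p x})`. `N 2`: `Xl²/rl`: for `x < x1`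
`2 ee q ee e^{-p x} - ee² q e^{-p x} = q (ee p x)² e^{-p x}`, for `x > x1` `2 q St Xl/rl`; `Xu²/ru`: `2 q St Xu/ru`.
-/

set_option autoImplicit false

open MeasureTheory Set Filter Topology

namespace Pool.Agent.Lib.MP_1dedaf_gt.DK

/-- The body cut by `y ≥ c`, not moved. -/
noncomputable def tc (K : Dat) (c : ℝ) : Dat := ⟨K.p, K.q, K.w, fun x => max (K.l x) c, fun x => max (K.u x) c⟩

theorem deriv_int (w : ℝ) (hw : 0 ≤ w) (f : ℝ → ℝ → ℝ) (f' : ℝ → ℝ) (B : ℝ)
    (hc : ∀ c ∈ Icc (0:ℝ) 1, ContinuousOn (f c) (Icc 0 w)) (hB : ∀ c ∈ Icc (0:ℝ) 1, ∀ x ∈ Icc 0 w, |f c x - f 0 x| ≤ B * c)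
    (hd : ∀ᵐ x : ℝ, x ∈ Ioo 0 w → HasDerivWithinAt (fun c => f c x) (f' x) (Ici 0) 0) :
    HasDerivWithinAt (fun c => ∫ x in (0:ℝ)..w, f c x) (∫ x in (0:ℝ)..w, f' x) (Ici 0) 0 := by
  have h0 : (0:ℝ) ∈ Icc (0:ℝ) 1 := ⟨le_rfl, zero_le_one⟩
  have hint : ∀ c ∈ Icc (0:ℝ) 1, IntervalIntegrable (f c) volume 0 w := fun c h =>
    (hc c h).intervalIntegrable_of_Icc hw
  have hev : ∀ᶠ c : ℝ in 𝓝[Ici 0 \ {0}] 0, c ∈ Ioc (0:ℝ) 1 := by
    rw [Ici_sdiff_left]
    exact Ioc_mem_nhdsGT zero_lt_one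
  rw [hasDerivWithinAt_iff_tendsto_slope]
  have hlim : Tendsto (fun c => ∫ x in (0:ℝ)..w, slope (fun c => f c x) 0 c) (𝓝[Ici 0 \ {0}] 0)
      (𝓝 (∫ x in (0:ℝ)..w, f' x)) := by
    refine intervalIntegral.tendsto_integral_filter_of_dominated_convergence (fun _ => B) ?_ ?_
      intervalIntegrable_const ?_
    · filter_upwards [hev] with c hc1
      have hc2 : c ∈ Icc (0:ℝ) 1 := ⟨hc1.1.le, hc1.2⟩
      rw [uIoc_of_le hw]
      have h1 : ContinuousOn (fun x => slope (fun c => f c x) 0 c) (Ioc 0 w) := by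
        have h3 := hc c hc2
        have h4 := hc 0 h0
        have h2 : ContinuousOn (fun x => (c - 0)⁻¹ • (f c x - f 0 x)) (Icc 0 w) := by
          fun_prop
        exact h2.mono Ioc_subset_Icc_self
      exact h1.aestronglyMeasurable measurableSet_Ioc
    · filter_upwards [hev] with c hc1
      have hc2 : c ∈ Icc (0:ℝ) 1 := ⟨hc1.1.le, hc1.2⟩
      refine Eventually.of_forall fun x hx => ?_
      rw [uIoc_of_le hw] at hx
      have h1 := hB c hc2 x ⟨hx.1.le, hx.2⟩
      rw [slope_def_field, sub_zero, Real.norm_eq_abs, abs_div, abs_of_pos hc1.1,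
        div_le_iff₀ hc1.1]
      exact h1
    · have hne : ∀ᵐ x : ℝ, x ∉ ({w} : Set ℝ) := (countable_singleton w).ae_notMem volume
      filter_upwards [hd, hne] with x hx hxw hxI
      rw [uIoc_of_le hw] at hxI
      have h1 : x ∈ Ioo 0 w := ⟨hxI.1, lt_of_le_of_ne hxI.2 hxw⟩
      exact hasDerivWithinAt_iff_tendsto_slope.1 (hx h1)
  refine hlim.congr' ?_
  filter_upwards [hev] with c hc1
  have hc2 : c ∈ Icc (0:ℝ) 1 := ⟨hc1.1.le, hc1.2⟩
  have h1 : (fun x => slope (fun c => f c x) 0 c) = fun x => (f c x - f 0 x) / (c - 0) := by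
    funext x
    rw [slope_def_field]
  rw [h1, intervalIntegral.integral_div, intervalIntegral.integral_sub (hint c hc2) (hint 0 h0),
    slope_def_field]

private theorem C2a_exp {a b Q : ℝ} (ha : a ≤ Q) : Real.exp a - Real.exp b ≤ Real.exp Q * |a - b| := by
  have h1 := Real.add_one_le_exp (b - a)
  have h2 : Real.exp b = Real.exp a * Real.exp (b - a) := by
    rw [← Real.exp_add]
    congr 1
    ring
  have h3 : Real.exp a ≤ Real.exp Q := Real.exp_le_exp.2 ha
  have h4 := Real.exp_pos a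
  rw [h2]
  calc Real.exp a - Real.exp a * Real.exp (b - a) ≤ Real.exp a * (a - b) := by nlinarith
    _ ≤ Real.exp a * |a - b| := mul_le_mul_of_nonneg_left (le_abs_self _) h4.le
    _ ≤ Real.exp Q * |a - b| := mul_le_mul_of_nonneg_right h3 (abs_nonneg _)

private theorem C2a_exp' {a b Q : ℝ} (ha : a ≤ Q) (hb : b ≤ Q) :
    |Real.exp a - Real.exp b| ≤ Real.exp Q * |a - b| := by
  rw [abs_le]
  constructor
  · have h1 := C2a_exp (a := b) (b := a) hb
    rw [abs_sub_comm] at h1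
    linarith
  · exact C2a_exp ha

/-- Bounds for one boundary function. -/
private theorem C2a_bd (p q w : ℝ) (v : ℝ → ℝ) {C : ℝ} (hC : ∀ x ∈ Icc 0 w, |v x| ≤ C)
    {c x : ℝ} (hc : c ∈ Icc (0:ℝ) 1) (hx : x ∈ Icc 0 w) :
    |Real.exp (p * x + q * max (v x) c) - Real.exp (p * x + q * max (v x) 0)| ≤
      Real.exp (|p| * w + |q| * (C + 1)) * |q| * c ∧
    Real.exp (-(|p| * w + |q| * (C + 1))) ≤ Real.exp (p * x + q * max (v x) c) ∧
    Real.exp (p * x + q * max (v x) c) ≤ Real.exp (|p| * w + |q| * (C + 1)) := by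
  have hC0 : 0 ≤ C := (abs_nonneg _).trans (hC x hx)
  have key : ∀ c' ∈ Icc (0:ℝ) 1, |p * x + q * max (v x) c'| ≤ |p| * w + |q| * (C + 1) := by
    intro c' hc'
    have h1 := abs_le.1 (hC x hx)
    have h2 : |max (v x) c'| ≤ C + 1 := by
      rw [abs_le]
      constructor
      · exact le_trans (by linarith [h1.1]) (le_max_left _ _)
      · exact max_le (by linarith [h1.2]) (by linarith [hc'.2])
    have h3 : |x| ≤ w := by rw [abs_of_nonneg hx.1]; exact hx.2
    calc |p * x + q * max (v x) c'| ≤ |p * x| + |q * max (v x) c'| := abs_add_le _ _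
      _ = |p| * |x| + |q| * |max (v x) c'| := by rw [abs_mul, abs_mul]
      _ ≤ |p| * w + |q| * (C + 1) := add_le_add (mul_le_mul_of_nonneg_left h3 (abs_nonneg _))
          (mul_le_mul_of_nonneg_left h2 (abs_nonneg _))
  have k1 := abs_le.1 (key c hc)
  have k0 := abs_le.1 (key 0 ⟨le_rfl, zero_le_one⟩)
  refine ⟨?_, Real.exp_le_exp.2 k1.1, Real.exp_le_exp.2 k1.2⟩
  refine (C2a_exp' k1.2 k0.2).trans ?_
  rw [mul_assoc]
  refine mul_le_mul_of_nonneg_left ?_ (Real.exp_pos _).le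
  have h1 : p * x + q * max (v x) c - (p * x + q * max (v x) 0) =
      q * (max (v x) c - max (v x) 0) := by ring
  rw [h1, abs_mul]
  refine mul_le_mul_of_nonneg_left ?_ (abs_nonneg _)
  have h2 := abs_max_sub_max_le_abs c 0 (v x)
  rw [max_comm c, max_comm 0, sub_zero, abs_of_nonneg hc.1] at h2
  exact h2

/-- The upper boundary is positive in the interior. -/
private theorem C2a_upos (K : Bd) (h : K.CF) {x : ℝ} (hx0 : 0 < x) (hxw : x < K.w) : 0 < K.u x := by
  obtain ⟨-, -, hu0, -, hl, -⟩ := cf_facts K h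
  obtain ⟨z, hz, hlu⟩ := h.fat
  have hz0 : 0 < K.u z := lt_of_le_of_lt (hl z hz) hlu
  have hw : 0 < K.w := h.hw
  have huw : 0 ≤ K.u K.w := (hl _ ⟨hw.le, le_rfl⟩).trans (h.lu _ ⟨hw.le, le_rfl⟩)
  rcases lt_trichotomy x z with hlt | heq | hgt
  · have hzp : 0 < z := hx0.trans hlt
    have h1 := h.vu.2 hz (⟨le_rfl, hw.le⟩ : (0:ℝ) ∈ Icc 0 K.w) (div_nonneg hx0.le hzp.le)
      (div_nonneg (sub_nonneg.2 hlt.le) hzp.le)
      (by rw [← add_div, add_sub_cancel, div_self hzp.ne'])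
    have h2 : (x / z) • z + ((z - x) / z) • (0:ℝ) = x := by
      rw [smul_eq_mul, smul_eq_mul, mul_zero, add_zero, div_mul_cancel₀ _ hzp.ne']
    rw [h2, smul_eq_mul, smul_eq_mul] at h1
    have h3 : 0 < x / z * K.u z := mul_pos (div_pos hx0 hzp) hz0
    have h4 : 0 ≤ (z - x) / z * K.u 0 := mul_nonneg (div_nonneg (sub_nonneg.2 hlt.le) hzp.le) hu0
    linarith
  · rw [heq]
    exact hz0
  · have hd : 0 < K.w - z := by linarith
    have h1 := h.vu.2 hz (⟨hw.le, le_rfl⟩ : K.w ∈ Icc 0 K.w)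
      (div_nonneg (sub_nonneg.2 hxw.le) hd.le) (div_nonneg (sub_nonneg.2 hgt.le) hd.le)
      (by rw [← add_div, sub_add_sub_cancel, div_self hd.ne'])
    have h2 : ((K.w - x) / (K.w - z)) • z + ((x - z) / (K.w - z)) • K.w = x := by
      rw [smul_eq_mul, smul_eq_mul, div_mul_eq_mul_div, div_mul_eq_mul_div, ← add_div,
        div_eq_iff hd.ne']
      ring
    rw [h2, smul_eq_mul, smul_eq_mul] at h1
    have h3 : 0 < (K.w - x) / (K.w - z) * K.u z := mul_pos (div_pos (by linarith) hd) hz0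
    have h4 : 0 ≤ (x - z) / (K.w - z) * K.u K.w :=
      mul_nonneg (div_nonneg (sub_nonneg.2 hgt.le) hd.le) huw
    linarith

private theorem C2a_const {p q x v : ℝ} (hv : 0 < v) :
    HasDerivWithinAt (fun c => Real.exp (p * x + q * max v c)) 0 (Ici 0) 0 := by
  refine (hasDerivWithinAt_const (0:ℝ) (Ici 0) (Real.exp (p * x + q * v))).congr_of_eventuallyEq
    ?_ ?_
  · have h1 : ∀ᶠ c : ℝ in 𝓝[Ici 0] 0, c < v := by
      refine nhdsWithin_le_nhds ?_
      exact Iio_mem_nhds hv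
    filter_upwards [h1] with c hc
    rw [max_eq_left hc.le]
  · rw [max_eq_left hv.le]

/-- Pointwise right derivatives of the densities and uniform bounds. -/
theorem tc_rl (K : Bd) (h : K.CF) : (∀ x, 0 ≤ x → x < K.r 0 → HasDerivWithinAt (fun c => (tc K.col c).rl x) (K.q * Real.exp (K.p * x)) (Ici 0) 0) ∧
    (∀ x, K.r 0 < x → x ≤ K.w → HasDerivWithinAt (fun c => (tc K.col c).rl x) 0 (Ici 0) 0) ∧
    (∀ x, 0 < x → x < K.w → HasDerivWithinAt (fun c => (tc K.col c).ru x) 0 (Ici 0) 0) ∧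
    ∃ B m : ℝ, 0 < m ∧ 0 ≤ B ∧ ∀ c ∈ Icc (0:ℝ) 1, ∀ x ∈ Icc 0 K.w, |(tc K.col c).rl x - (tc K.col 0).rl x| ≤ B * c ∧
      |(tc K.col c).ru x - (tc K.col 0).ru x| ≤ B * c ∧ m ≤ (tc K.col c).rl x ∧ (tc K.col c).rl x ≤ B ∧
      m ≤ (tc K.col c).ru x ∧ (tc K.col c).ru x ≤ B := by
  obtain ⟨-, -, -, -, -, -, hs, hpos, -⟩ := cf_facts K h
  refine ⟨fun x h1 h2 => ?_, fun x h1 h2 => ?_, fun x h1 h2 => ?_, ?_⟩
  · have hl : K.l x = 0 := (hs x h1 h2.le).2.1
    have h3 : HasDerivWithinAt (fun c : ℝ => Real.exp (K.p * x + K.q * c))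
        (K.q * Real.exp (K.p * x)) (Ici 0) 0 := by
      have h4 : HasDerivAt (fun c : ℝ => K.p * x + K.q * c) (K.q * 1) 0 :=
        ((hasDerivAt_id (0:ℝ)).const_mul K.q).const_add _
      have h5 := h4.exp
      rw [mul_zero, add_zero, mul_one, mul_comm (Real.exp _)] at h5
      exact h5.hasDerivWithinAt
    refine h3.congr (fun c hc => ?_) ?_
    · change Real.exp (K.p * x + K.q * max (K.l x) c) = _
      rw [hl, max_eq_right hc]
    · change Real.exp (K.p * x + K.q * max (K.l x) 0) = _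
      rw [hl, max_self]
  · exact C2a_const (hpos x h1 h2)
  · exact C2a_const (C2a_upos K h h1 h2)
  · obtain ⟨C1, hC1⟩ := isCompact_Icc.exists_bound_of_continuousOn (s := Icc 0 K.w) h.cl.continuousOn
    obtain ⟨C2, hC2⟩ := isCompact_Icc.exists_bound_of_continuousOn (s := Icc 0 K.w) h.cu.continuousOn
    have b1 : ∀ x ∈ Icc 0 K.w, |K.l x| ≤ max C1 C2 := fun x hx => (hC1 x hx).trans (le_max_left _ _)
    have b2 : ∀ x ∈ Icc 0 K.w, |K.u x| ≤ max C1 C2 := fun x hx => (hC2 x hx).trans (le_max_right _ _)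
    set Q : ℝ := |K.p| * K.w + |K.q| * (max C1 C2 + 1) with hQ
    have hE := Real.exp_pos Q
    refine ⟨Real.exp Q * (|K.q| + 1), Real.exp (-Q), Real.exp_pos _, by positivity,
      fun c hc x hx => ?_⟩
    obtain ⟨l1, l2, l3⟩ := C2a_bd K.p K.q K.w K.l b1 hc hx
    obtain ⟨u1, u2, u3⟩ := C2a_bd K.p K.q K.w K.u b2 hc hx
    have e1 : Real.exp Q * |K.q| * c ≤ Real.exp Q * (|K.q| + 1) * c := by
      refine mul_le_mul_of_nonneg_right ?_ hc.1
      exact mul_le_mul_of_nonneg_left (by linarith) hE.le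
    have e2 : Real.exp Q ≤ Real.exp Q * (|K.q| + 1) := by
      have := abs_nonneg K.q
      nlinarith
    exact ⟨l1.trans e1, u1.trans e1, l2, l3.trans e2, u2, u3.trans e2⟩

private theorem C2a_cl (K : Bd) (h : K.CF) (c : ℝ) : Continuous (tc K.col c).l :=
  h.cl.max continuous_const

private theorem C2a_cu (K : Bd) (h : K.CF) (c : ℝ) : Continuous (tc K.col c).u :=
  h.cu.max continuous_const

/-- The integral of the derivative. -/
private theorem C2a_int {p q r x : ℝ} (hp : p ≠ 0) (hr : 0 ≤ r) (hx : 0 ≤ x) :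
    ∫ t in (0:ℝ)..x, (if t ≤ r then q * Real.exp (p * t) else 0) = q * ee p (min x r) := by
  set m : ℝ := min x r with hm
  have hm0 : 0 ≤ m := le_min hx hr
  have hmx : m ≤ x := min_le_left _ _
  have hmr : m ≤ r := min_le_right _ _
  have e1 : ∀ t ∈ uIoc 0 m, (if t ≤ r then q * Real.exp (p * t) else 0) = q * Real.exp (p * t) := by
    intro t ht
    rw [uIoc_of_le hm0] at ht
    rw [if_pos (ht.2.trans hmr)]
  have e2 : ∀ t ∈ uIoc m x, (if t ≤ r then q * Real.exp (p * t) else 0) = 0 := by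
    intro t ht
    rw [uIoc_of_le hmx] at ht
    rcases min_choice x r with h1 | h1
    · have h2 : m = x := h1
      rw [h2] at ht
      exact absurd ht.2 (not_le.2 ht.1)
    · have h2 : m = r := h1
      rw [h2] at ht
      rw [if_neg (not_le.2 ht.1)]
  have hcont : Continuous fun t : ℝ => q * Real.exp (p * t) := by fun_prop
  have i1 : IntervalIntegrable (fun t => if t ≤ r then q * Real.exp (p * t) else 0) volume 0 m := by
    refine (hcont.intervalIntegrable 0 m).congr ?_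
    exact fun t ht => (e1 t ht).symm
  have i2 : IntervalIntegrable (fun t => if t ≤ r then q * Real.exp (p * t) else 0) volume m x := by
    refine (intervalIntegrable_const (c := (0:ℝ))).congr ?_
    exact fun t ht => (e2 t ht).symm
  rw [← intervalIntegral.integral_add_adjacent_intervals i1 i2,
    intervalIntegral.integral_congr_ae (Eventually.of_forall e1),
    intervalIntegral.integral_congr_ae (Eventually.of_forall e2), intervalIntegral.integral_zero,
    add_zero, intervalIntegral.integral_const_mul]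
  congr 1
  have hd : ∀ t : ℝ, HasDerivAt (fun t => Real.exp (p * t) / p) (Real.exp (p * t)) t := by
    intro t
    have h1 := ((hasDerivAt_id t).const_mul p).exp.div_const p
    simp only [id, mul_one] at h1
    rw [mul_div_assoc, div_self hp, mul_one] at h1
    exact h1
  have hc2 : Continuous fun t : ℝ => Real.exp (p * t) := by fun_prop
  rw [intervalIntegral.integral_eq_sub_of_hasDerivAt (fun t _ => hd t)
    (hc2.intervalIntegrable _ _), mul_zero, Real.exp_zero, ee]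
  ring

/-- Right derivatives of `X` and uniform bounds. -/
theorem tc_X (K : Bd) (h : K.CF) :
    (∀ x ∈ Icc 0 K.w, HasDerivWithinAt (fun c => (tc K.col c).Xl x) (K.q * ee K.p (min x (K.r 0))) (Ici 0) 0 ∧
      HasDerivWithinAt (fun c => (tc K.col c).Xu x) (K.q * ee K.p (K.r 0)) (Ici 0) 0) ∧
    ∃ B : ℝ, 0 ≤ B ∧ ∀ c ∈ Icc (0:ℝ) 1, ∀ x ∈ Icc 0 K.w, |(tc K.col c).Xl x - (tc K.col 0).Xl x| ≤ B * c ∧
      |(tc K.col c).Xu x - (tc K.col 0).Xu x| ≤ B * c ∧ |(tc K.col c).Xl x| ≤ B ∧ |(tc K.col c).Xu x| ≤ B := by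
  obtain ⟨d1, d2, d3, B, m, hm, hB0, hB⟩ := tc_rl K h
  obtain ⟨-, -, -, hr0, -, -, -, -, hrw, -⟩ := cf_facts K h
  have hw : 0 < K.w := h.hw
  have crl : ∀ c, Continuous (tc K.col c).rl := fun c => Dat.rl_cont _ (C2a_cl K h c)
  have cru : ∀ c, Continuous (tc K.col c).ru := fun c => Dat.ru_cont _ (C2a_cu K h c)
  have hl : ∀ x ∈ Icc 0 K.w, HasDerivWithinAt (fun c => (tc K.col c).Xl x)
      (K.q * ee K.p (min x (K.r 0))) (Ici 0) 0 := by
    intro x hx
    have h1 := deriv_int x hx.1 (fun c t => (tc K.col c).rl t)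
      (fun t => if t ≤ K.r 0 then K.q * Real.exp (K.p * t) else 0) B
      (fun c _ => (crl c).continuousOn)
      (fun c hc t ht => (hB c hc t ⟨ht.1, ht.2.trans hx.2⟩).1) (by
        have hne : ∀ᵐ t : ℝ, t ∉ ({K.r 0} : Set ℝ) := (countable_singleton _).ae_notMem volume
        filter_upwards [hne] with t ht htI
        rcases lt_or_gt_of_ne (show t ≠ K.r 0 from ht) with h2 | h2
        · rw [if_pos h2.le]
          exact d1 t htI.1.le h2
        · rw [if_neg (not_le.2 h2)]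
          exact d2 t h2 (htI.2.le.trans hx.2))
    rw [C2a_int h.hp hr0 hx.1] at h1
    exact h1
  have hu : ∀ x ∈ Icc 0 K.w, HasDerivWithinAt (fun c => ∫ t in (0:ℝ)..x, (tc K.col c).ru t)
      0 (Ici 0) 0 := by
    intro x hx
    have h1 := deriv_int x hx.1 (fun c t => (tc K.col c).ru t) (fun _ => 0) B
      (fun c _ => (cru c).continuousOn)
      (fun c hc t ht => (hB c hc t ⟨ht.1, ht.2.trans hx.2⟩).2.1)
      (Eventually.of_forall fun t ht => d3 t ht.1 (ht.2.trans_le hx.2))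
    rw [intervalIntegral.integral_zero] at h1
    exact h1
  have hXu : ∀ c x, (tc K.col c).Xu x = (tc K.col c).Xl K.w -
      ((∫ t in (0:ℝ)..K.w, (tc K.col c).ru t) - ∫ t in (0:ℝ)..x, (tc K.col c).ru t) := by
    intro c x
    rw [Dat.Xu_eq (tc K.col c) h.hq (C2a_cl K h c) (C2a_cu K h c) x,
      intervalIntegral.integral_interval_sub_left ((cru c).intervalIntegrable _ _)
        ((cru c).intervalIntegrable _ _)]
    rfl
  have hwI : K.w ∈ Icc 0 K.w := ⟨hw.le, le_rfl⟩
  refine ⟨fun x hx => ⟨hl x hx, ?_⟩, ?_⟩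
  · have h1 := (hl K.w hwI).sub ((hu K.w hwI).sub (hu x hx))
    rw [min_eq_right hrw, sub_zero, sub_zero] at h1
    refine h1.congr (fun c _ => ?_) ?_
    · rw [hXu]
      rfl
    · rw [hXu]
      rfl
  · have hBw : 0 ≤ B * K.w := mul_nonneg hB0 hw.le
    have key : ∀ {f : ℝ → ℝ} {C x : ℝ}, 0 ≤ C → x ∈ Icc 0 K.w → (∀ t ∈ Icc 0 K.w, |f t| ≤ C) →
        |∫ t in (0:ℝ)..x, f t| ≤ C * K.w := by
      intro f C x hC hx hf
      have h1 := intervalIntegral.norm_integral_le_of_norm_le_const (a := 0) (b := x) (f := f)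
        (C := C) (fun t ht => by
          rw [uIoc_of_le hx.1] at ht
          exact hf t ⟨ht.1.le, ht.2.trans hx.2⟩)
      rw [sub_zero, abs_of_nonneg hx.1, Real.norm_eq_abs] at h1
      exact h1.trans (mul_le_mul_of_nonneg_left hx.2 hC)
    have key2 : ∀ {f : ℝ → ℝ} {C x : ℝ}, 0 ≤ C → x ∈ Icc 0 K.w → (∀ t ∈ Icc 0 K.w, |f t| ≤ C) →
        |∫ t in x..K.w, f t| ≤ C * K.w := by
      intro f C x hC hx hf
      have h1 := intervalIntegral.norm_integral_le_of_norm_le_const (a := x) (b := K.w) (f := f)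
        (C := C) (fun t ht => by
          rw [uIoc_of_le hx.2] at ht
          exact hf t ⟨hx.1.trans ht.1.le, ht.2⟩)
      rw [abs_of_nonneg (sub_nonneg.2 hx.2), Real.norm_eq_abs] at h1
      exact h1.trans (mul_le_mul_of_nonneg_left (by linarith [hx.1]) hC)
    have cXl : ∀ c ∈ Icc (0:ℝ) 1, ∀ x ∈ Icc 0 K.w,
        |(tc K.col c).Xl x - (tc K.col 0).Xl x| ≤ B * K.w * c := by
      intro c hc x hx
      have h1 : (tc K.col c).Xl x - (tc K.col 0).Xl x =
          ∫ t in (0:ℝ)..x, ((tc K.col c).rl t - (tc K.col 0).rl t) := by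
        rw [intervalIntegral.integral_sub ((crl c).intervalIntegrable _ _)
          ((crl 0).intervalIntegrable _ _)]
        rfl
      rw [h1]
      refine (key (mul_nonneg hB0 hc.1) hx fun t ht => (hB c hc t ht).1).trans ?_
      exact le_of_eq (by ring)
    have aXl : ∀ c ∈ Icc (0:ℝ) 1, ∀ x ∈ Icc 0 K.w, |(tc K.col c).Xl x| ≤ B * K.w := by
      intro c hc x hx
      refine key hB0 hx fun t ht => ?_
      obtain ⟨-, -, a1, a2, -⟩ := hB c hc t ht
      rw [abs_of_nonneg (hm.le.trans a1)]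
      exact a2
    have eXu : ∀ c x, (tc K.col c).Xu x = (tc K.col c).Xl K.w - ∫ t in x..K.w, (tc K.col c).ru t :=
      fun c x => Dat.Xu_eq (tc K.col c) h.hq (C2a_cl K h c) (C2a_cu K h c) x
    refine ⟨2 * (B * K.w), by positivity, fun c hc x hx => ⟨?_, ?_, ?_, ?_⟩⟩
    · refine (cXl c hc x hx).trans ?_
      exact mul_le_mul_of_nonneg_right (by linarith) hc.1
    · have h1 : (tc K.col c).Xu x - (tc K.col 0).Xu x =
          ((tc K.col c).Xl K.w - (tc K.col 0).Xl K.w) -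
            ∫ t in x..K.w, ((tc K.col c).ru t - (tc K.col 0).ru t) := by
        rw [intervalIntegral.integral_sub ((cru c).intervalIntegrable _ _)
          ((cru 0).intervalIntegrable _ _), eXu, eXu]
        ring
      have h2 := cXl c hc K.w hwI
      have h3 : |∫ t in x..K.w, ((tc K.col c).ru t - (tc K.col 0).ru t)| ≤ B * c * K.w :=
        key2 (mul_nonneg hB0 hc.1) hx fun t ht => (hB c hc t ht).2.1
      rw [h1]
      refine (abs_sub _ _).trans ?_
      calc _ ≤ B * K.w * c + B * c * K.w := add_le_add h2 h3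
        _ = 2 * (B * K.w) * c := by ring
    · exact (aXl c hc x hx).trans (by linarith)
    · have h2 := aXl c hc K.w hwI
      have h3 : |∫ t in x..K.w, (tc K.col c).ru t| ≤ B * K.w := by
        refine key2 hB0 hx fun t ht => ?_
        obtain ⟨-, -, -, -, a1, a2⟩ := hB c hc t ht
        rw [abs_of_nonneg (hm.le.trans a1)]
        exact a2
      rw [eXu]
      refine (abs_sub _ _).trans ?_
      calc _ ≤ B * K.w + B * K.w := add_le_add h2 h3
        _ = 2 * (B * K.w) := by ring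

end Pool.Agent.Lib.MP_1dedaf_gt.DK
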