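import Pool.Agent.Lib.MP_1dedaf_gt.DK.Reg
import Pool.Agent.Lib.MP_1dedaf_gt.DK.A0
import Pool.Agent.Lib.MP_1dedaf_gt.Mg.G003
import Pool.Agent.Lib.MP_1dedaf_gt.DK.A3
import Pool.Agent.Lib.MP_1dedaf_gt.DK.A4
import Pool.Agent.Lib.MP_1dedaf_gt.DK.Goals
import Pool.Agent.Lib.MP_1dedaf_gt.DK.C2a

/-!
# TASK DK C2b: moving the side `y = 0`: right derivatives of the moments, part 2

See the docstring of `C2a` for the derivation of the five formulas (`deriv_int` with `tc_rl`, `tc_X`; products and quotients of functions which are bounded and Lipschitz in `c`; the densities are `≥ m > 0`).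
Note `tc K.col 0` agrees with `K.col` on `[0, w]` (`0 ≤ l ≤ u`), so `congr` gives `(tc K.col 0).N i = K.col.N i` and so on; on `[0, x1]`: `l = 0`, `rl = e^{p x}`, `Xl = ee p x`.
-/

set_option autoImplicit false

open MeasureTheory Set Filter Topology

namespace Pool.Agent.Lib.MP_1dedaf_gt.DK

private theorem C2b_ne (x1 : ℝ) : ∀ᵐ x : ℝ, x ≠ x1 := by
  rw [ae_iff]
  simp

private theorem C2b_split {x1 w : ℝ} (h0 : 0 ≤ x1) (h1 : x1 ≤ w) {A B : ℝ → ℝ}
    (hA : Continuous A) (hB : Continuous B) :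
    (∫ x in (0:ℝ)..w, (if x < x1 then A x else B x)) =
      (∫ x in (0:ℝ)..x1, A x) + ∫ x in x1..w, B x := by
  have hn := C2b_ne x1
  have e1 : ∀ᵐ x : ℝ, x ∈ uIoc (0:ℝ) x1 → A x = (if x < x1 then A x else B x) := by
    filter_upwards [hn] with x hx hxm
    rw [uIoc_of_le h0] at hxm
    rw [if_pos (lt_of_le_of_ne hxm.2 hx)]
  have e2 : ∀ᵐ x : ℝ, x ∈ uIoc x1 w → B x = (if x < x1 then A x else B x) := by
    refine Eventually.of_forall fun x hxm => ?_
    rw [uIoc_of_le h1] at hxm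
    rw [if_neg (not_lt.2 hxm.1.le)]
  have i1 : IntervalIntegrable (fun x => if x < x1 then A x else B x) volume 0 x1 :=
    (hA.intervalIntegrable 0 x1).congr_ae ((ae_restrict_iff' measurableSet_uIoc).2 e1)
  have i2 : IntervalIntegrable (fun x => if x < x1 then A x else B x) volume x1 w :=
    (hB.intervalIntegrable x1 w).congr_ae ((ae_restrict_iff' measurableSet_uIoc).2 e2)
  rw [← intervalIntegral.integral_add_adjacent_intervals i1 i2,
    intervalIntegral.integral_congr_ae e1, intervalIntegral.integral_congr_ae e2]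

private theorem C2b_exp {k : ℝ} (hk : k ≠ 0) (x : ℝ) : (∫ t in (0:ℝ)..x, Real.exp (k * t)) = ee k x := by
  have hd : ∀ t : ℝ, HasDerivAt (fun t => Real.exp (k * t) / k) (Real.exp (k * t)) t := by
    intro t
    have h1 : HasDerivAt (fun t : ℝ => k * t) k t := by
      simpa using (hasDerivAt_id t).const_mul k
    have h2 := (h1.exp).div_const k
    rwa [mul_div_assoc, div_self hk, mul_one] at h2
  have hc : Continuous fun t : ℝ => Real.exp (k * t) := by fun_prop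
  rw [intervalIntegral.integral_eq_sub_of_hasDerivAt (fun t _ => hd t) (hc.intervalIntegrable _ _)]
  unfold ee
  rw [mul_zero, Real.exp_zero, sub_div]

private theorem C2b_quot {a a0 b b0 c m P Q B : ℝ} (hm : 0 < m) (hc : 0 ≤ c) (hP : 0 ≤ P) (hQ : 0 ≤ Q) (hB : 0 ≤ B)
    (h1 : |a - a0| ≤ P * c) (h2 : |a0| ≤ Q) (h3 : |b - b0| ≤ B * c) (h4 : m ≤ b) (h5 : m ≤ b0) :
    |a / b - a0 / b0| ≤ (P / m + Q * B / m ^ 2) * c := by
  have hb : 0 < b := hm.trans_le h4
  have hb0 : 0 < b0 := hm.trans_le h5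
  have e : a / b - a0 / b0 = (a - a0) / b + a0 * (b0 - b) / (b * b0) := by
    field_simp
    ring
  have e1 : |(a - a0) / b| ≤ P * c / m := by
    rw [abs_div, abs_of_pos hb]
    exact div_le_div₀ (mul_nonneg hP hc) h1 hm h4
  have e2 : |a0 * (b0 - b) / (b * b0)| ≤ Q * (B * c) / m ^ 2 := by
    rw [abs_div, abs_mul, abs_of_pos (mul_pos hb hb0), abs_sub_comm b0 b]
    refine div_le_div₀ (by positivity) (mul_le_mul h2 h3 (abs_nonneg _) hQ) (by positivity) ?_
    rw [sq]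
    exact mul_le_mul h4 h5 hm.le hb.le
  rw [e]
  calc |(a - a0) / b + a0 * (b0 - b) / (b * b0)| ≤ P * c / m + Q * (B * c) / m ^ 2 :=
        (abs_add_le _ _).trans (add_le_add e1 e2)
    _ = (P / m + Q * B / m ^ 2) * c := by ring

private theorem C2b_pow {B : ℝ} (hB : 0 ≤ B) (i : ℕ) : ∃ P : ℝ, 0 ≤ P ∧ ∀ a a0 c : ℝ, 0 ≤ c → |a| ≤ B → |a0| ≤ B →
    |a - a0| ≤ B * c → |a ^ i - a0 ^ i| ≤ P * c := by
  induction i with
  | zero =>
    refine ⟨0, le_rfl, fun a a0 c _ _ _ _ => ?_⟩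
    simp
  | succ i ih =>
    obtain ⟨P, hP, h⟩ := ih
    refine ⟨B * P + B * B ^ i, by positivity, fun a a0 c hc h1 h2 h3 => ?_⟩
    have e : a ^ (i + 1) - a0 ^ (i + 1) = a * (a ^ i - a0 ^ i) + (a - a0) * a0 ^ i := by ring
    have e1 : |a * (a ^ i - a0 ^ i)| ≤ B * (P * c) := by
      rw [abs_mul]
      exact mul_le_mul h1 (h a a0 c hc h1 h2 h3) (abs_nonneg _) hB
    have e2 : |(a - a0) * a0 ^ i| ≤ B * c * B ^ i := by
      rw [abs_mul, abs_pow]
      exact mul_le_mul h3 (pow_le_pow_left₀ (abs_nonneg _) h2 i) (by positivity) (by positivity)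
    rw [e]
    calc |a * (a ^ i - a0 ^ i) + (a - a0) * a0 ^ i| ≤ B * (P * c) + B * c * B ^ i :=
          (abs_add_le _ _).trans (add_le_add e1 e2)
      _ = (B * P + B * B ^ i) * c := by ring

private theorem C2b_cont (K : Bd) (h : K.CF) (c : ℝ) :
    Continuous (tc K.col c).l ∧ Continuous (tc K.col c).u :=
  ⟨h.cl.max continuous_const, h.cu.max continuous_const⟩

private theorem C2b_congr (K : Bd) (h : K.CF) : (tc K.col 0).M = K.col.M ∧
    (tc K.col 0).xb = K.col.xb ∧ (∀ i, (tc K.col 0).N i = K.col.N i) ∧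
    ∀ x ∈ Icc 0 K.w, (tc K.col 0).rl x = K.col.rl x ∧ (tc K.col 0).ru x = K.col.ru x ∧
      (tc K.col 0).Xl x = K.col.Xl x ∧ (tc K.col 0).Xu x = K.col.Xu x := by
  obtain ⟨-, -, -, -, hl, -⟩ := cf_facts K h
  have h1 := Dat.congr K.col (tc K.col 0) rfl rfl rfl h.hw.le
    (fun x hx => max_eq_left (hl x hx)) (fun x hx => max_eq_left ((hl x hx).trans (h.lu x hx)))
  exact ⟨h1.1, h1.2.1, h1.2.2.1, fun x hx =>
    ⟨(h1.2.2.2.2.2.2.2 x hx).1, (h1.2.2.2.2.2.2.2 x hx).2.1, (h1.2.2.2.2.2.2.2 x hx).2.2.1,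
      (h1.2.2.2.2.2.2.2 x hx).2.2.2.1⟩⟩

/-- On the side `y = 0`. -/
private theorem C2b_side (K : Bd) (h : K.CF) : 0 ≤ K.r 0 ∧ K.r 0 ≤ K.w ∧
    ∀ x, 0 ≤ x → x ≤ K.r 0 → K.col.rl x = Real.exp (K.p * x) ∧ K.col.Xl x = ee K.p x := by
  obtain ⟨-, -, -, hr0, -, -, hs, -, hrw, -⟩ := cf_facts K h
  have h1 : ∀ x, 0 ≤ x → x ≤ K.r 0 → K.col.rl x = Real.exp (K.p * x) := by
    intro x h0 h1
    change Real.exp (K.p * x + K.q * K.l x) = _
    rw [(hs x h0 h1).2.1, mul_zero, add_zero]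
  refine ⟨hr0, hrw, fun x h0 h2 => ⟨h1 x h0 h2, ?_⟩⟩
  rw [← C2b_exp h.hp x]
  unfold Dat.Xl
  refine intervalIntegral.integral_congr fun t ht => ?_
  rw [uIcc_of_le h0] at ht
  exact h1 t ht.1 (ht.2.trans h2)

/-- The general moment. -/
private theorem C2b_N (K : Bd) (h : K.CF) (i : ℕ) (f' : ℝ → ℝ)
    (hd : ∀ x, 0 < x → x < K.w → x ≠ K.r 0 → HasDerivWithinAt
      (fun c => (tc K.col c).Xl x ^ i / (tc K.col c).rl x - (tc K.col c).Xu x ^ i / (tc K.col c).ru x)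
      (f' x) (Ici 0) 0) :
    HasDerivWithinAt (fun c => (tc K.col c).N i) (∫ x in (0:ℝ)..K.w, f' x) (Ici 0) 0 := by
  obtain ⟨-, -, -, B, m, hm, hB0, hB⟩ := tc_rl K h
  obtain ⟨-, B', hB0', hB'⟩ := tc_X K h
  obtain ⟨P, hP0, hP⟩ := C2b_pow hB0' i
  have h01 : (0:ℝ) ∈ Icc (0:ℝ) 1 := ⟨le_rfl, zero_le_one⟩
  have key := deriv_int K.w h.hw.le
    (fun c x => (tc K.col c).Xl x ^ i / (tc K.col c).rl x - (tc K.col c).Xu x ^ i / (tc K.col c).ru x) f'
    ((P / m + B' ^ i * B / m ^ 2) + (P / m + B' ^ i * B / m ^ 2)) ?_ ?_ ?_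
  · exact key
  · intro c _
    obtain ⟨cl, cu⟩ := C2b_cont K h c
    exact ((((tc K.col c).Xl_cont cl).pow i).div ((tc K.col c).rl_cont cl)
      (fun x => ((tc K.col c).rl_pos x).ne') |>.sub
      ((((tc K.col c).Xu_cont cl cu).pow i).div ((tc K.col c).ru_cont cu)
      (fun x => ((tc K.col c).ru_pos x).ne'))).continuousOn
  · intro c hc x hx
    obtain ⟨a1, a2, a3, -, a5, -⟩ := hB c hc x hx
    obtain ⟨b1, b2, b3, b4⟩ := hB' c hc x hx
    obtain ⟨-, -, c3, -, c5, -⟩ := hB 0 h01 x hx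
    obtain ⟨-, -, d3, d4⟩ := hB' 0 h01 x hx
    have e1 := C2b_quot hm hc.1 hP0 (pow_nonneg hB0' i) hB0 (hP _ _ c hc.1 b3 d3 b1)
      (by rw [abs_pow]; exact pow_le_pow_left₀ (abs_nonneg _) d3 i) a1 a3 c3
    have e2 := C2b_quot hm hc.1 hP0 (pow_nonneg hB0' i) hB0 (hP _ _ c hc.1 b4 d4 b2)
      (by rw [abs_pow]; exact pow_le_pow_left₀ (abs_nonneg _) d4 i) a2 a5 c5
    rw [add_mul]
    refine le_trans ?_ (add_le_add e1 e2)
    have e3 : ∀ s t s0 t0 : ℝ, |s - t - (s0 - t0)| ≤ |s - s0| + |t - t0| := by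
      intro s t s0 t0
      have : s - t - (s0 - t0) = (s - s0) - (t - t0) := by ring
      rw [this]
      exact abs_sub _ _
    exact e3 _ _ _ _
  · filter_upwards [C2b_ne (K.r 0)] with x hx hxm
    exact hd x hxm.1 hxm.2 hx

theorem tc_zero (K : Bd) (h : K.CF) : (tc K.col 0).M = K.col.M ∧ (tc K.col 0).xb = K.col.xb ∧ ∀ i, (tc K.col 0).N i = K.col.N i := by
  obtain ⟨h1, h2, h3, -⟩ := C2b_congr K h
  exact ⟨h1, h2, h3⟩

/-- The first moments of the density. -/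
private theorem C2b_mu (K : Bd) (h : K.CF) (G : ℝ → ℝ) (hG : Continuous G) :
    HasDerivWithinAt (fun c => ∫ x in (0:ℝ)..K.w, G x * (tc K.col c).mu x)
      (- ∫ x in (0:ℝ)..K.r 0, G x * Real.exp (K.p * x)) (Ici 0) 0 := by
  obtain ⟨h1, h2, h3, B, m, hm, hB0, hB⟩ := tc_rl K h
  obtain ⟨hr0, hrw, -⟩ := C2b_side K h
  have h01 : (0:ℝ) ∈ Icc (0:ℝ) 1 := ⟨le_rfl, zero_le_one⟩
  have hq : K.q ≠ 0 := h.hq
  obtain ⟨C, hC⟩ := isCompact_Icc.exists_bound_of_continuousOn (hG.continuousOn (s := Icc 0 K.w))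
  have hC0 : 0 ≤ C := (norm_nonneg _).trans (hC 0 ⟨le_rfl, h.hw.le⟩)
  have e : (- ∫ x in (0:ℝ)..K.r 0, G x * Real.exp (K.p * x)) =
      ∫ x in (0:ℝ)..K.w, (if x < K.r 0 then -(G x * Real.exp (K.p * x)) else 0) := by
    have hc1 : Continuous fun x : ℝ => -(G x * Real.exp (K.p * x)) := by fun_prop
    rw [C2b_split hr0 hrw hc1 continuous_const, intervalIntegral.integral_neg,
      intervalIntegral.integral_zero, add_zero]
  rw [e]
  refine deriv_int K.w h.hw.le (fun c x => G x * (tc K.col c).mu x) _ (C * ((B + B) / |K.q|)) ?_ ?_ ?_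
  · intro c _
    obtain ⟨cl, cu⟩ := C2b_cont K h c
    exact (hG.mul ((tc K.col c).mu_cont cl cu)).continuousOn
  · intro c hc x hx
    obtain ⟨a1, a2, -⟩ := hB c hc x hx
    have e1 : G x * (tc K.col c).mu x - G x * (tc K.col 0).mu x =
        G x * ((((tc K.col c).ru x - (tc K.col 0).ru x) - ((tc K.col c).rl x - (tc K.col 0).rl x)) / K.q) := by
      change G x * (((tc K.col c).ru x - (tc K.col c).rl x) / K.q) -
        G x * (((tc K.col 0).ru x - (tc K.col 0).rl x) / K.q) = _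
      ring
    rw [e1, abs_mul, abs_div]
    have e2 : |((tc K.col c).ru x - (tc K.col 0).ru x) - ((tc K.col c).rl x - (tc K.col 0).rl x)| ≤
        (B + B) * c := by
      rw [add_mul]
      exact (abs_sub _ _).trans (add_le_add a2 a1)
    have e3 : |((tc K.col c).ru x - (tc K.col 0).ru x) - ((tc K.col c).rl x - (tc K.col 0).rl x)| / |K.q| ≤
        (B + B) * c / |K.q| := div_le_div_of_nonneg_right e2 (abs_nonneg _)
    calc |G x| * (|((tc K.col c).ru x - (tc K.col 0).ru x) - ((tc K.col c).rl x - (tc K.col 0).rl x)| / |K.q|)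
        ≤ C * ((B + B) * c / |K.q|) := mul_le_mul (hC x hx) e3 (by positivity) hC0
      _ = C * ((B + B) / |K.q|) * c := by ring
  · filter_upwards [C2b_ne (K.r 0)] with x hx hxm
    have d3 := h3 x hxm.1 hxm.2
    rcases lt_or_gt_of_ne hx with hlt | hgt
    · have d1 := h1 x hxm.1.le hlt
      have d := ((d3.sub d1).div_const K.q).const_mul (G x)
      rw [if_pos hlt]
      refine d.congr_deriv ?_
      field_simp
      ring
    · have d1 := h2 x hgt hxm.2.le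
      have d := ((d3.sub d1).div_const K.q).const_mul (G x)
      rw [if_neg (not_lt.2 hgt.le)]
      refine d.congr_deriv ?_
      simp

theorem tc_M (K : Bd) (h : K.CF) : HasDerivWithinAt (fun c => (tc K.col c).M) (- K.St) (Ici 0) 0 := by
  have h1 := C2b_mu K h (fun _ => 1) continuous_const
  simp only [one_mul] at h1
  rw [C2b_exp h.hp] at h1
  exact h1

theorem tc_xb (K : Bd) (h : K.CF) :
    HasDerivWithinAt (fun c => (tc K.col c).xb) (- ∫ x in (0:ℝ)..K.r 0, x * Real.exp (K.p * x)) (Ici 0) 0 :=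
  C2b_mu K h (fun x => x) continuous_id

/-- Pointwise derivative of the quotient. -/
private theorem C2b_dq {X R : ℝ → ℝ} {X' R' : ℝ} (i : ℕ) (hX : HasDerivWithinAt X X' (Ici 0) 0)
    (hR : HasDerivWithinAt R R' (Ici 0) 0) (h0 : R 0 ≠ 0) :
    HasDerivWithinAt (fun c => X c ^ i / R c)
      (((i : ℝ) * X 0 ^ (i - 1) * X' * R 0 - X 0 ^ i * R') / R 0 ^ 2) (Ici 0) 0 :=
  (hX.fun_pow i).fun_div hR h0

theorem tc_N0 (K : Bd) (h : K.CF) :
    HasDerivWithinAt (fun c => (tc K.col c).N 0) (- (K.q * ∫ x in (0:ℝ)..K.r 0, Real.exp (- (K.p * x)))) (Ici 0) 0 := by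
  obtain ⟨h1, h2, h3, -⟩ := tc_rl K h
  obtain ⟨hX, -⟩ := tc_X K h
  obtain ⟨hr0, hrw, hs⟩ := C2b_side K h
  obtain ⟨-, -, -, hv⟩ := C2b_congr K h
  have e : (- (K.q * ∫ x in (0:ℝ)..K.r 0, Real.exp (- (K.p * x)))) =
      ∫ x in (0:ℝ)..K.w, (if x < K.r 0 then -(K.q * Real.exp (- (K.p * x))) else 0) := by
    have hc1 : Continuous fun x : ℝ => -(K.q * Real.exp (- (K.p * x))) := by fun_prop
    rw [C2b_split hr0 hrw hc1 continuous_const, intervalIntegral.integral_neg,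
      intervalIntegral.integral_const_mul, intervalIntegral.integral_zero, add_zero]
  rw [e]
  refine C2b_N K h 0 _ fun x hx0 hxw hxn => ?_
  have hx : x ∈ Icc 0 K.w := ⟨hx0.le, hxw.le⟩
  obtain ⟨v1, v2, v3, v4⟩ := hv x hx
  have dX := hX x hx
  have d3 := h3 x hx0 hxw
  have du := C2b_dq 0 dX.2 d3 ((tc K.col 0).ru_pos x).ne'
  rcases lt_or_gt_of_ne hxn with hlt | hgt
  · have d1 := h1 x hx0.le hlt
    have dl := C2b_dq 0 dX.1 d1 ((tc K.col 0).rl_pos x).ne'
    rw [if_pos hlt]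
    refine (dl.sub du).congr_deriv ?_
    rw [v1, (hs x hx0.le hlt.le).1, Real.exp_neg]
    have := Real.exp_ne_zero (K.p * x)
    field_simp
    simp
  · have d1 := h2 x hgt hxw.le
    have dl := C2b_dq 0 dX.1 d1 ((tc K.col 0).rl_pos x).ne'
    rw [if_neg (not_lt.2 hgt.le)]
    refine (dl.sub du).congr_deriv ?_
    simp

/-- The loop integral, split at `r 0`. -/
private theorem C2b_N_split (K : Bd) (h : K.CF) (i : ℕ) :
    K.col.N i - (∫ x in (0:ℝ)..K.r 0, K.col.Xl x ^ i / K.col.rl x) =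
      (∫ x in (0:ℝ)..K.r 0, - (K.col.Xu x ^ i / K.col.ru x)) +
        ∫ x in K.r 0..K.w, (K.col.Xl x ^ i / K.col.rl x - K.col.Xu x ^ i / K.col.ru x) := by
  have cl : Continuous K.col.l := h.cl
  have cu : Continuous K.col.u := h.cu
  have c1 : Continuous fun x => K.col.Xl x ^ i / K.col.rl x :=
    ((K.col.Xl_cont cl).pow i).div (K.col.rl_cont cl) fun x => (K.col.rl_pos x).ne'
  have c2 : Continuous fun x => K.col.Xu x ^ i / K.col.ru x :=
    ((K.col.Xu_cont cl cu).pow i).div (K.col.ru_cont cu) fun x => (K.col.ru_pos x).ne'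
  have c3 : Continuous fun x => K.col.Xl x ^ i / K.col.rl x - K.col.Xu x ^ i / K.col.ru x := c1.sub c2
  have e1 : K.col.N i = (∫ x in (0:ℝ)..K.r 0, (K.col.Xl x ^ i / K.col.rl x - K.col.Xu x ^ i / K.col.ru x)) +
      ∫ x in K.r 0..K.w, (K.col.Xl x ^ i / K.col.rl x - K.col.Xu x ^ i / K.col.ru x) :=
    (intervalIntegral.integral_add_adjacent_intervals (c3.intervalIntegrable _ _)
      (c3.intervalIntegrable _ _)).symm
  rw [e1, intervalIntegral.integral_sub (c1.intervalIntegrable _ _) (c2.intervalIntegrable _ _),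
    intervalIntegral.integral_neg]
  ring

theorem tc_N1 (K : Bd) (h : K.CF) :
    HasDerivWithinAt (fun c => (tc K.col c).N 1)
      (K.q * K.St * (K.col.N 0 - ∫ x in (0:ℝ)..K.r 0, Real.exp (- (K.p * x)))) (Ici 0) 0 := by
  obtain ⟨h1, h2, h3, -⟩ := tc_rl K h
  obtain ⟨hX, -⟩ := tc_X K h
  obtain ⟨hr0, hrw, hs⟩ := C2b_side K h
  obtain ⟨-, -, -, hv⟩ := C2b_congr K h
  have cl : Continuous K.col.l := h.cl
  have cu : Continuous K.col.u := h.cu
  have cA : Continuous fun x => K.q * K.St * (-(K.col.Xu x ^ 0 / K.col.ru x)) :=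
    continuous_const.mul ((((K.col.Xu_cont cl cu).pow 0).div (K.col.ru_cont cu)
      fun x => (K.col.ru_pos x).ne').neg)
  have cB : Continuous fun x => K.q * K.St * (K.col.Xl x ^ 0 / K.col.rl x - K.col.Xu x ^ 0 / K.col.ru x) :=
    continuous_const.mul ((((K.col.Xl_cont cl).pow 0).div (K.col.rl_cont cl)
      fun x => (K.col.rl_pos x).ne').sub (((K.col.Xu_cont cl cu).pow 0).div (K.col.ru_cont cu)
      fun x => (K.col.ru_pos x).ne'))
  have e : K.q * K.St * (K.col.N 0 - ∫ x in (0:ℝ)..K.r 0, Real.exp (- (K.p * x))) =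
      ∫ x in (0:ℝ)..K.w, (if x < K.r 0 then K.q * K.St * (-(K.col.Xu x ^ 0 / K.col.ru x)) else
        K.q * K.St * (K.col.Xl x ^ 0 / K.col.rl x - K.col.Xu x ^ 0 / K.col.ru x)) := by
    rw [C2b_split hr0 hrw cA cB, intervalIntegral.integral_const_mul,
      intervalIntegral.integral_const_mul, ← mul_add, ← C2b_N_split K h 0]
    congr 2
    refine intervalIntegral.integral_congr fun x hx => ?_
    rw [uIcc_of_le hr0] at hx
    change Real.exp (-(K.p * x)) = K.col.Xl x ^ 0 / K.col.rl x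
    rw [(hs x hx.1 hx.2).1, Real.exp_neg, pow_zero, one_div]
  rw [e]
  refine C2b_N K h 1 _ fun x hx0 hxw hxn => ?_
  have hx : x ∈ Icc 0 K.w := ⟨hx0.le, hxw.le⟩
  obtain ⟨v1, v2, v3, v4⟩ := hv x hx
  have dX := hX x hx
  have d3 := h3 x hx0 hxw
  have du := C2b_dq 1 dX.2 d3 ((tc K.col 0).ru_pos x).ne'
  have hru := (K.col.ru_pos x).ne'
  have hrl := (K.col.rl_pos x).ne'
  rcases lt_or_gt_of_ne hxn with hlt | hgt
  · have d1 := h1 x hx0.le hlt
    have dl := C2b_dq 1 dX.1 d1 ((tc K.col 0).rl_pos x).ne'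
    rw [if_pos hlt]
    refine (dl.sub du).congr_deriv ?_
    rw [v1, v2, v3, v4, (hs x hx0.le hlt.le).1, (hs x hx0.le hlt.le).2, min_eq_left hlt.le]
    have := Real.exp_ne_zero (K.p * x)
    unfold Bd.St
    field_simp
    simp
    ring
  · have d1 := h2 x hgt hxw.le
    have dl := C2b_dq 1 dX.1 d1 ((tc K.col 0).rl_pos x).ne'
    rw [if_neg (not_lt.2 hgt.le)]
    refine (dl.sub du).congr_deriv ?_
    rw [v1, v2, v3, v4, min_eq_right hgt.le]
    unfold Bd.St
    field_simp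
    simp
    ring

theorem tc_N2 (K : Bd) (h : K.CF) :
    HasDerivWithinAt (fun c => (tc K.col c).N 2)
      (K.q * (∫ x in (0:ℝ)..K.r 0, ee K.p x ^ 2 * Real.exp (- (K.p * x))) +
        2 * K.q * K.St * (K.col.N 1 - ∫ x in (0:ℝ)..K.r 0, ee K.p x * Real.exp (- (K.p * x)))) (Ici 0) 0 := by
  obtain ⟨h1, h2, h3, -⟩ := tc_rl K h
  obtain ⟨hX, -⟩ := tc_X K h
  obtain ⟨hr0, hrw, hs⟩ := C2b_side K h
  obtain ⟨-, -, -, hv⟩ := C2b_congr K h
  have cl : Continuous K.col.l := h.cl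
  have cu : Continuous K.col.u := h.cu
  have ce : Continuous (ee K.p) := by
    unfold ee
    fun_prop
  have c0 : Continuous fun x : ℝ => K.q * (ee K.p x ^ 2 * Real.exp (- (K.p * x))) := by
    have : Continuous fun x : ℝ => Real.exp (- (K.p * x)) := by fun_prop
    exact continuous_const.mul ((ce.pow 2).mul this)
  have cA : Continuous fun x => 2 * K.q * K.St * (-(K.col.Xu x ^ 1 / K.col.ru x)) :=
    continuous_const.mul ((((K.col.Xu_cont cl cu).pow 1).div (K.col.ru_cont cu)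
      fun x => (K.col.ru_pos x).ne').neg)
  have cB : Continuous fun x => 2 * K.q * K.St * (K.col.Xl x ^ 1 / K.col.rl x - K.col.Xu x ^ 1 / K.col.ru x) :=
    continuous_const.mul ((((K.col.Xl_cont cl).pow 1).div (K.col.rl_cont cl)
      fun x => (K.col.rl_pos x).ne').sub (((K.col.Xu_cont cl cu).pow 1).div (K.col.ru_cont cu)
      fun x => (K.col.ru_pos x).ne'))
  have e : K.q * (∫ x in (0:ℝ)..K.r 0, ee K.p x ^ 2 * Real.exp (- (K.p * x))) +
        2 * K.q * K.St * (K.col.N 1 - ∫ x in (0:ℝ)..K.r 0, ee K.p x * Real.exp (- (K.p * x))) =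
      ∫ x in (0:ℝ)..K.w, (if x < K.r 0 then K.q * (ee K.p x ^ 2 * Real.exp (- (K.p * x))) +
          2 * K.q * K.St * (-(K.col.Xu x ^ 1 / K.col.ru x)) else
        2 * K.q * K.St * (K.col.Xl x ^ 1 / K.col.rl x - K.col.Xu x ^ 1 / K.col.ru x)) := by
    have e1 : (∫ x in (0:ℝ)..K.r 0, ee K.p x * Real.exp (- (K.p * x))) =
        ∫ x in (0:ℝ)..K.r 0, K.col.Xl x ^ 1 / K.col.rl x := by
      refine intervalIntegral.integral_congr fun x hx => ?_
      rw [uIcc_of_le hr0] at hx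
      change ee K.p x * Real.exp (-(K.p * x)) = K.col.Xl x ^ 1 / K.col.rl x
      rw [(hs x hx.1 hx.2).1, (hs x hx.1 hx.2).2, Real.exp_neg, pow_one, div_eq_mul_inv]
    have cS : Continuous fun x : ℝ => K.q * (ee K.p x ^ 2 * Real.exp (- (K.p * x))) +
        2 * K.q * K.St * (-(K.col.Xu x ^ 1 / K.col.ru x)) := c0.add cA
    rw [C2b_split hr0 hrw cS cB, intervalIntegral.integral_add (c0.intervalIntegrable _ _)
      (cA.intervalIntegrable _ _), intervalIntegral.integral_const_mul,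
      intervalIntegral.integral_const_mul, intervalIntegral.integral_const_mul, add_assoc,
      ← mul_add, ← C2b_N_split K h 1, e1]
  rw [e]
  refine C2b_N K h 2 _ fun x hx0 hxw hxn => ?_
  have hx : x ∈ Icc 0 K.w := ⟨hx0.le, hxw.le⟩
  obtain ⟨v1, v2, v3, v4⟩ := hv x hx
  have dX := hX x hx
  have d3 := h3 x hx0 hxw
  have du := C2b_dq 2 dX.2 d3 ((tc K.col 0).ru_pos x).ne'
  have hru := (K.col.ru_pos x).ne'
  have hrl := (K.col.rl_pos x).ne'
  rcases lt_or_gt_of_ne hxn with hlt | hgt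
  · have d1 := h1 x hx0.le hlt
    have dl := C2b_dq 2 dX.1 d1 ((tc K.col 0).rl_pos x).ne'
    rw [if_pos hlt]
    refine (dl.sub du).congr_deriv ?_
    rw [v1, v2, v3, v4, (hs x hx0.le hlt.le).1, (hs x hx0.le hlt.le).2, min_eq_left hlt.le,
      Real.exp_neg]
    have := Real.exp_ne_zero (K.p * x)
    unfold Bd.St
    push_cast
    field_simp
    ring
  · have d1 := h2 x hgt hxw.le
    have dl := C2b_dq 2 dX.1 d1 ((tc K.col 0).rl_pos x).ne'
    rw [if_neg (not_lt.2 hgt.le)]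
    refine (dl.sub du).congr_deriv ?_
    rw [v1, v2, v3, v4, min_eq_right hgt.le]
    unfold Bd.St
    push_cast
    field_simp
    ring

end Pool.Agent.Lib.MP_1dedaf_gt.DK
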