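import Pool.Agent.Lib.MP_1dedaf_gt.DK.Reg
import Pool.Agent.Lib.MP_1dedaf_gt.DK.A0
import Pool.Agent.Lib.MP_1dedaf_gt.Mg.G003
import Pool.Agent.Lib.MP_1dedaf_gt.DK.A3
import Pool.Agent.Lib.MP_1dedaf_gt.DK.A4
import Pool.Agent.Lib.MP_1dedaf_gt.DK.Goals

/-!
# TASK DK C3: moving the side `x = 0`: the derivative of the kernel

Proof. `nn K i a = ∫_a^w (Xl^i/rl - Xu^i/ru)`. `scut_scale`: for `0 ≤ a < x1` (`l = 0` on `[0, x1]`, `l ≥ 0`): the data of `K.cut a 0` are `l (a + x)`, `u (a + x)`, `w - a`; its densities are `e^{-p a} rl (a + x)`, `e^{-p a} ru (a + x)`, its `X`-functions are `e^{-p a} (Xl (a+x) - Xl a)`,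
`e^{-p a} (Xu (a+x) - Xl a)` (`Xu_eq`), `mr` is `e^{-p a} mr (a + x)`; so with `e = e^{-p a}`: `M = e mr a`, `xb = e ∫_a^w mr` (`xb_eq`), `N 0 = e⁻¹ nn 0`, `N 1 = nn 1 - Xl a nn 0`, `N 2 = e (nn 2 - 2 Xl a nn 1 + (Xl a)² nn 0)`; hence
`e^{p a} J (cut a 0) = (1/q) (-2 ∫_a^w mr + e mr a (nn 1 / nn 0 - Xl a) + (p/q)(nn 2 - (nn 1)²/nn 0))` (if `nn 0 ≠ 0`; the integrals over `[0, w-a]` become integrals over `[a, w]` by the shift). `s_move`: differentiate at `a = 0` (lower limits, all integrands continuous):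
with `y1 = u 0`, `Ss = (e^{q y1} - 1)/q`, `E = e^{-q y1} = 1/(1 + q Ss)`, `Xu 0 = - q M`: `(∫_a^w mr)' = - M`, `mr' = - mu 0 = - Ss`, `nn0' = - (1 - E) = - q Ss E`, `nn1' = Xu 0 E = - q M E`, `nn2' = (Xu 0)² E = q² M² E`, `Xl' = 1`, so the derivative is
`(1/q)[2 M - Ss a + M ((nn1' - a nn0')/N0 - 1) - p M a + (p/q)(nn2' - 2 a nn1' + a² nn0')]`, which equals `E (b - Ss)(a Ss - M)` by `N0 = q D`, `q b = M/D - 1 - p a - p q M` (`field_simp; ring`).
-/

set_option autoImplicit false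

open MeasureTheory Set Filter Topology

namespace Pool.Agent.Lib.MP_1dedaf_gt.DK

/-- The loop integrals of the part to the right of `a`. -/
noncomputable def nn (K : Dat) (i : ℕ) (a : ℝ) : ℝ := ∫ x in a..K.w, (K.Xl x ^ i / K.rl x - K.Xu x ^ i / K.ru x)

private theorem C3_ft {f : ℝ → ℝ} (hf : Continuous f) (w a : ℝ) :
    HasDerivAt (fun a => ∫ x in a..w, f x) (- f a) a := by
  have h1 : (fun a => ∫ x in a..w, f x) = fun x => - ∫ t in w..x, f t := by
    funext x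
    exact intervalIntegral.integral_symm _ _
  rw [h1]
  exact (hf.integral_hasStrictDerivAt w a).hasDerivAt.neg

private theorem C3_cont (K : Dat) (cl : Continuous K.l) (cu : Continuous K.u) (i : ℕ) :
    Continuous (fun x => K.Xl x ^ i / K.rl x - K.Xu x ^ i / K.ru x) :=
  (((K.Xl_cont cl).pow i).div (K.rl_cont cl) fun x => (K.rl_pos x).ne').sub
    (((K.Xu_cont cl cu).pow i).div (K.ru_cont cu) fun x => (K.ru_pos x).ne')

private theorem C3_nn_deriv (K : Dat) (cl : Continuous K.l) (cu : Continuous K.u) (i : ℕ) (a : ℝ) :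
    HasDerivAt (nn K i) (- (K.Xl a ^ i / K.rl a - K.Xu a ^ i / K.ru a)) a :=
  C3_ft (C3_cont K cl cu i) K.w a

/-- The shifted data. -/
private noncomputable def C3_sh (K : Dat) (a : ℝ) : Dat :=
  ⟨K.p, K.q, K.w - a, fun x => K.l (a + x), fun x => K.u (a + x)⟩

private theorem C3_rl (K : Dat) (a x : ℝ) :
    (C3_sh K a).rl x = Real.exp (-(K.p * a)) * K.rl (a + x) := by
  unfold Dat.rl C3_sh
  rw [← Real.exp_add]
  congr 1
  ring

private theorem C3_ru (K : Dat) (a x : ℝ) :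
    (C3_sh K a).ru x = Real.exp (-(K.p * a)) * K.ru (a + x) := by
  unfold Dat.ru C3_sh
  rw [← Real.exp_add]
  congr 1
  ring

private theorem C3_mu (K : Dat) (a x : ℝ) :
    (C3_sh K a).mu x = Real.exp (-(K.p * a)) * K.mu (a + x) := by
  unfold Dat.mu
  rw [C3_rl, C3_ru, ← mul_sub, mul_div_assoc]
  rfl

private theorem C3_Xl (K : Dat) (cl : Continuous K.l) (a x : ℝ) :
    (C3_sh K a).Xl x = Real.exp (-(K.p * a)) * (K.Xl (a + x) - K.Xl a) := by
  have h1 : (C3_sh K a).rl = fun x => Real.exp (-(K.p * a)) * K.rl (a + x) :=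
    funext fun x => C3_rl K a x
  unfold Dat.Xl
  rw [h1, intervalIntegral.integral_const_mul, intervalIntegral.integral_comp_add_left, add_zero,
    intervalIntegral.integral_interval_sub_left ((K.rl_cont cl).intervalIntegrable _ _)
      ((K.rl_cont cl).intervalIntegrable _ _)]

private theorem C3_mr (K : Dat) (a x : ℝ) :
    (C3_sh K a).mr x = Real.exp (-(K.p * a)) * K.mr (a + x) := by
  have h1 : (C3_sh K a).mu = fun x => Real.exp (-(K.p * a)) * K.mu (a + x) :=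
    funext fun x => C3_mu K a x
  have h2 : a + (C3_sh K a).w = K.w := by
    change a + (K.w - a) = K.w
    ring
  unfold Dat.mr
  rw [h1, intervalIntegral.integral_const_mul, intervalIntegral.integral_comp_add_left, h2]

private theorem C3_Xu (K : Dat) (cl : Continuous K.l) (a x : ℝ) :
    (C3_sh K a).Xu x = Real.exp (-(K.p * a)) * (K.Xu (a + x) - K.Xl a) := by
  unfold Dat.Xu
  rw [C3_Xl K cl, C3_mr]
  change _ - K.q * _ = _
  ring

private theorem C3_int (K : Dat) (a : ℝ) (f : ℝ → ℝ) :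
    ∫ x in (0:ℝ)..(C3_sh K a).w, f (a + x) = ∫ x in a..K.w, f x := by
  have h2 : a + (C3_sh K a).w = K.w := by
    change a + (K.w - a) = K.w
    ring
  rw [intervalIntegral.integral_comp_add_left, h2, add_zero]

private theorem C3_M (K : Dat) (a : ℝ) :
    (C3_sh K a).M = Real.exp (-(K.p * a)) * K.mr a := by
  rw [← (C3_sh K a).mr_zero, C3_mr, add_zero]

private theorem C3_xb (K : Dat) (cl : Continuous K.l) (cu : Continuous K.u) (a : ℝ) :
    (C3_sh K a).xb = Real.exp (-(K.p * a)) * ∫ x in a..K.w, K.mr x := by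
  have h0 : Continuous (C3_sh K a).l := cl.comp (continuous_const.add continuous_id)
  have h1 : Continuous (C3_sh K a).u := cu.comp (continuous_const.add continuous_id)
  have h2 : (C3_sh K a).mr = fun x => Real.exp (-(K.p * a)) * K.mr (a + x) :=
    funext fun x => C3_mr K a x
  rw [Dat.xb_eq _ h0 h1, h2, intervalIntegral.integral_const_mul, C3_int]

private theorem C3_N0 (K : Dat) (a : ℝ) :
    (C3_sh K a).N 0 = Real.exp (K.p * a) * nn K 0 a := by
  have e : Real.exp (K.p * a) * nn K 0 a = ∫ x in a..K.w,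
      Real.exp (K.p * a) * (K.Xl x ^ 0 / K.rl x - K.Xu x ^ 0 / K.ru x) := by
    unfold nn
    rw [← intervalIntegral.integral_const_mul]
  rw [e, ← C3_int K a (fun x => Real.exp (K.p * a) * (K.Xl x ^ 0 / K.rl x - K.Xu x ^ 0 / K.ru x))]
  unfold Dat.N
  refine intervalIntegral.integral_congr fun x _ => ?_
  have h1 := (K.rl_pos (a + x)).ne'
  have h2 := (K.ru_pos (a + x)).ne'
  simp only [C3_rl, C3_ru, pow_zero, Real.exp_neg]
  have h3 := (Real.exp_pos (K.p * a)).ne'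
  field_simp

private theorem C3_N1 (K : Dat) (cl : Continuous K.l) (cu : Continuous K.u) (a : ℝ) :
    (C3_sh K a).N 1 = nn K 1 a - K.Xl a * nn K 0 a := by
  have e : (nn K 1 a - K.Xl a * nn K 0 a) = ∫ x in a..K.w,
      ((K.Xl x ^ 1 / K.rl x - K.Xu x ^ 1 / K.ru x) -
        K.Xl a * (K.Xl x ^ 0 / K.rl x - K.Xu x ^ 0 / K.ru x)) := by
    have c1 := C3_cont K cl cu 1
    have c0 : Continuous fun x => K.Xl a * (K.Xl x ^ 0 / K.rl x - K.Xu x ^ 0 / K.ru x) :=
      continuous_const.mul (C3_cont K cl cu 0)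
    unfold nn
    rw [intervalIntegral.integral_sub (c1.intervalIntegrable _ _) (c0.intervalIntegrable _ _),
      intervalIntegral.integral_const_mul]
  rw [e, ← C3_int K a (fun x => (K.Xl x ^ 1 / K.rl x - K.Xu x ^ 1 / K.ru x) -
        K.Xl a * (K.Xl x ^ 0 / K.rl x - K.Xu x ^ 0 / K.ru x))]
  unfold Dat.N
  refine intervalIntegral.integral_congr fun x _ => ?_
  have h1 := (K.rl_pos (a + x)).ne'
  have h2 := (K.ru_pos (a + x)).ne'
  have h3 := (Real.exp_pos (-(K.p * a))).ne'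
  simp only [C3_rl, C3_ru, C3_Xl K cl, C3_Xu K cl, pow_zero, pow_one]
  rw [mul_div_mul_left _ _ h3, mul_div_mul_left _ _ h3]
  ring

private theorem C3_N2 (K : Dat) (cl : Continuous K.l) (cu : Continuous K.u) (a : ℝ) :
    (C3_sh K a).N 2 = Real.exp (-(K.p * a)) *
      (nn K 2 a - 2 * K.Xl a * nn K 1 a + K.Xl a ^ 2 * nn K 0 a) := by
  have e : (nn K 2 a - 2 * K.Xl a * nn K 1 a + K.Xl a ^ 2 * nn K 0 a) = ∫ x in a..K.w,
      (((K.Xl x ^ 2 / K.rl x - K.Xu x ^ 2 / K.ru x) -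
        2 * K.Xl a * (K.Xl x ^ 1 / K.rl x - K.Xu x ^ 1 / K.ru x)) +
        K.Xl a ^ 2 * (K.Xl x ^ 0 / K.rl x - K.Xu x ^ 0 / K.ru x)) := by
    have c2 := C3_cont K cl cu 2
    have c1 : Continuous fun x => 2 * K.Xl a * (K.Xl x ^ 1 / K.rl x - K.Xu x ^ 1 / K.ru x) :=
      continuous_const.mul (C3_cont K cl cu 1)
    have c0 : Continuous fun x => K.Xl a ^ 2 * (K.Xl x ^ 0 / K.rl x - K.Xu x ^ 0 / K.ru x) :=
      continuous_const.mul (C3_cont K cl cu 0)
    have c3 : Continuous fun x => (K.Xl x ^ 2 / K.rl x - K.Xu x ^ 2 / K.ru x) -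
        2 * K.Xl a * (K.Xl x ^ 1 / K.rl x - K.Xu x ^ 1 / K.ru x) := c2.sub c1
    unfold nn
    rw [intervalIntegral.integral_add (c3.intervalIntegrable _ _) (c0.intervalIntegrable _ _),
      intervalIntegral.integral_sub (c2.intervalIntegrable _ _) (c1.intervalIntegrable _ _),
      intervalIntegral.integral_const_mul, intervalIntegral.integral_const_mul]
  rw [e, ← C3_int K a (fun x => ((K.Xl x ^ 2 / K.rl x - K.Xu x ^ 2 / K.ru x) -
        2 * K.Xl a * (K.Xl x ^ 1 / K.rl x - K.Xu x ^ 1 / K.ru x)) +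
        K.Xl a ^ 2 * (K.Xl x ^ 0 / K.rl x - K.Xu x ^ 0 / K.ru x)),
    ← intervalIntegral.integral_const_mul]
  unfold Dat.N
  refine intervalIntegral.integral_congr fun x _ => ?_
  have h1 := (K.rl_pos (a + x)).ne'
  have h2 := (K.ru_pos (a + x)).ne'
  have h3 := (Real.exp_pos (-(K.p * a))).ne'
  simp only [C3_rl, C3_ru, C3_Xl K cl, C3_Xu K cl, pow_zero, pow_one, mul_pow]
  rw [pow_two (Real.exp (-(K.p * a))), mul_assoc, mul_assoc, mul_div_mul_left _ _ h3,
    mul_div_mul_left _ _ h3]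
  ring

theorem scut_scale (K : Dat) (h : K.Reg) (hl : ∀ x ∈ Icc 0 K.w, 0 ≤ K.l x) (a : ℝ) (ha : 0 ≤ a) (ha' : a ≤ K.w) (hn : nn K 0 a ≠ 0) :
    Real.exp (K.p * a) * (K.cut a 0).J =
    (-2 * (∫ x in a..K.w, K.mr x) + Real.exp (- (K.p * a)) * K.mr a * (nn K 1 a / nn K 0 a - K.Xl a) +
      K.p / K.q * (nn K 2 a - nn K 1 a ^ 2 / nn K 0 a)) / K.q := by
  have hcg := Dat.congr (C3_sh K a) (K.cut a 0) rfl rfl rfl (sub_nonneg.2 ha')
    (fun x hx => by
      change max (K.l (a + x)) 0 - 0 = K.l (a + x)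
      rw [sub_zero, max_eq_left (hl _ ⟨by linarith [hx.1], by
        have : x ≤ K.w - a := hx.2
        linarith⟩)])
    (fun x hx => by
      change max (K.u (a + x)) 0 - 0 = K.u (a + x)
      have hm : a + x ∈ Icc 0 K.w := ⟨by linarith [hx.1], by
        have : x ≤ K.w - a := hx.2
        linarith⟩
      rw [sub_zero, max_eq_left ((hl _ hm).trans (h.lu _ hm))])
  rw [hcg.2.2.2.2.2.2.1]
  have hJ : (C3_sh K a).J = (-2 * (C3_sh K a).xb + (C3_sh K a).M * (C3_sh K a).a +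
      K.p / K.q * (C3_sh K a).V) / K.q := rfl
  have hA : (C3_sh K a).a = (C3_sh K a).N 1 / (C3_sh K a).N 0 := rfl
  have hV : (C3_sh K a).V = (C3_sh K a).N 2 - (C3_sh K a).a * (C3_sh K a).N 1 := rfl
  rw [hJ, hV, hA, C3_xb K h.cl h.cu, C3_M, C3_N0, C3_N1 K h.cl h.cu, C3_N2 K h.cl h.cu,
    Real.exp_neg]
  have h3 := (Real.exp_pos (K.p * a)).ne'
  have hq := h.hq
  field_simp
  ring

theorem s_move (K : Bd) (h : K.CF) :
    HasDerivWithinAt (fun a => Real.exp (K.p * a) * (K.col.cut a 0).J)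
      ((K.col.b - K.Ss) * (K.col.a * K.Ss - K.col.M) / Real.exp (K.q * K.u 0)) (Ici 0) 0 := by
  obtain ⟨hl0, -, hu0, -, hl, -, -, -, -, -, hR, -, -⟩ := cf_facts K h
  have hN := Dat.N0_ne K.col hR
  have hq : K.q ≠ 0 := h.hq
  have cl : Continuous K.col.l := h.cl
  have cu : Continuous K.col.u := h.cu
  have hn0 : nn K.col 0 0 = K.col.N 0 := rfl
  have hn1 : nn K.col 1 0 = K.col.N 1 := rfl
  have hn2 : nn K.col 2 0 = K.col.N 2 := rfl
  have hrl : K.col.rl 0 = 1 := by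
    change Real.exp (K.p * 0 + K.q * K.l 0) = 1
    rw [hl0, mul_zero, mul_zero, add_zero, Real.exp_zero]
  have hru : K.col.ru 0 = Real.exp (K.q * K.u 0) := by
    change Real.exp (K.p * 0 + K.q * K.u 0) = _
    rw [mul_zero, zero_add]
  have hS : K.Ss = (Real.exp (K.q * K.u 0) - 1) / K.q := rfl
  have hmu : K.col.mu 0 = K.Ss := by
    change (K.col.ru 0 - K.col.rl 0) / K.q = _
    rw [hrl, hru, hS]
  -- the derivatives of the parts
  have d0 := C3_nn_deriv K.col cl cu 0 0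
  have d1 := C3_nn_deriv K.col cl cu 1 0
  have d2 := C3_nn_deriv K.col cl cu 2 0
  have dm := K.col.mr_deriv cl cu 0
  have dX := K.col.Xl_deriv cl 0
  have dI : HasDerivAt (fun a => ∫ x in a..K.col.w, K.col.mr x) (- K.col.mr 0) 0 :=
    C3_ft (K.col.mr_cont cl cu) K.col.w 0
  have de : HasDerivAt (fun a : ℝ => Real.exp (-(K.col.p * a)))
      (Real.exp (-(K.col.p * 0)) * (-(K.col.p * 1))) 0 :=
    ((hasDerivAt_id (0:ℝ)).const_mul K.col.p).neg.exp
  have hF := ((((dI.const_mul (-2 : ℝ)).add ((de.mul dm).mul ((d1.div d0 (by rw [hn0]; exact hN)).sub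
    dX))).add ((d2.sub ((d1.pow 2).div d0 (by rw [hn0]; exact hN))).const_mul
      (K.col.p / K.col.q))).div_const K.col.q)
  -- the function near zero
  have hcont : ContinuousAt (nn K.col 0) 0 := d0.continuousAt
  have hev : ∀ᶠ a in 𝓝[Ici 0] (0:ℝ), nn K.col 0 a ≠ 0 :=
    nhdsWithin_le_nhds (hcont.eventually_ne (by rw [hn0]; exact hN))
  have hev2 : ∀ᶠ a in 𝓝[Ici 0] (0:ℝ), a < K.col.w :=
    nhdsWithin_le_nhds (gt_mem_nhds hR.hw)
  have hev3 : ∀ᶠ a in 𝓝[Ici 0] (0:ℝ), a ∈ Ici (0:ℝ) := self_mem_nhdsWithin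
  have heq : (fun a => Real.exp (K.p * a) * (K.col.cut a 0).J) =ᶠ[𝓝[Ici 0] 0]
      fun a => (-2 * (∫ x in a..K.col.w, K.col.mr x) + Real.exp (- (K.col.p * a)) * K.col.mr a *
        (nn K.col 1 a / nn K.col 0 a - K.col.Xl a) + K.col.p / K.col.q * (nn K.col 2 a -
        nn K.col 1 a ^ 2 / nn K.col 0 a)) / K.col.q := by
    filter_upwards [hev, hev2, hev3] with a h1 h2 h3
    exact scut_scale K.col hR hl a h3 h2.le h1
  have heq0 : Real.exp (K.p * 0) * (K.col.cut 0 0).J =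
      (-2 * (∫ x in (0:ℝ)..K.col.w, K.col.mr x) + Real.exp (- (K.col.p * 0)) * K.col.mr 0 *
        (nn K.col 1 0 / nn K.col 0 0 - K.col.Xl 0) + K.col.p / K.col.q * (nn K.col 2 0 -
        nn K.col 1 0 ^ 2 / nn K.col 0 0)) / K.col.q :=
    scut_scale K.col hR hl 0 le_rfl hR.hw.le (by rw [hn0]; exact hN)
  have hF' := (hF.hasDerivWithinAt (s := Ici 0)).congr_of_eventuallyEq heq heq0
  refine hF'.congr_deriv ?_
  have hD : K.col.D = K.col.N 0 / K.q := rfl
  have hb : K.col.b = (K.col.M / K.col.D - 1 - K.p * K.col.a - K.p * K.q * K.col.M) / K.q := rfl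
  have ha : K.col.a = K.col.N 1 / K.col.N 0 := rfl
  have hp' : K.col.p = K.p := rfl
  have hq' : K.col.q = K.q := rfl
  have hR2 : Real.exp (K.q * K.u 0) ≠ 0 := (Real.exp_pos _).ne'
  rw [hb, hD, ha]
  simp only [hrl, hru, hmu, K.col.Xl_zero, K.col.Xu_zero, K.col.mr_zero, hn0, hn1, hp', hq', hS,
    mul_zero, neg_zero, Real.exp_zero, pow_zero, pow_one, Pi.pow_apply, Pi.mul_apply, Pi.div_apply,
    Pi.sub_apply, Nat.cast_ofNat, show (2 - 1 : ℕ) = 1 from rfl]
  generalize Real.exp (K.q * K.u 0) = R at hR2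
  generalize K.col.N 1 = n1
  generalize K.col.M = m
  generalize K.col.N 0 = n0 at hN
  generalize K.q = q at hq
  generalize K.p = p
  field_simp
  ring

end Pool.Agent.Lib.MP_1dedaf_gt.DK
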