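import Pool.Agent.Lib.MP_1dedaf_gt.DK.Reg
import Pool.Agent.Lib.MP_1dedaf_gt.DK.A0
import Pool.Agent.Lib.MP_1dedaf_gt.Mg.G003
import Pool.Agent.Lib.MP_1dedaf_gt.DK.A3
import Pool.Agent.Lib.MP_1dedaf_gt.DK.A4
import Pool.Agent.Lib.MP_1dedaf_gt.DK.Goals

/-!
# TASK DK C4: the kernel of the cut bodies depends continuously on the corner

`F z = exp (p z.1 + q z.2) * J (cut z.1 z.2)` for `z` in the compact set `S = {z | K.mem z.1 z.2}`. Proof. `cut_cont`: the densities of `cut a c` are jointly continuous in `(a, c, x)`, so are `Xl`, `mr`, `Xu`, and the moments `M`, `xb`, `N i` are continuous in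
`(a, c) ∈ ℝ²` (`intervalIntegral.continuous_parametric_intervalIntegral_of_continuous`, with the continuous upper limit `w - a`). `cut_bound`: on the compact set all densities lie in `[m, B]`, `0 < m`. For `z ∈ S`: `l ≤ u` for the cut
data on `[0, w - a]`; with `D = N 0 / q = ∫ (1/rl - 1/ru)/q ≥ 0`: `mu ≤ B² (1/rl - 1/ru)/q`, so `0 ≤ M ≤ B² D`, `0 ≤ xb ≤ w M`; `|N 1| ≤ C |q| D` by `N1_eq` (`|Xu| ≤ C`, `mr/rl ≤ mr/m`, `∫ mr = xb`), `|N 2| ≤ C D` in the same way
(`Xl²/rl - Xu²/ru = Xl² (1/rl - 1/ru) + (Xl - Xu)(Xl + Xu)/ru`, `Xl - Xu = q mr`). If `D > 0` then `|a| = |N 1/N 0| ≤ C`, so `|J| ≤ C' D`; if `D = 0` then `N 0 = 0`, `a = 0`, `xb = 0`, `N 2 = 0` and `J = 0`. `F_cont`: at points with `D ≠ 0` `J` is a continuous function of the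
moments, at points with `D = 0` use the bound and the continuity of `D`. (`N1_eq` and `N0` etc. need `Continuous l`, not `Reg`.) `F_min`: compactness.
-/

set_option autoImplicit false

open MeasureTheory Set Filter Topology

namespace Pool.Agent.Lib.MP_1dedaf_gt.DK

section C4

private theorem C4_rl (K : Dat) (cl : Continuous K.l) :
    Continuous (fun y : (ℝ × ℝ) × ℝ => (K.cut y.1.1 y.1.2).rl y.2) := by
  have h1 : Continuous (fun y : (ℝ × ℝ) × ℝ => K.l (y.1.1 + y.2)) := cl.comp (by fun_prop)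
  have h2 : Continuous (fun y : (ℝ × ℝ) × ℝ => max (K.l (y.1.1 + y.2)) y.1.2 - y.1.2) :=
    (h1.max (by fun_prop)).sub (by fun_prop)
  have h3 : Continuous (fun y : (ℝ × ℝ) × ℝ => K.p * y.2 + K.q * (max (K.l (y.1.1 + y.2)) y.1.2 - y.1.2)) :=
    (continuous_const.mul continuous_snd).add (continuous_const.mul h2)
  exact Real.continuous_exp.comp h3

private theorem C4_ru (K : Dat) (cu : Continuous K.u) :
    Continuous (fun y : (ℝ × ℝ) × ℝ => (K.cut y.1.1 y.1.2).ru y.2) := by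
  have h1 : Continuous (fun y : (ℝ × ℝ) × ℝ => K.u (y.1.1 + y.2)) := cu.comp (by fun_prop)
  have h2 : Continuous (fun y : (ℝ × ℝ) × ℝ => max (K.u (y.1.1 + y.2)) y.1.2 - y.1.2) :=
    (h1.max (by fun_prop)).sub (by fun_prop)
  have h3 : Continuous (fun y : (ℝ × ℝ) × ℝ => K.p * y.2 + K.q * (max (K.u (y.1.1 + y.2)) y.1.2 - y.1.2)) :=
    (continuous_const.mul continuous_snd).add (continuous_const.mul h2)
  exact Real.continuous_exp.comp h3

private theorem C4_mu (K : Dat) (cl : Continuous K.l) (cu : Continuous K.u) :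
    Continuous (fun y : (ℝ × ℝ) × ℝ => (K.cut y.1.1 y.1.2).mu y.2) :=
  ((C4_ru K cu).sub (C4_rl K cl)).div_const _

/-- integrals with a moving upper limit -/
private theorem C4_par {X : Type*} [TopologicalSpace X] [FirstCountableTopology X]
    (f : (ℝ × ℝ) × ℝ → ℝ) (hf : Continuous f) (z : X → ℝ × ℝ) (hz : Continuous z)
    (s : X → ℝ) (hs : Continuous s) :
    Continuous (fun x : X => ∫ t in (0:ℝ)..s x, f (z x, t)) := by
  refine intervalIntegral.continuous_parametric_intervalIntegral_of_continuous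
    (f := fun x t => f (z x, t)) ?_ hs
  exact hf.comp (((hz.comp continuous_fst)).prodMk continuous_snd)

private theorem C4_M (K : Dat) (cl : Continuous K.l) (cu : Continuous K.u) :
    Continuous (fun z : ℝ × ℝ => (K.cut z.1 z.2).M) :=
  C4_par (X := ℝ × ℝ) _ (C4_mu K cl cu) (fun z => z) continuous_id (fun z => K.w - z.1) (by fun_prop)

private theorem C4_Xl (K : Dat) (cl : Continuous K.l) :
    Continuous (fun y : (ℝ × ℝ) × ℝ => (K.cut y.1.1 y.1.2).Xl y.2) :=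
  C4_par (X := (ℝ × ℝ) × ℝ) _ (C4_rl K cl) (fun y => y.1) continuous_fst (fun y => y.2) continuous_snd

private theorem C4_cl (K : Dat) (cl : Continuous K.l) (a c : ℝ) : Continuous (K.cut a c).l := by
  have h1 : Continuous (fun x : ℝ => K.l (a + x)) := cl.comp (by fun_prop)
  exact (h1.max continuous_const).sub continuous_const

private theorem C4_cu (K : Dat) (cu : Continuous K.u) (a c : ℝ) : Continuous (K.cut a c).u := by
  have h1 : Continuous (fun x : ℝ => K.u (a + x)) := cu.comp (by fun_prop)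
  exact (h1.max continuous_const).sub continuous_const

private theorem C4_mr (K : Dat) (cl : Continuous K.l) (cu : Continuous K.u) :
    Continuous (fun y : (ℝ × ℝ) × ℝ => (K.cut y.1.1 y.1.2).mr y.2) := by
  have h1 : Continuous (fun y : (ℝ × ℝ) × ℝ => (K.cut y.1.1 y.1.2).M) :=
    (C4_M K cl cu).comp continuous_fst
  have h2 : Continuous (fun y : (ℝ × ℝ) × ℝ => ∫ t in (0:ℝ)..y.2, (K.cut y.1.1 y.1.2).mu t) :=
    C4_par (X := (ℝ × ℝ) × ℝ) _ (C4_mu K cl cu) (fun y => y.1) continuous_fst (fun y => y.2) continuous_snd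
  refine (h1.sub h2).congr fun y => ?_
  have hi : ∀ s t : ℝ, IntervalIntegrable (K.cut y.1.1 y.1.2).mu volume s t := fun s t =>
    ((K.cut y.1.1 y.1.2).mu_cont (C4_cl K cl _ _) (C4_cu K cu _ _)).intervalIntegrable _ _
  have h3 := intervalIntegral.integral_add_adjacent_intervals (hi 0 y.2) (hi y.2 (K.cut y.1.1 y.1.2).w)
  show (K.cut y.1.1 y.1.2).M - (∫ t in (0:ℝ)..y.2, (K.cut y.1.1 y.1.2).mu t) = (K.cut y.1.1 y.1.2).mr y.2
  unfold Dat.M Dat.mr
  linarith

private theorem C4_Xu (K : Dat) (cl : Continuous K.l) (cu : Continuous K.u) :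
    Continuous (fun y : (ℝ × ℝ) × ℝ => (K.cut y.1.1 y.1.2).Xu y.2) :=
  (C4_Xl K cl).sub (continuous_const.mul (C4_mr K cl cu))

end C4

theorem cut_cont (K : Dat) (cl : Continuous K.l) (cu : Continuous K.u) :
    Continuous (fun z : ℝ × ℝ => (K.cut z.1 z.2).M) ∧ Continuous (fun z : ℝ × ℝ => (K.cut z.1 z.2).xb) ∧
    ∀ i, Continuous (fun z : ℝ × ℝ => (K.cut z.1 z.2).N i) := by
  refine ⟨C4_M K cl cu, ?_, fun i => ?_⟩
  · exact C4_par (X := ℝ × ℝ) (fun y => y.2 * (K.cut y.1.1 y.1.2).mu y.2)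
      (continuous_snd.mul (C4_mu K cl cu)) (fun z => z) continuous_id (fun z => K.w - z.1) (by fun_prop)
  · exact C4_par (X := ℝ × ℝ) (fun y => (K.cut y.1.1 y.1.2).Xl y.2 ^ i / (K.cut y.1.1 y.1.2).rl y.2 -
        (K.cut y.1.1 y.1.2).Xu y.2 ^ i / (K.cut y.1.1 y.1.2).ru y.2)
      ((((C4_Xl K cl).pow i).div (C4_rl K cl) fun y => ((K.cut y.1.1 y.1.2).rl_pos y.2).ne').sub
        (((C4_Xu K cl cu).pow i).div (C4_ru K cu) fun y => ((K.cut y.1.1 y.1.2).ru_pos y.2).ne'))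
      (fun z => z) continuous_id (fun z => K.w - z.1) (by fun_prop)

private theorem C4_compact (K : Bd) (h : K.CF) : IsCompact {z : ℝ × ℝ | K.mem z.1 z.2} := by
  have hcl : IsClosed {z : ℝ × ℝ | K.mem z.1 z.2} := by
    have h1 : {z : ℝ × ℝ | K.mem z.1 z.2} =
        {z : ℝ × ℝ | 0 ≤ z.1} ∩ ({z | z.1 ≤ K.w} ∩ ({z | K.l z.1 ≤ z.2} ∩ {z | z.2 ≤ K.u z.1})) := by
      ext z
      rfl
    rw [h1]
    exact (isClosed_le continuous_const continuous_fst).inter
      ((isClosed_le continuous_fst continuous_const).inter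
        ((isClosed_le (h.cl.comp continuous_fst) continuous_snd).inter
          (isClosed_le continuous_snd (h.cu.comp continuous_fst))))
  refine IsCompact.of_isClosed_subset (isCompact_Icc.prod isCompact_Icc :
    IsCompact (Icc (0:ℝ) K.w ×ˢ Icc (0:ℝ) K.h)) hcl ?_
  intro z hz
  have h2 := (h.iff z.1 z.2).1 hz
  exact ⟨⟨hz.1, hz.2.1⟩, ⟨h2.1, h2.2.1⟩⟩

private theorem C4_bd {S : Set (ℝ × ℝ)} (hS : IsCompact S) (w : ℝ) {f : (ℝ × ℝ) × ℝ → ℝ}
    (hf : Continuous f) : ∃ C : ℝ, ∀ z ∈ S, ∀ x ∈ Icc 0 w, |f (z, x)| ≤ C := by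
  obtain ⟨C, hC⟩ := (hS.prod (isCompact_Icc (a := (0:ℝ)) (b := w))).exists_bound_of_continuousOn
    hf.continuousOn
  exact ⟨C, fun z hz x hx => by
    have := hC (z, x) ⟨hz, hx⟩
    rwa [Real.norm_eq_abs] at this⟩

private theorem C4_dens (K : Dat) (x : ℝ) :
    1 / K.rl x - 1 / K.ru x = (K.ru x - K.rl x) / (K.rl x * K.ru x) := by
  have h1 := (K.rl_pos x).ne'
  have h2 := (K.ru_pos x).ne'
  field_simp

/-- the bounds for one data, with bounds for its functions -/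
private theorem C4_one (K : Dat) (hq : K.q ≠ 0) (hw : 0 ≤ K.w) (cl : Continuous K.l) (cu : Continuous K.u)
    (lu : ∀ x ∈ Icc 0 K.w, K.l x ≤ K.u x) (C W : ℝ) (hC : 0 ≤ C) (hW : K.w ≤ W)
    (b1 : ∀ x ∈ Icc 0 K.w, K.rl x ≤ C) (b2 : ∀ x ∈ Icc 0 K.w, K.ru x ≤ C)
    (b3 : ∀ x ∈ Icc 0 K.w, 1 / K.rl x ≤ C) (b4 : ∀ x ∈ Icc 0 K.w, 1 / K.ru x ≤ C)
    (b5 : ∀ x ∈ Icc 0 K.w, |K.Xl x| ≤ C) (b6 : ∀ x ∈ Icc 0 K.w, |K.Xu x| ≤ C) :
    0 ≤ K.D ∧ K.N 0 = K.q * K.D ∧ |K.M| ≤ C ^ 2 * K.D ∧ |K.xb| ≤ W * C ^ 2 * K.D ∧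
      |K.N 1| ≤ |K.q| * (C + C * (W * C ^ 2)) * K.D ∧
      |K.N 2| ≤ |K.q| * (C ^ 2 + 2 * C ^ 2 * (W * C ^ 2)) * K.D := by
  have hmu : ∀ x ∈ Icc 0 K.w, 0 ≤ K.mu x := by
    intro x hx
    rcases (lu x hx).lt_or_eq with h1 | h1
    · exact (K.A1_mu_pos hq x h1).le
    · unfold Dat.mu Dat.rl Dat.ru
      rw [h1]
      simp
  have cmu := K.mu_cont cl cu
  have crl := K.rl_cont cl
  have cru := K.ru_cont cu
  have cXl := K.Xl_cont cl
  have cXu := K.Xu_cont cl cu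
  have cmr := K.mr_cont cl cu
  have hmr : ∀ x ∈ Icc 0 K.w, 0 ≤ K.mr x := by
    intro x hx
    exact intervalIntegral.integral_nonneg hx.2 (fun t ht => hmu t ⟨hx.1.trans ht.1, ht.2⟩)
  have prr : ∀ x, 0 < K.rl x * K.ru x := fun x => mul_pos (K.rl_pos x) (K.ru_pos x)
  set d : ℝ → ℝ := fun x => K.mu x / (K.rl x * K.ru x) with hd
  have cd : Continuous d := cmu.div (crl.mul cru) fun x => (prr x).ne'
  have hD : K.D = ∫ x in (0:ℝ)..K.w, d x := K.A1_D_eq hq
  have hd0 : ∀ x ∈ Icc 0 K.w, 0 ≤ d x := fun x hx => div_nonneg (hmu x hx) (prr x).le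
  have hD0 : 0 ≤ K.D := by
    rw [hD]
    exact intervalIntegral.integral_nonneg hw hd0
  have hN0 : K.N 0 = K.q * K.D := by rw [hD, K.A1_N0_eq hq]
  have hmud : ∀ x ∈ Icc 0 K.w, K.mu x ≤ C ^ 2 * d x := by
    intro x hx
    have h1 : K.mu x = (K.rl x * K.ru x) * d x := by
      show K.mu x = (K.rl x * K.ru x) * (K.mu x / (K.rl x * K.ru x))
      rw [mul_comm, div_mul_cancel₀ _ (prr x).ne']
    rw [h1]
    refine mul_le_mul_of_nonneg_right ?_ (hd0 x hx)
    rw [sq]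
    exact mul_le_mul (b1 x hx) (b2 x hx) (K.ru_pos x).le hC
  have ii : ∀ {f : ℝ → ℝ}, Continuous f → IntervalIntegrable f volume 0 K.w :=
    fun hf => hf.intervalIntegrable _ _
  have hM0 : 0 ≤ K.M := intervalIntegral.integral_nonneg hw hmu
  have hM : K.M ≤ C ^ 2 * K.D := by
    rw [hD, ← intervalIntegral.integral_const_mul]
    exact intervalIntegral.integral_mono_on hw (ii cmu) (ii (continuous_const.mul cd)) hmud
  have hx0 : 0 ≤ K.xb := intervalIntegral.integral_nonneg hw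
    (fun x hx => mul_nonneg hx.1 (hmu x hx))
  have hW0 : 0 ≤ W := hw.trans hW
  have hxb : K.xb ≤ W * C ^ 2 * K.D := by
    rw [hD, ← intervalIntegral.integral_const_mul]
    refine intervalIntegral.integral_mono_on hw (ii (continuous_id.mul cmu))
      (ii (continuous_const.mul cd)) fun x hx => ?_
    calc x * K.mu x ≤ W * K.mu x := mul_le_mul_of_nonneg_right (hx.2.trans hW) (hmu x hx)
      _ ≤ W * (C ^ 2 * d x) := mul_le_mul_of_nonneg_left (hmud x hx) hW0
      _ = W * C ^ 2 * d x := by ring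
  have hxb' := K.xb_eq cl cu
  -- an integral of mr times a bounded function
  have key : ∀ (f : ℝ → ℝ) (B : ℝ), Continuous f → 0 ≤ B → (∀ x ∈ Icc 0 K.w, |f x| ≤ B) →
      |∫ x in (0:ℝ)..K.w, f x * K.mr x| ≤ B * (W * C ^ 2 * K.D) := by
    intro f B hf hB hfb
    calc |∫ x in (0:ℝ)..K.w, f x * K.mr x| ≤ ∫ x in (0:ℝ)..K.w, |f x * K.mr x| :=
          intervalIntegral.abs_integral_le_integral_abs hw
      _ ≤ ∫ x in (0:ℝ)..K.w, B * K.mr x := by
          refine intervalIntegral.integral_mono_on hw (ii (hf.mul cmr).abs)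
            (ii (continuous_const.mul cmr)) fun x hx => ?_
          rw [abs_mul, abs_of_nonneg (hmr x hx)]
          exact mul_le_mul_of_nonneg_right (hfb x hx) (hmr x hx)
      _ = B * K.xb := by rw [intervalIntegral.integral_const_mul, hxb']
      _ ≤ B * (W * C ^ 2 * K.D) := mul_le_mul_of_nonneg_left hxb hB
  have key2 : ∀ (f : ℝ → ℝ) (B : ℝ), Continuous f → 0 ≤ B → (∀ x ∈ Icc 0 K.w, |f x| ≤ B) →
      |∫ x in (0:ℝ)..K.w, f x * d x| ≤ B * K.D := by
    intro f B hf hB hfb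
    calc |∫ x in (0:ℝ)..K.w, f x * d x| ≤ ∫ x in (0:ℝ)..K.w, |f x * d x| :=
          intervalIntegral.abs_integral_le_integral_abs hw
      _ ≤ ∫ x in (0:ℝ)..K.w, B * d x := by
          refine intervalIntegral.integral_mono_on hw (ii (hf.mul cd).abs)
            (ii (continuous_const.mul cd)) fun x hx => ?_
          rw [abs_mul, abs_of_nonneg (hd0 x hx)]
          exact mul_le_mul_of_nonneg_right (hfb x hx) (hd0 x hx)
      _ = B * K.D := by rw [intervalIntegral.integral_const_mul, hD]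
  have hdd : ∀ x, 1 / K.rl x - 1 / K.ru x = K.q * d x := by
    intro x
    rw [C4_dens, hd]
    show _ = K.q * ((K.ru x - K.rl x) / K.q / (K.rl x * K.ru x))
    have := (prr x).ne'
    field_simp
  have crl' : Continuous (fun x => 1 / K.rl x) := continuous_const.div crl fun x => (K.rl_pos x).ne'
  have cru' : Continuous (fun x => 1 / K.ru x) := continuous_const.div cru fun x => (K.ru_pos x).ne'
  refine ⟨hD0, hN0, ?_, ?_, ?_, ?_⟩
  · rw [abs_of_nonneg hM0]
    exact hM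
  · rw [abs_of_nonneg hx0]
    exact hxb
  · have h1 : K.N 1 = K.q * ((∫ x in (0:ℝ)..K.w, K.Xu x * d x) + ∫ x in (0:ℝ)..K.w, (1 / K.rl x) * K.mr x) := by
      rw [K.N1_eq cl cu, mul_add, ← intervalIntegral.integral_const_mul K.q (fun x => K.Xu x * d x)]
      congr 1
      · refine intervalIntegral.integral_congr fun x _ => ?_
        show K.Xu x * (1 / K.rl x - 1 / K.ru x) = K.q * (K.Xu x * d x)
        rw [hdd x]
        ring
      · congr 1
        refine intervalIntegral.integral_congr fun x _ => ?_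
        show K.mr x / K.rl x = 1 / K.rl x * K.mr x
        ring
    have h2 := key2 K.Xu C cXu hC b6
    have h3 := key (fun x => 1 / K.rl x) C crl' hC (fun x hx => by
      rw [abs_of_pos (one_div_pos.2 (K.rl_pos x))]
      exact b3 x hx)
    rw [h1, abs_mul]
    calc |K.q| * |(∫ x in (0:ℝ)..K.w, K.Xu x * d x) + ∫ x in (0:ℝ)..K.w, (1 / K.rl x) * K.mr x|
        ≤ |K.q| * (C * K.D + C * (W * C ^ 2 * K.D)) :=
          mul_le_mul_of_nonneg_left ((abs_add_le _ _).trans (add_le_add h2 h3)) (abs_nonneg _)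
      _ = |K.q| * (C + C * (W * C ^ 2)) * K.D := by ring
  · have h1 : K.N 2 = K.q * ((∫ x in (0:ℝ)..K.w, K.Xl x ^ 2 * d x) +
        ∫ x in (0:ℝ)..K.w, ((K.Xl x + K.Xu x) * (1 / K.ru x)) * K.mr x) := by
      have c1 : Continuous (fun x => K.Xl x ^ 2 * d x) := (cXl.pow 2).mul cd
      have c2 : Continuous (fun x => ((K.Xl x + K.Xu x) * (1 / K.ru x)) * K.mr x) :=
        ((cXl.add cXu).mul cru').mul cmr
      rw [← intervalIntegral.integral_add (ii c1) (ii c2), ← intervalIntegral.integral_const_mul]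
      unfold Dat.N
      refine intervalIntegral.integral_congr fun x _ => ?_
      show K.Xl x ^ 2 / K.rl x - K.Xu x ^ 2 / K.ru x =
        K.q * (K.Xl x ^ 2 * d x + ((K.Xl x + K.Xu x) * (1 / K.ru x)) * K.mr x)
      have e1 : K.q * (K.Xl x ^ 2 * d x + ((K.Xl x + K.Xu x) * (1 / K.ru x)) * K.mr x) =
          K.Xl x ^ 2 * (K.q * d x) + (K.Xl x + K.Xu x) * (1 / K.ru x) * (K.q * K.mr x) := by ring
      have e2 : K.q * K.mr x = K.Xl x - K.Xu x := by
        unfold Dat.Xu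
        ring
      rw [e1, ← hdd x, e2]
      ring
    have h2 := key2 (fun x => K.Xl x ^ 2) (C ^ 2) (cXl.pow 2) (by positivity) (fun x hx => by
      rw [abs_pow]
      exact pow_le_pow_left₀ (abs_nonneg _) (b5 x hx) 2)
    have h3 := key (fun x => (K.Xl x + K.Xu x) * (1 / K.ru x)) (2 * C ^ 2) ((cXl.add cXu).mul cru')
      (by positivity) (fun x hx => by
        rw [abs_mul, abs_of_pos (one_div_pos.2 (K.ru_pos x))]
        have h4 : |K.Xl x + K.Xu x| ≤ 2 * C := (abs_add_le _ _).trans (by linarith [b5 x hx, b6 x hx])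
        calc |K.Xl x + K.Xu x| * (1 / K.ru x) ≤ (2 * C) * C :=
              mul_le_mul h4 (b4 x hx) (one_div_pos.2 (K.ru_pos x)).le (by positivity)
          _ = 2 * C ^ 2 := by ring)
    rw [h1, abs_mul]
    calc |K.q| * |(∫ x in (0:ℝ)..K.w, K.Xl x ^ 2 * d x) +
          ∫ x in (0:ℝ)..K.w, ((K.Xl x + K.Xu x) * (1 / K.ru x)) * K.mr x|
        ≤ |K.q| * (C ^ 2 * K.D + 2 * C ^ 2 * (W * C ^ 2 * K.D)) :=
          mul_le_mul_of_nonneg_left ((abs_add_le _ _).trans (add_le_add h2 h3)) (abs_nonneg _)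
      _ = |K.q| * (C ^ 2 + 2 * C ^ 2 * (W * C ^ 2)) * K.D := by ring

private theorem C4_J (K : Dat) (hq : K.q ≠ 0) (c0 c1 c2 c3 : ℝ) (h0 : 0 ≤ K.D) (hN0 : K.N 0 = K.q * K.D)
    (p0 : 0 ≤ c0) (p2 : 0 ≤ c2)
    (hM : |K.M| ≤ c0 * K.D) (hx : |K.xb| ≤ c1 * K.D) (hN1 : |K.N 1| ≤ |K.q| * c2 * K.D)
    (hN2 : |K.N 2| ≤ c3 * K.D) :
    |K.J| ≤ (2 * c1 + c0 * c2 + |K.p / K.q| * (c3 + c2 * (|K.q| * c2))) / |K.q| * K.D := by
  have hq' : 0 < |K.q| := abs_pos.2 hq
  have ha : |K.a| ≤ c2 := by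
    unfold Dat.a
    rcases h0.eq_or_lt with h1 | h1
    · rw [hN0, ← h1]
      simpa using p2
    · rw [hN0, abs_div, abs_mul, abs_of_pos h1, div_le_iff₀ (by positivity)]
      linarith
  have hV : |K.V| ≤ (c3 + c2 * (|K.q| * c2)) * K.D := by
    unfold Dat.V
    calc |K.N 2 - K.a * K.N 1| ≤ |K.N 2| + |K.a * K.N 1| := abs_sub _ _
      _ ≤ c3 * K.D + c2 * (|K.q| * c2 * K.D) := by
          refine add_le_add hN2 ?_
          rw [abs_mul]
          exact mul_le_mul ha hN1 (abs_nonneg _) p2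
      _ = (c3 + c2 * (|K.q| * c2)) * K.D := by ring
  unfold Dat.J
  have e0 : (2 * c1 + c0 * c2 + |K.p / K.q| * (c3 + c2 * (|K.q| * c2))) / |K.q| * K.D =
      (2 * c1 + c0 * c2 + |K.p / K.q| * (c3 + c2 * (|K.q| * c2))) * K.D / |K.q| := by ring
  rw [e0, abs_div, div_le_div_iff_of_pos_right hq']
  calc |-2 * K.xb + K.M * K.a + K.p / K.q * K.V| ≤ |-2 * K.xb| + |K.M * K.a| + |K.p / K.q * K.V| :=
        abs_add_three _ _ _
    _ ≤ 2 * (c1 * K.D) + (c0 * K.D) * c2 + |K.p / K.q| * ((c3 + c2 * (|K.q| * c2)) * K.D) := by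
        have e1 : |-2 * K.xb| ≤ 2 * (c1 * K.D) := by
          rw [abs_mul]
          have : |(-2:ℝ)| = 2 := by norm_num
          rw [this]
          linarith
        have e2 : |K.M * K.a| ≤ (c0 * K.D) * c2 := by
          rw [abs_mul]
          exact mul_le_mul hM ha (abs_nonneg _) (mul_nonneg p0 h0)
        have e3 : |K.p / K.q * K.V| ≤ |K.p / K.q| * ((c3 + c2 * (|K.q| * c2)) * K.D) := by
          rw [abs_mul]
          exact mul_le_mul_of_nonneg_left hV (abs_nonneg _)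
        linarith
    _ = (2 * c1 + c0 * c2 + |K.p / K.q| * (c3 + c2 * (|K.q| * c2))) * K.D := by ring

theorem cut_bound (K : Bd) (h : K.CF) : ∃ C : ℝ, ∀ z : ℝ × ℝ, K.mem z.1 z.2 →
    0 ≤ (K.col.cut z.1 z.2).D ∧ |(K.col.cut z.1 z.2).J| ≤ C * (K.col.cut z.1 z.2).D := by
  have hS := C4_compact K h
  have cl : Continuous K.col.l := h.cl
  have cu : Continuous K.col.u := h.cu
  obtain ⟨C1, h1⟩ := C4_bd hS K.w (C4_rl K.col cl)
  obtain ⟨C2, h2⟩ := C4_bd hS K.w (C4_ru K.col cu)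
  obtain ⟨C3, h3⟩ := C4_bd hS K.w ((continuous_const (y := (1:ℝ))).div (C4_rl K.col cl)
    fun y => ((K.col.cut y.1.1 y.1.2).rl_pos y.2).ne')
  obtain ⟨C4, h4⟩ := C4_bd hS K.w ((continuous_const (y := (1:ℝ))).div (C4_ru K.col cu)
    fun y => ((K.col.cut y.1.1 y.1.2).ru_pos y.2).ne')
  obtain ⟨C5, h5⟩ := C4_bd hS K.w (C4_Xl K.col cl)
  obtain ⟨C6, h6⟩ := C4_bd hS K.w (C4_Xu K.col cl cu)
  set C : ℝ := |C1| + |C2| + |C3| + |C4| + |C5| + |C6| with hC
  have hC0 : 0 ≤ C := by positivity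
  have a1 : C1 ≤ C := by
    have := le_abs_self C1
    have := abs_nonneg C2
    have := abs_nonneg C3
    have := abs_nonneg C4
    have := abs_nonneg C5
    have := abs_nonneg C6
    linarith
  have a2 : C2 ≤ C := by
    have := le_abs_self C2
    have := abs_nonneg C1
    have := abs_nonneg C3
    have := abs_nonneg C4
    have := abs_nonneg C5
    have := abs_nonneg C6
    linarith
  have a3 : C3 ≤ C := by
    have := le_abs_self C3
    have := abs_nonneg C1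
    have := abs_nonneg C2
    have := abs_nonneg C4
    have := abs_nonneg C5
    have := abs_nonneg C6
    linarith
  have a4 : C4 ≤ C := by
    have := le_abs_self C4
    have := abs_nonneg C1
    have := abs_nonneg C2
    have := abs_nonneg C3
    have := abs_nonneg C5
    have := abs_nonneg C6
    linarith
  have a5 : C5 ≤ C := by
    have := le_abs_self C5
    have := abs_nonneg C1
    have := abs_nonneg C2
    have := abs_nonneg C3
    have := abs_nonneg C4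
    have := abs_nonneg C6
    linarith
  have a6 : C6 ≤ C := by
    have := le_abs_self C6
    have := abs_nonneg C1
    have := abs_nonneg C2
    have := abs_nonneg C3
    have := abs_nonneg C4
    have := abs_nonneg C5
    linarith
  refine ⟨(2 * (K.w * C ^ 2) + C ^ 2 * (C + C * (K.w * C ^ 2)) + |K.p / K.q| *
    (|K.q| * (C ^ 2 + 2 * C ^ 2 * (K.w * C ^ 2)) + (C + C * (K.w * C ^ 2)) *
      (|K.q| * (C + C * (K.w * C ^ 2))))) / |K.q|, fun z hz => ?_⟩
  have hsub : ∀ x ∈ Icc 0 (K.col.cut z.1 z.2).w, x ∈ Icc 0 K.w := by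
    intro x hx
    have h7 : x ≤ K.w - z.1 := hx.2
    exact ⟨hx.1, by linarith [hz.1]⟩
  have hw : 0 ≤ (K.col.cut z.1 z.2).w := by
    show 0 ≤ K.w - z.1
    linarith [hz.2.1]
  have hlu : ∀ x ∈ Icc 0 (K.col.cut z.1 z.2).w, (K.col.cut z.1 z.2).l x ≤ (K.col.cut z.1 z.2).u x := by
    intro x hx
    have h7 : x ≤ K.w - z.1 := hx.2
    have h8 := h.lu (z.1 + x) ⟨add_nonneg hz.1 hx.1, by linarith⟩
    show max (K.l (z.1 + x)) z.2 - z.2 ≤ max (K.u (z.1 + x)) z.2 - z.2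
    exact sub_le_sub_right (max_le_max_right _ h8) _
  have hqq : (K.col.cut z.1 z.2).q ≠ 0 := h.hq
  obtain ⟨r1, r2, r3, r4, r5, r6⟩ := C4_one (K.col.cut z.1 z.2) hqq hw (C4_cl _ cl _ _) (C4_cu _ cu _ _) hlu
    C K.w hC0 (by
      show K.w - z.1 ≤ K.w
      linarith [hz.1])
    (fun x hx => ((le_abs_self _).trans (h1 z hz x (hsub x hx))).trans a1)
    (fun x hx => ((le_abs_self _).trans (h2 z hz x (hsub x hx))).trans a2)
    (fun x hx => ((le_abs_self _).trans (h3 z hz x (hsub x hx))).trans a3)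
    (fun x hx => ((le_abs_self _).trans (h4 z hz x (hsub x hx))).trans a4)
    (fun x hx => (h5 z hz x (hsub x hx)).trans a5)
    (fun x hx => (h6 z hz x (hsub x hx)).trans a6)
  refine ⟨r1, ?_⟩
  have hw0 : 0 ≤ K.w := h.hw.le
  exact C4_J (K.col.cut z.1 z.2) hqq (C ^ 2) (K.w * C ^ 2) (C + C * (K.w * C ^ 2))
    (|K.q| * (C ^ 2 + 2 * C ^ 2 * (K.w * C ^ 2))) r1 r2 (by positivity) (by positivity) r3 r4 r5 r6

private theorem C4_Jcont (K : Bd) (h : K.CF) :
    ContinuousOn (fun z : ℝ × ℝ => (K.col.cut z.1 z.2).J) {z | K.mem z.1 z.2} := by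
  obtain ⟨C, hC⟩ := cut_bound K h
  obtain ⟨cM, cx, cN⟩ := cut_cont K.col h.cl h.cu
  have cD : Continuous (fun z : ℝ × ℝ => (K.col.cut z.1 z.2).D) := (cN 0).div_const _
  intro z0 hz0
  by_cases h0 : (K.col.cut z0.1 z0.2).N 0 = 0
  · have hD0 : (K.col.cut z0.1 z0.2).D = 0 := by
      unfold Dat.D
      rw [h0, zero_div]
    have hJ0 : (K.col.cut z0.1 z0.2).J = 0 := by
      have h1 := (hC z0 hz0).2
      rw [hD0, mul_zero] at h1
      exact abs_nonpos_iff.1 h1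
    show Tendsto (fun z : ℝ × ℝ => (K.col.cut z.1 z.2).J) (𝓝[{z | K.mem z.1 z.2}] z0)
      (𝓝 ((K.col.cut z0.1 z0.2).J))
    rw [hJ0]
    have ht : Tendsto (fun z : ℝ × ℝ => C * (K.col.cut z.1 z.2).D) (𝓝[{z | K.mem z.1 z.2}] z0) (𝓝 0) := by
      have h3 : Continuous (fun z : ℝ × ℝ => C * (K.col.cut z.1 z.2).D) := continuous_const.mul cD
      have h2 : Tendsto (fun z : ℝ × ℝ => C * (K.col.cut z.1 z.2).D) (𝓝 z0)
          (𝓝 (C * (K.col.cut z0.1 z0.2).D)) := h3.tendsto z0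
      rw [hD0, mul_zero] at h2
      exact h2.mono_left nhdsWithin_le_nhds
    refine squeeze_zero_norm' ?_ ht
    filter_upwards [self_mem_nhdsWithin] with z hz
    rw [Real.norm_eq_abs]
    exact (hC z hz).2
  · refine ContinuousAt.continuousWithinAt ?_
    have ca : ContinuousAt (fun z : ℝ × ℝ => (K.col.cut z.1 z.2).a) z0 :=
      (cN 1).continuousAt.div (cN 0).continuousAt h0
    have cV : ContinuousAt (fun z : ℝ × ℝ => (K.col.cut z.1 z.2).V) z0 :=
      (cN 2).continuousAt.sub (ca.mul (cN 1).continuousAt)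
    exact (((continuousAt_const.mul cx.continuousAt).add (cM.continuousAt.mul ca)).add
      (continuousAt_const.mul cV)).div_const _

theorem F_cont (K : Bd) (h : K.CF) :
    ContinuousOn (fun z : ℝ × ℝ => Real.exp (K.p * z.1 + K.q * z.2) * (K.col.cut z.1 z.2).J) {z | K.mem z.1 z.2} := by
  refine ContinuousOn.mul ?_ (C4_Jcont K h)
  exact (Real.continuous_exp.comp (by fun_prop)).continuousOn

theorem F_min (K : Bd) (h : K.CF) : ∃ z : ℝ × ℝ, K.mem z.1 z.2 ∧ ∀ z' : ℝ × ℝ, K.mem z'.1 z'.2 →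
    Real.exp (K.p * z.1 + K.q * z.2) * (K.col.cut z.1 z.2).J ≤ Real.exp (K.p * z'.1 + K.q * z'.2) * (K.col.cut z'.1 z'.2).J := by
  obtain ⟨z, hz, hmin⟩ := (C4_compact K h).exists_isMinOn ⟨(0, 0), h.corner⟩ (F_cont K h)
  exact ⟨z, hz, fun z' hz' => hmin hz'⟩

end Pool.Agent.Lib.MP_1dedaf_gt.DK
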