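import Pool.Agent.Lib.MP_1dedaf_gt.DK.Reg
import Pool.Agent.Lib.MP_1dedaf_gt.DK.A0
import Pool.Agent.Lib.MP_1dedaf_gt.Mg.G003

/-!
# TASK DK A2: the kernel at the corner, shearing, the column algebra

Proof. `J_eq`: `l 0 = 0` gives `rl 0 = 1`, `Xl 0 = 0`, `Xi 0 = 0`, `Phi 0 = psi = - V/(q M)`; multiply out (`M ≠ 0`). `shear`: the new `rl`, `ru` are
`e^{-q c} rl`, `e^{-q c} ru`; with `e = e^{-q c}` the quantities `Xl, Xu, mu, mr, M, xb, a` are multiplied by `e`, `N i` by `e^{i-1}`, so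
`psi`, `Xi`, `Phi`, `(a - Xl)/rl`, `xb/M` do not change (no hypothesis is needed except `q ≠ 0`, also not `M ≠ 0`: everything is a quotient
with the same factor; state and prove the scaling of each quantity first).
`col_alg`: write `A(X, ρ) = (κ X - ρ + C rl 0)/q`, `L(X, ρ) = A(X, ρ) - A(C Xl xt, C rl xt)`. Expand `loop` and `far` linearly into the basic integrals (every
integrand is continuous, so all integrals split): with `N i = K.N i`, `loop 1 = N0/C`, `loop X = N1`, `loop X² = C N2`, `loop ρ = 0`,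
`loop (X ρ) = C ∫ (Xl - Xu) = C q xb` (`xb_eq`), `loop ρ² = C ∫ (rl - ru) = - C q M = - q`, `far 1 = F0/C`, `far X = G1`, `far ρ = (w - xt) - w = - xt` where
`F0 = ∫_xt^w 1/rl - ∫_0^w 1/ru`, `G1 = ∫_xt^w Xl/rl - ∫_0^w Xu/ru`. As `∫_0^w ((a - Xl)/rl - (a - Xu)/ru) = a N0 - N1 = 0`: `Xi xt = G1 - a F0`.
Then both sides are rational expressions in `N0, N1, N2, F0, G1, xb, xt, Xl xt, rl xt, rl 0, C` (`M = 1/C`, `a = N1/N0`, `V = N2 - a N1`); the constant
`rl 0` cancels; `field_simp; ring`. (`K.j xt k` with `p + q k = κ`.)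
-/

set_option autoImplicit false

open MeasureTheory Set Filter Topology

namespace Pool.Agent.Lib.MP_1dedaf_gt.DK

namespace Dat

private theorem a2_xl_pos (K : Dat) (x : ℝ) : K.rl x ≠ 0 := (K.rl_pos x).ne'

private theorem a2_loop (K : Dat) (h : K.Reg) (C : ℝ) (hC : 0 < C) (hCM : C * K.M = 1)
    (a0 a1 a2 a3 a4 a5 : ℝ) :
    K.loop C (fun X ρ => a0 + a1 * X + a2 * ρ + a3 * X ^ 2 + a4 * (X * ρ) + a5 * ρ ^ 2) =
      a0 * (K.N 0 / C) + a1 * K.N 1 + a3 * (C * K.N 2) + a4 * (C * K.q * K.xb) - a5 * K.q := by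
  have cl := h.cl
  have cu := h.cu
  have hrl := K.rl_cont cl
  have hru := K.ru_cont cu
  have hXl := K.Xl_cont cl
  have hXu := K.Xu_cont cl cu
  have hmr := K.mr_cont cl cu
  have hl0 : ∀ x, K.rl x ≠ 0 := fun x => (K.rl_pos x).ne'
  have hu0 : ∀ x, K.ru x ≠ 0 := fun x => (K.ru_pos x).ne'
  have hN : ∀ i : ℕ, IntervalIntegrable (fun x => K.Xl x ^ i / K.rl x - K.Xu x ^ i / K.ru x)
      volume 0 K.w := fun i =>
    (((hXl.pow i).div hrl hl0).sub ((hXu.pow i).div hru hu0)).intervalIntegrable _ _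
  have hmri : IntervalIntegrable (fun x => K.mr x) volume 0 K.w := hmr.intervalIntegrable _ _
  have hmui : IntervalIntegrable (fun x => K.mu x) volume 0 K.w :=
    (K.mu_cont cl cu).intervalIntegrable _ _
  have hq := h.hq
  have e : ∀ x, (a0 + a1 * (C * K.Xl x) + a2 * (C * K.rl x) + a3 * (C * K.Xl x) ^ 2 +
        a4 * (C * K.Xl x * (C * K.rl x)) + a5 * (C * K.rl x) ^ 2) / (C * K.rl x) -
      (a0 + a1 * (C * K.Xu x) + a2 * (C * K.ru x) + a3 * (C * K.Xu x) ^ 2 +
        a4 * (C * K.Xu x * (C * K.ru x)) + a5 * (C * K.ru x) ^ 2) / (C * K.ru x) =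
      a0 / C * (K.Xl x ^ 0 / K.rl x - K.Xu x ^ 0 / K.ru x) +
      a1 * (K.Xl x ^ 1 / K.rl x - K.Xu x ^ 1 / K.ru x) +
      a3 * C * (K.Xl x ^ 2 / K.rl x - K.Xu x ^ 2 / K.ru x) +
      a4 * C * K.q * K.mr x - a5 * C * K.q * K.mu x := by
    intro x
    have h1 : K.Xl x - K.Xu x = K.q * K.mr x := by unfold Xu; ring
    have h2 : K.ru x - K.rl x = K.q * K.mu x := by unfold mu; field_simp
    have hC' : C ≠ 0 := hC.ne'
    have h3 := hl0 x
    have h4 := hu0 x
    have h5 : a4 * C * K.q * K.mr x = a4 * C * (K.Xl x - K.Xu x) := by rw [h1]; ring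
    have h6 : a5 * C * K.q * K.mu x = a5 * C * (K.ru x - K.rl x) := by rw [h2]; ring
    rw [h5, h6]
    field_simp
    ring
  unfold loop
  rw [intervalIntegral.integral_congr (g := fun x =>
      a0 / C * (K.Xl x ^ 0 / K.rl x - K.Xu x ^ 0 / K.ru x) +
      a1 * (K.Xl x ^ 1 / K.rl x - K.Xu x ^ 1 / K.ru x) +
      a3 * C * (K.Xl x ^ 2 / K.rl x - K.Xu x ^ 2 / K.ru x) +
      a4 * C * K.q * K.mr x - a5 * C * K.q * K.mu x) (fun x _ => e x)]
  rw [intervalIntegral.integral_sub (((((hN 0).const_mul _).add ((hN 1).const_mul _)).add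
      ((hN 2).const_mul _)).add (hmri.const_mul _)) (hmui.const_mul _),
    intervalIntegral.integral_add ((((hN 0).const_mul _).add ((hN 1).const_mul _)).add
      ((hN 2).const_mul _)) (hmri.const_mul _),
    intervalIntegral.integral_add (((hN 0).const_mul _).add ((hN 1).const_mul _))
      ((hN 2).const_mul _),
    intervalIntegral.integral_add ((hN 0).const_mul _) ((hN 1).const_mul _)]
  simp only [intervalIntegral.integral_const_mul]
  rw [← K.xb_eq cl cu]
  change a0 / C * K.N 0 + a1 * K.N 1 + a3 * C * K.N 2 + a4 * C * K.q * K.xb -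
    a5 * C * K.q * K.M = _
  have h7 : a5 * C * K.q * K.M = a5 * K.q := by
    calc a5 * C * K.q * K.M = a5 * K.q * (C * K.M) := by ring
      _ = a5 * K.q := by rw [hCM, mul_one]
  rw [h7]
  ring

private theorem a2_far (K : Dat) (h : K.Reg) (C : ℝ) (hC : 0 < C) (xt : ℝ) (a0 a1 a2 : ℝ) :
    K.far C xt (fun X ρ => a0 + a1 * X + a2 * ρ) =
      a0 * (((∫ x in xt..K.w, 1 / K.rl x) - ∫ x in (0:ℝ)..K.w, 1 / K.ru x) / C) +
      a1 * ((∫ x in xt..K.w, K.Xl x / K.rl x) - ∫ x in (0:ℝ)..K.w, K.Xu x / K.ru x) -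
      a2 * xt := by
  have cl := h.cl
  have cu := h.cu
  have hrl := K.rl_cont cl
  have hru := K.ru_cont cu
  have hXl := K.Xl_cont cl
  have hXu := K.Xu_cont cl cu
  have hl0 : ∀ x, K.rl x ≠ 0 := fun x => (K.rl_pos x).ne'
  have hu0 : ∀ x, K.ru x ≠ 0 := fun x => (K.ru_pos x).ne'
  have hC' : C ≠ 0 := hC.ne'
  have i1 : IntervalIntegrable (fun x => 1 / K.rl x) volume xt K.w :=
    (continuous_const.div hrl hl0).intervalIntegrable _ _
  have i2 : IntervalIntegrable (fun x => K.Xl x / K.rl x) volume xt K.w :=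
    (hXl.div hrl hl0).intervalIntegrable _ _
  have i3 : IntervalIntegrable (fun x => 1 / K.ru x) volume 0 K.w :=
    (continuous_const.div hru hu0).intervalIntegrable _ _
  have i4 : IntervalIntegrable (fun x => K.Xu x / K.ru x) volume 0 K.w :=
    (hXu.div hru hu0).intervalIntegrable _ _
  have i5 : ∀ a b c : ℝ, IntervalIntegrable (fun _ : ℝ => c) volume a b := fun a b c =>
    continuous_const.intervalIntegrable _ _
  unfold far
  have e1 : ∀ x, (a0 + a1 * (C * K.Xl x) + a2 * (C * K.rl x)) / (C * K.rl x) =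
      a0 / C * (1 / K.rl x) + a1 * (K.Xl x / K.rl x) + a2 := by
    intro x
    have h3 := hl0 x
    field_simp
  have e2 : ∀ x, (a0 + a1 * (C * K.Xu x) + a2 * (C * K.ru x)) / (C * K.ru x) =
      a0 / C * (1 / K.ru x) + a1 * (K.Xu x / K.ru x) + a2 := by
    intro x
    have h3 := hu0 x
    field_simp
  rw [intervalIntegral.integral_congr (g := fun x =>
      a0 / C * (1 / K.rl x) + a1 * (K.Xl x / K.rl x) + a2) (fun x _ => e1 x),
    intervalIntegral.integral_congr (g := fun x =>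
      a0 / C * (1 / K.ru x) + a1 * (K.Xu x / K.ru x) + a2) (fun x _ => e2 x),
    intervalIntegral.integral_add ((i1.const_mul _).add (i2.const_mul _)) (i5 _ _ _),
    intervalIntegral.integral_add (i1.const_mul _) (i2.const_mul _),
    intervalIntegral.integral_add ((i3.const_mul _).add (i4.const_mul _)) (i5 _ _ _),
    intervalIntegral.integral_add (i3.const_mul _) (i4.const_mul _)]
  simp only [intervalIntegral.integral_const_mul, intervalIntegral.integral_const, smul_eq_mul]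
  ring

private theorem a2_xi (K : Dat) (h : K.Reg) (xt : ℝ) :
    K.Xi xt = ((∫ x in xt..K.w, K.Xl x / K.rl x) - ∫ x in (0:ℝ)..K.w, K.Xu x / K.ru x) -
      K.a * ((∫ x in xt..K.w, 1 / K.rl x) - ∫ x in (0:ℝ)..K.w, 1 / K.ru x) := by
  have cl := h.cl
  have cu := h.cu
  have hrl := K.rl_cont cl
  have hru := K.ru_cont cu
  have hXl := K.Xl_cont cl
  have hXu := K.Xu_cont cl cu
  have hl0 : ∀ x, K.rl x ≠ 0 := fun x => (K.rl_pos x).ne'
  have hu0 : ∀ x, K.ru x ≠ 0 := fun x => (K.ru_pos x).ne'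
  have i1 : ∀ a b, IntervalIntegrable (fun x => 1 / K.rl x) volume a b := fun a b =>
    (continuous_const.div hrl hl0).intervalIntegrable _ _
  have i2 : ∀ a b, IntervalIntegrable (fun x => K.Xl x / K.rl x) volume a b := fun a b =>
    (hXl.div hrl hl0).intervalIntegrable _ _
  have i3 : IntervalIntegrable (fun x => 1 / K.ru x) volume 0 K.w :=
    (continuous_const.div hru hu0).intervalIntegrable _ _
  have i4 : IntervalIntegrable (fun x => K.Xu x / K.ru x) volume 0 K.w :=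
    (hXu.div hru hu0).intervalIntegrable _ _
  have hN0 : K.N 0 = (∫ x in (0:ℝ)..K.w, 1 / K.rl x) - ∫ x in (0:ℝ)..K.w, 1 / K.ru x := by
    unfold N
    rw [← intervalIntegral.integral_sub (i1 _ _) i3]
    simp only [pow_zero]
  have hN1 : K.N 1 = (∫ x in (0:ℝ)..K.w, K.Xl x / K.rl x) - ∫ x in (0:ℝ)..K.w, K.Xu x / K.ru x := by
    unfold N
    rw [← intervalIntegral.integral_sub (i2 _ _) i4]
    simp only [pow_one]
  have hXi : K.Xi xt = K.a * (∫ x in (0:ℝ)..xt, 1 / K.rl x) - ∫ x in (0:ℝ)..xt, K.Xl x / K.rl x := by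
    unfold Xi
    rw [← intervalIntegral.integral_const_mul, ← intervalIntegral.integral_sub
      ((i1 _ _).const_mul _) (i2 _ _)]
    refine intervalIntegral.integral_congr fun x _ => ?_
    change (K.a - K.Xl x) / K.rl x = K.a * (1 / K.rl x) - K.Xl x / K.rl x
    ring
  have s1 := intervalIntegral.integral_add_adjacent_intervals (i1 0 xt) (i1 xt K.w)
  have s2 := intervalIntegral.integral_add_adjacent_intervals (i2 0 xt) (i2 xt K.w)
  have ha : K.a * K.N 0 = K.N 1 := by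
    unfold a
    exact div_mul_cancel₀ _ (K.N0_ne h)
  rw [hXi]
  rw [hN0, hN1, ← s1, ← s2] at ha
  linarith

theorem J_eq (K : Dat) (h : K.Reg) (h0 : K.l 0 = 0) : K.J = K.M * K.j 0 0 := by
  have h1 : K.rl 0 = 1 := by unfold rl; rw [h0]; simp
  have h2 : K.Phi 0 = - K.V / (K.q * K.M) := by
    unfold Phi psi Xi
    rw [intervalIntegral.integral_same, sub_zero]
  have hM := (K.M_pos h).ne'
  have hq := h.hq
  unfold J j
  rw [h2, h1, K.Xl_zero]
  field_simp
  ring

theorem shear (K : Dat) (hq : K.q ≠ 0) (k c x : ℝ) :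
    (Dat.mk (K.p + K.q * k) K.q K.w (fun t => K.l t - (k * t + c)) (fun t => K.u t - (k * t + c))).j x 0 = K.j x k := by
  set e := Real.exp (-(K.q * c)) with he
  have he0 : e ≠ 0 := (Real.exp_pos _).ne'
  set K' := (Dat.mk (K.p + K.q * k) K.q K.w (fun t => K.l t - (k * t + c))
    (fun t => K.u t - (k * t + c))) with hK'
  have rl' : ∀ x, K'.rl x = e * K.rl x := by
    intro x
    change Real.exp ((K.p + K.q * k) * x + K.q * (K.l x - (k * x + c))) =
      Real.exp (-(K.q * c)) * Real.exp (K.p * x + K.q * K.l x)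
    rw [← Real.exp_add]
    congr 1
    ring
  have ru' : ∀ x, K'.ru x = e * K.ru x := by
    intro x
    change Real.exp ((K.p + K.q * k) * x + K.q * (K.u x - (k * x + c))) =
      Real.exp (-(K.q * c)) * Real.exp (K.p * x + K.q * K.u x)
    rw [← Real.exp_add]
    congr 1
    ring
  have Xl' : ∀ x, K'.Xl x = e * K.Xl x := by
    intro x
    unfold Xl
    rw [← intervalIntegral.integral_const_mul]
    exact intervalIntegral.integral_congr fun t _ => rl' t
  have mu' : ∀ x, K'.mu x = e * K.mu x := by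
    intro x
    unfold mu
    rw [rl', ru']
    change (e * K.ru x - e * K.rl x) / K.q = _
    ring
  have mr' : ∀ x, K'.mr x = e * K.mr x := by
    intro x
    unfold mr
    rw [← intervalIntegral.integral_const_mul]
    exact intervalIntegral.integral_congr fun t _ => mu' t
  have M' : K'.M = e * K.M := by
    unfold M
    rw [← intervalIntegral.integral_const_mul]
    exact intervalIntegral.integral_congr fun t _ => mu' t
  have Xu' : ∀ x, K'.Xu x = e * K.Xu x := by
    intro x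
    unfold Xu
    rw [Xl', mr']
    change e * K.Xl x - K.q * (e * K.mr x) = _
    ring
  have xb' : K'.xb = e * K.xb := by
    unfold xb
    rw [← intervalIntegral.integral_const_mul]
    refine intervalIntegral.integral_congr fun t _ => ?_
    change t * K'.mu t = e * (t * K.mu t)
    rw [mu']
    ring
  have N' : ∀ i : ℕ, K'.N i = e ^ i / e * K.N i := by
    intro i
    unfold N
    rw [← intervalIntegral.integral_const_mul]
    refine intervalIntegral.integral_congr fun t _ => ?_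
    change K'.Xl t ^ i / K'.rl t - K'.Xu t ^ i / K'.ru t =
      e ^ i / e * (K.Xl t ^ i / K.rl t - K.Xu t ^ i / K.ru t)
    rw [Xl', Xu', rl', ru', mul_pow, mul_pow, mul_div_mul_comm, mul_div_mul_comm]
    ring
  have a' : K'.a = e * K.a := by
    unfold a
    rw [N', N']
    rw [pow_zero, pow_one]
    rw [div_self he0, one_mul]
    by_cases h0 : K.N 0 = 0
    · rw [h0]; simp
    · field_simp
  have V' : K'.V = e * K.V := by
    unfold V
    rw [N', N', a']
    field_simp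
  have psi' : K'.psi = K.psi := by
    unfold psi
    rw [V', M']
    change -(e * K.V) / (K.q * (e * K.M)) = _
    have h1 : -(e * K.V) / (K.q * (e * K.M)) = (e * (-K.V)) / (e * (K.q * K.M)) := by ring
    rw [h1, mul_div_mul_left _ _ he0]
  have Xi' : K'.Xi x = K.Xi x := by
    unfold Xi
    refine intervalIntegral.integral_congr fun t _ => ?_
    change (K'.a - K'.Xl t) / K'.rl t = (K.a - K.Xl t) / K.rl t
    rw [a', Xl', rl', ← mul_sub, mul_div_mul_left _ _ he0]
  unfold j Phi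
  rw [psi', Xi', xb', M', a', Xl', rl', ← mul_sub, mul_div_mul_left _ _ he0]
  have h2 : 2 * (e * K.xb) / (e * K.M) = 2 * K.xb / K.M := by
    have h1 : 2 * (e * K.xb) = e * (2 * K.xb) := by ring
    rw [h1, mul_div_mul_left _ _ he0]
  rw [h2]
  change (x - 2 * K.xb / K.M + (K.a - K.Xl x) / K.rl x -
    (K.p + K.q * k + K.q * 0) * (K.psi - K.Xi x)) / K.q = _
  rw [mul_zero, add_zero]

theorem col_alg (K : Dat) (h : K.Reg) (C : ℝ) (hC : 0 < C) (hCM : C * K.M = 1) (xt : ℝ) (hx : xt ∈ Icc 0 K.w)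
    (k κ : ℝ) (hk : κ = K.p + K.q * k) (hκ : κ ≠ 0) (A L : ℝ → ℝ → ℝ)
    (hA : ∀ X ρ, A X ρ = (κ * X - ρ + C * K.rl 0) / K.q)
    (hL : ∀ X ρ, L X ρ = A X ρ - A (C * K.Xl xt) (C * K.rl xt)) :
    1 / κ * ((K.loop C (fun X ρ => A X ρ * L X ρ) + κ * K.far C xt L) +
      (1 / (C * K.rl xt) - (K.loop C A + κ * K.far C xt (fun _ _ => 1))) / K.loop C (fun _ _ => 1) * K.loop C L) =
    K.j xt k := by
  have hq := h.hq
  have hC' : C ≠ 0 := hC.ne'
  have hN0 := K.N0_ne h
  have hrl0 : K.rl xt ≠ 0 := (K.rl_pos xt).ne'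
  have hM : K.M = 1 / C := by field_simp; linarith
  set α := C * K.rl 0 with hα
  set A0 := A (C * K.Xl xt) (C * K.rl xt) with hA0
  have hA0' : A0 = (κ * (C * K.Xl xt) - C * K.rl xt + α) / K.q := by rw [hA0, hA]
  have eA : A = fun X ρ => (α / K.q) + (κ / K.q) * X + (-1 / K.q) * ρ + 0 * X ^ 2 + 0 * (X * ρ) +
      0 * ρ ^ 2 := by
    funext X ρ
    rw [hA]
    field_simp
    ring
  have eA' : A = fun X ρ => (α / K.q) + (κ / K.q) * X + (-1 / K.q) * ρ := by
    funext X ρ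
    rw [hA]
    field_simp
    ring
  have eL : L = fun X ρ => (α / K.q - A0) + (κ / K.q) * X + (-1 / K.q) * ρ + 0 * X ^ 2 +
      0 * (X * ρ) + 0 * ρ ^ 2 := by
    funext X ρ
    rw [hL, hA]
    field_simp
    ring
  have eL' : L = fun X ρ => (α / K.q - A0) + (κ / K.q) * X + (-1 / K.q) * ρ := by
    funext X ρ
    rw [hL, hA]
    field_simp
    ring
  have eAL : (fun X ρ => A X ρ * L X ρ) = fun X ρ => (α / K.q * (α / K.q - A0)) +
      (2 * α * κ / K.q ^ 2 - A0 * κ / K.q) * X + (-2 * α / K.q ^ 2 + A0 / K.q) * ρ +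
      (κ ^ 2 / K.q ^ 2) * X ^ 2 + (-2 * κ / K.q ^ 2) * (X * ρ) + (1 / K.q ^ 2) * ρ ^ 2 := by
    funext X ρ
    rw [hL, hA]
    field_simp
    ring
  have e1 : (fun _ _ => 1 : ℝ → ℝ → ℝ) = fun X ρ => 1 + 0 * X + 0 * ρ + 0 * X ^ 2 +
      0 * (X * ρ) + 0 * ρ ^ 2 := by
    funext X ρ
    ring
  have e1' : (fun _ _ => 1 : ℝ → ℝ → ℝ) = fun X ρ => 1 + 0 * X + 0 * ρ := by
    funext X ρ
    ring
  have l1 : K.loop C (fun X ρ => A X ρ * L X ρ) = (α / K.q * (α / K.q - A0)) * (K.N 0 / C) +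
      (2 * α * κ / K.q ^ 2 - A0 * κ / K.q) * K.N 1 + (κ ^ 2 / K.q ^ 2) * (C * K.N 2) +
      (-2 * κ / K.q ^ 2) * (C * K.q * K.xb) - (1 / K.q ^ 2) * K.q := by
    rw [eAL, a2_loop K h C hC hCM]
  have l2 : K.loop C A = (α / K.q) * (K.N 0 / C) + (κ / K.q) * K.N 1 := by
    rw [eA, a2_loop K h C hC hCM]; ring
  have l3 : K.loop C L = (α / K.q - A0) * (K.N 0 / C) + (κ / K.q) * K.N 1 := by
    rw [eL, a2_loop K h C hC hCM]; ring
  have l4 : K.loop C (fun _ _ => 1) = K.N 0 / C := by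
    rw [e1, a2_loop K h C hC hCM]; ring
  set F0 := (∫ x in xt..K.w, 1 / K.rl x) - ∫ x in (0:ℝ)..K.w, 1 / K.ru x with hF0
  set G1 := (∫ x in xt..K.w, K.Xl x / K.rl x) - ∫ x in (0:ℝ)..K.w, K.Xu x / K.ru x with hG1
  have f1 : K.far C xt L = (α / K.q - A0) * (F0 / C) + (κ / K.q) * G1 - (-1 / K.q) * xt := by
    rw [eL', a2_far K h C hC]
  have f2 : K.far C xt (fun _ _ => 1) = F0 / C := by
    rw [e1', a2_far K h C hC]; ring
  have hXi : K.Xi xt = G1 - K.a * F0 := a2_xi K h xt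
  have ha : K.a = K.N 1 / K.N 0 := rfl
  have hV : K.V = K.N 2 - K.a * K.N 1 := rfl
  rw [l1, l2, l3, l4, f1, f2]
  unfold j Phi psi
  rw [hXi, ← hk, hV, ha, hM, hA0']
  generalize K.N 0 = n0 at *
  generalize K.N 1 = n1 at *
  generalize K.N 2 = n2 at *
  generalize K.rl xt = r at *
  generalize K.Xl xt = X at *
  generalize K.xb = xb at *
  generalize K.q = q at *
  generalize K.p = p at *
  generalize F0 = f0 at *
  generalize G1 = g1 at *
  generalize α = al at *
  clear hA hL eA eA' eL eL' eAL e1 e1' l1 l2 l3 l4 f1 f2 hXi ha hV hM hCM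
  field_simp
  ring

end Dat

end Pool.Agent.Lib.MP_1dedaf_gt.DK
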