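import Pool.Agent.Lib.MP_1dedaf_gt.Mg.G015
import Pool.Agent.Lib.MP_1dedaf_gt.Mg.G004
import Pool.Agent.Lib.MP_1dedaf_gt.DK.A2
import Pool.Agent.Lib.MP_1dedaf_gt.Mg.G012
import Pool.Agent.Lib.MP_1dedaf_gt.Mg.G013
import Pool.Agent.Lib.MP_1dedaf_gt.Mg.G007

/-!
# TASK DK N0: the column data describe the polygon; shears and scalings

Proof. `ln_aff`: `ln n k s m x = slk n m * x + sle n k s m`. `mem_Q`: `z = (k s - x) • u s - y • rot (u s)` has `k s - ⟨z, u s⟩ = x`, `- ⟨z, rot (u s)⟩ = y`. `z ∈ Q (dir n) k` iff for all `i`: write `i = s + j` with `j < n` (`j = (i - s).val`). `j = 0`: `x ≥ 0`. For `0 < j`: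
`⟨z, u (s+j)⟩ = (k s - x) cos (j δ) - y sin (j δ)` (`dir_inner`), so for `sin (j δ) > 0` (`1 ≤ j ≤ h`) the constraint is `ln j x ≤ y` and for `sin (j δ) < 0` (`h < j < n`) it is `y ≤ ln j x`. So `z ∈ Q ↔ 0 ≤ x ∧ l x ≤ y ∧ y ≤ u x` (supremum, infimum), and
`x ≤ w` follows from `l x ≤ u x`: `l - u` is convex on `ℝ` (`sv_l_cont`, `sv_u_cont`), negative at `0`, zero at `w`, so it is positive on `(w, ∞)`. `Phi_shr`, `j_shr`: as in A2 `shear` (scaling of the densities by the constant `e^{-q e}`; the same computation for `Phi`). `Phi_scale`, `j_scale`, for `c, d > 0`, `q ≠ 0`: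
`rl' (c x) = rl x`, `Xl' (c x) = c Xl x`, `mu' (c x) = d mu x`, `M' = c d M`, `xb' = c² d xb`, `N' i = c^(i+1) N i`, `a' = c a`, `V' = c³ V`, `psi' = c² psi`, `Xi' (c x) = c² Xi x` (substitution `x' = c x` in the integrals), so `Phi' (c x) = c² Phi x`, `j' (c x) 0 = c d j x 0`.
`j_step`: `j x k' = j x k - (k' - k) Phi x`.
-/

set_option autoImplicit false

open MeasureTheory Set Filter Topology

namespace Pool.Agent.Lib.MP_1dedaf_gt.DK

open Pool.Agent.Lib.MP_1dedaf_gt.LB

private theorem N0_h (n : ℕ) (hn : Odd n) (h3 : 3 ≤ n) : 0 < (n - 1) / 2 ∧ n = 2 * ((n - 1) / 2) + 1 := by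
  obtain ⟨m, rfl⟩ := hn
  omega

private theorem N0_shr (K : Dat) (hq : K.q ≠ 0) (k c x : ℝ) : (K.shr k c).Phi x = K.Phi x := by
  set e := Real.exp (-(K.q * c)) with he
  have he0 : e ≠ 0 := (Real.exp_pos _).ne'
  have rl' : ∀ x, (K.shr k c).rl x = e * K.rl x := by
    intro x
    change Real.exp ((K.p + K.q * k) * x + K.q * (K.l x - (k * x + c))) =
      Real.exp (-(K.q * c)) * Real.exp (K.p * x + K.q * K.l x)
    rw [← Real.exp_add]
    congr 1
    ring
  have ru' : ∀ x, (K.shr k c).ru x = e * K.ru x := by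
    intro x
    change Real.exp ((K.p + K.q * k) * x + K.q * (K.u x - (k * x + c))) =
      Real.exp (-(K.q * c)) * Real.exp (K.p * x + K.q * K.u x)
    rw [← Real.exp_add]
    congr 1
    ring
  have Xl' : ∀ x, (K.shr k c).Xl x = e * K.Xl x := by
    intro x
    unfold Dat.Xl
    rw [← intervalIntegral.integral_const_mul]
    exact intervalIntegral.integral_congr fun t _ => rl' t
  have mu' : ∀ x, (K.shr k c).mu x = e * K.mu x := by
    intro x
    unfold Dat.mu
    rw [rl', ru']
    change (e * K.ru x - e * K.rl x) / K.q = _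
    ring
  have mr' : ∀ x, (K.shr k c).mr x = e * K.mr x := by
    intro x
    unfold Dat.mr
    rw [← intervalIntegral.integral_const_mul]
    exact intervalIntegral.integral_congr fun t _ => mu' t
  have M' : (K.shr k c).M = e * K.M := by
    unfold Dat.M
    rw [← intervalIntegral.integral_const_mul]
    exact intervalIntegral.integral_congr fun t _ => mu' t
  have Xu' : ∀ x, (K.shr k c).Xu x = e * K.Xu x := by
    intro x
    unfold Dat.Xu
    rw [Xl', mr']
    change e * K.Xl x - K.q * (e * K.mr x) = _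
    ring
  have N' : ∀ i : ℕ, (K.shr k c).N i = e ^ i / e * K.N i := by
    intro i
    unfold Dat.N
    rw [← intervalIntegral.integral_const_mul]
    refine intervalIntegral.integral_congr fun t _ => ?_
    change (K.shr k c).Xl t ^ i / (K.shr k c).rl t - (K.shr k c).Xu t ^ i / (K.shr k c).ru t =
      e ^ i / e * (K.Xl t ^ i / K.rl t - K.Xu t ^ i / K.ru t)
    rw [Xl', Xu', rl', ru', mul_pow, mul_pow, mul_div_mul_comm, mul_div_mul_comm]
    ring
  have a' : (K.shr k c).a = e * K.a := by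
    unfold Dat.a
    rw [N', N']
    rw [pow_zero, pow_one]
    rw [div_self he0, one_mul]
    by_cases h0 : K.N 0 = 0
    · rw [h0]; simp
    · field_simp
  have V' : (K.shr k c).V = e * K.V := by
    unfold Dat.V
    rw [N', N', a']
    field_simp
  have psi' : (K.shr k c).psi = K.psi := by
    unfold Dat.psi
    rw [V', M']
    change -(e * K.V) / (K.q * (e * K.M)) = _
    have h1 : -(e * K.V) / (K.q * (e * K.M)) = (e * (-K.V)) / (e * (K.q * K.M)) := by ring
    rw [h1, mul_div_mul_left _ _ he0]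
  have Xi' : (K.shr k c).Xi x = K.Xi x := by
    unfold Dat.Xi
    refine intervalIntegral.integral_congr fun t _ => ?_
    change ((K.shr k c).a - (K.shr k c).Xl t) / (K.shr k c).rl t = (K.a - K.Xl t) / K.rl t
    rw [a', Xl', rl', ← mul_sub, mul_div_mul_left _ _ he0]
  unfold Dat.Phi
  rw [psi', Xi']

private theorem N0_sub (c : ℝ) (f : ℝ → ℝ) (a b : ℝ) :
    (∫ x in (c * a)..(c * b), f x) = c * ∫ x in a..b, f (c * x) := by
  rw [intervalIntegral.mul_integral_comp_mul_left]

private theorem N0_scale (K : Dat) (c d : ℝ) (hc : 0 < c) (hd : 0 < d) (x : ℝ) :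
    (K.scale c d).Phi (c * x) = c ^ 2 * K.Phi x ∧ (K.scale c d).j (c * x) 0 = c * d * K.j x 0 := by
  have hc0 : c ≠ 0 := hc.ne'
  have hd0 : d ≠ 0 := hd.ne'
  have hcx : ∀ x : ℝ, c * x / c = x := fun x => by field_simp
  have rl' : ∀ x, (K.scale c d).rl (c * x) = K.rl x := by
    intro x
    change Real.exp (K.p / c * (c * x) + K.q / d * (d * K.l (c * x / c))) = Real.exp (K.p * x + K.q * K.l x)
    rw [hcx]
    congr 1
    field_simp
  have ru' : ∀ x, (K.scale c d).ru (c * x) = K.ru x := by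
    intro x
    change Real.exp (K.p / c * (c * x) + K.q / d * (d * K.u (c * x / c))) = Real.exp (K.p * x + K.q * K.u x)
    rw [hcx]
    congr 1
    field_simp
  have hw : (K.scale c d).w = c * K.w := rfl
  have hq : (K.scale c d).q = K.q / d := rfl
  have hp : (K.scale c d).p = K.p / c := rfl
  have Xl' : ∀ x, (K.scale c d).Xl (c * x) = c * K.Xl x := by
    intro x
    unfold Dat.Xl
    have h := N0_sub c (K.scale c d).rl 0 x
    rw [mul_zero] at h
    rw [h]
    congr 1
    exact intervalIntegral.integral_congr fun t _ => rl' t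
  have mu' : ∀ x, (K.scale c d).mu (c * x) = d * K.mu x := by
    intro x
    unfold Dat.mu
    rw [rl', ru', hq, div_div_eq_mul_div]
    ring
  have mr' : ∀ x, (K.scale c d).mr (c * x) = c * d * K.mr x := by
    intro x
    unfold Dat.mr
    rw [hw, N0_sub c (K.scale c d).mu x K.w]
    have h2 : (∫ t in x..K.w, (K.scale c d).mu (c * t)) = d * ∫ t in x..K.w, K.mu t := by
      rw [← intervalIntegral.integral_const_mul]
      exact intervalIntegral.integral_congr fun t _ => mu' t
    rw [h2]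
    ring
  have M' : (K.scale c d).M = c * d * K.M := by
    unfold Dat.M
    have h := N0_sub c (K.scale c d).mu 0 K.w
    rw [mul_zero] at h
    rw [hw, h]
    have h2 : (∫ t in (0:ℝ)..K.w, (K.scale c d).mu (c * t)) = d * ∫ t in (0:ℝ)..K.w, K.mu t := by
      rw [← intervalIntegral.integral_const_mul]
      exact intervalIntegral.integral_congr fun t _ => mu' t
    rw [h2]
    ring
  have Xu' : ∀ x, (K.scale c d).Xu (c * x) = c * K.Xu x := by
    intro x
    unfold Dat.Xu
    rw [Xl', mr', hq]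
    field_simp
  have xb' : (K.scale c d).xb = c ^ 2 * d * K.xb := by
    unfold Dat.xb
    have h := N0_sub c (fun x => x * (K.scale c d).mu x) 0 K.w
    rw [mul_zero] at h
    rw [hw, h]
    have h2 : (∫ x in (0:ℝ)..K.w, c * x * (K.scale c d).mu (c * x)) = c * d * ∫ x in (0:ℝ)..K.w, x * K.mu x := by
      rw [← intervalIntegral.integral_const_mul]
      refine intervalIntegral.integral_congr fun t _ => ?_
      change c * t * (K.scale c d).mu (c * t) = c * d * (t * K.mu t)
      rw [mu']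
      ring
    rw [h2]
    ring
  have N' : ∀ i : ℕ, (K.scale c d).N i = c ^ (i + 1) * K.N i := by
    intro i
    unfold Dat.N
    have h := N0_sub c (fun x => (K.scale c d).Xl x ^ i / (K.scale c d).rl x - (K.scale c d).Xu x ^ i / (K.scale c d).ru x) 0 K.w
    rw [mul_zero] at h
    rw [hw, h]
    have h2 : (∫ x in (0:ℝ)..K.w, ((K.scale c d).Xl (c * x) ^ i / (K.scale c d).rl (c * x) -
        (K.scale c d).Xu (c * x) ^ i / (K.scale c d).ru (c * x))) =
        c ^ i * ∫ x in (0:ℝ)..K.w, (K.Xl x ^ i / K.rl x - K.Xu x ^ i / K.ru x) := by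
      rw [← intervalIntegral.integral_const_mul]
      refine intervalIntegral.integral_congr fun t _ => ?_
      change (K.scale c d).Xl (c * t) ^ i / (K.scale c d).rl (c * t) - (K.scale c d).Xu (c * t) ^ i / (K.scale c d).ru (c * t) =
        c ^ i * (K.Xl t ^ i / K.rl t - K.Xu t ^ i / K.ru t)
      rw [Xl', Xu', rl', ru', mul_pow, mul_pow]
      ring
    rw [h2, pow_succ]
    ring
  have a' : (K.scale c d).a = c * K.a := by
    unfold Dat.a
    rw [N', N']
    by_cases h0 : K.N 0 = 0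
    · rw [h0]; simp
    · field_simp
      ring
  have V' : (K.scale c d).V = c ^ 3 * K.V := by
    unfold Dat.V
    rw [N', N', a']
    ring
  have psi' : (K.scale c d).psi = c ^ 2 * K.psi := by
    unfold Dat.psi
    rw [V', M', hq]
    have h1 : K.q / d * (c * d * K.M) = c * (K.q * K.M) := by field_simp
    rw [h1]
    have h2 : -(c ^ 3 * K.V) = c * (c ^ 2 * -K.V) := by ring
    rw [h2, mul_div_mul_left _ _ hc0, mul_div_assoc]
  have Xi' : (K.scale c d).Xi (c * x) = c ^ 2 * K.Xi x := by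
    unfold Dat.Xi
    have h := N0_sub c (fun t => ((K.scale c d).a - (K.scale c d).Xl t) / (K.scale c d).rl t) 0 x
    rw [mul_zero] at h
    rw [h]
    have h2 : (∫ t in (0:ℝ)..x, ((K.scale c d).a - (K.scale c d).Xl (c * t)) / (K.scale c d).rl (c * t)) =
        c * ∫ t in (0:ℝ)..x, (K.a - K.Xl t) / K.rl t := by
      rw [← intervalIntegral.integral_const_mul]
      refine intervalIntegral.integral_congr fun t _ => ?_
      change ((K.scale c d).a - (K.scale c d).Xl (c * t)) / (K.scale c d).rl (c * t) = c * ((K.a - K.Xl t) / K.rl t)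
      rw [a', Xl', rl']
      ring
    rw [h2]
    ring
  have Phi' : (K.scale c d).Phi (c * x) = c ^ 2 * K.Phi x := by
    unfold Dat.Phi
    rw [psi', Xi']
    ring
  refine ⟨Phi', ?_⟩
  unfold Dat.j
  rw [Phi', xb', M', a', Xl', rl', hq, hp, div_div_eq_mul_div]
  have h2 : 2 * (c ^ 2 * d * K.xb) / (c * d * K.M) = c * (2 * K.xb / K.M) := by
    have h1 : 2 * (c ^ 2 * d * K.xb) = (c * d) * (c * (2 * K.xb)) := by ring
    rw [h1, mul_div_mul_left _ _ (mul_ne_zero hc0 hd0), mul_div_assoc]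
  rw [h2]
  have h3 : (K.p / c + K.q / d * 0) * (c ^ 2 * K.Phi x) = c * (K.p * K.Phi x) := by
    field_simp
    ring
  rw [h3]
  ring

theorem ln_aff (n : ℕ) (k : ZMod n → ℝ) (s : ZMod n) (m : ℕ) (x : ℝ) : ln n k s m x = slk n m * x + sle n k s m := by
  unfold slk sle ln
  ring

theorem mem_Q (n : ℕ) [NeZero n] (hn : Odd n) (h3 : 3 ≤ n) {T k : ZMod n → ℝ} (hT : ∀ i, 0 < T i)
    (ho : Opt (dir n) T k) (s : ZMod n) (x y : ℝ) :
    (k s - x) • dir n s - y • rot (dir n s) ∈ Q (dir n) k ↔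
      (0 ≤ x ∧ x ≤ (sv n k (th (dir n) T) s).w ∧ (sv n k (th (dir n) T) s).l x ≤ y ∧ y ≤ (sv n k (th (dir n) T) s).u x) := by
  obtain ⟨hh, hnn⟩ := N0_h n hn h3
  have : Nonempty (Fin ((n - 1) / 2)) := ⟨⟨0, hh⟩⟩
  obtain ⟨e1, e2, e3, e4⟩ := sv_ends n hn h3 hT ho s
  obtain ⟨_, hcl⟩ := sv_l_cont n hn h3 k (th (dir n) T) s
  obtain ⟨_, hcu⟩ := sv_u_cont n hn h3 k (th (dir n) T) s
  have hw := sv_w_pos n hn h3 hT ho s
  have hl : (sv n k (th (dir n) T) s).l x ≤ y ↔ ∀ i : Fin ((n - 1) / 2), ln n k s (i.val + 1) x ≤ y := by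
    show (⨆ i : Fin ((n - 1) / 2), ln n k s (i.val + 1) x) ≤ y ↔ _
    exact ciSup_le_iff (Set.finite_range _).bddAbove
  have hu : y ≤ (sv n k (th (dir n) T) s).u x ↔
      ∀ i : Fin ((n - 1) / 2), y ≤ ln n k s ((n - 1) / 2 + 1 + i.val) x := by
    show y ≤ (⨅ i : Fin ((n - 1) / 2), ln n k s ((n - 1) / 2 + 1 + i.val) x) ↔ _
    exact le_ciInf_iff (Set.finite_range _).bddBelow
  have hin : ∀ j : ℕ, inner ℝ ((k s - x) • dir n s - y • rot (dir n s)) (dir n (s + (j : ℕ))) =
      (k s - x) * Real.cos (j * dl n) - y * Real.sin (j * dl n) := by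
    intro j
    obtain ⟨h1, h2, _⟩ := dir_inner n s j
    rw [inner_sub_left, real_inner_smul_left, real_inner_smul_left, real_inner_comm (dir n (s + (j : ℕ))) (dir n s),
      real_inner_comm (dir n (s + (j : ℕ))) (rot (dir n s)), h1, h2]
  have hlo : ∀ j : ℕ, j < (n - 1) / 2 → ((inner ℝ ((k s - x) • dir n s - y • rot (dir n s))
      (dir n (s + ((j + 1 : ℕ) : ZMod n))) ≤ k (s + ((j + 1 : ℕ) : ZMod n))) ↔ ln n k s (j + 1) x ≤ y) := by
    intro j hj
    have hs := sin_lo n hn h3 j hj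
    rw [hin (j + 1)]
    unfold ln
    rw [div_le_iff₀ hs]
    constructor
    · intro h; linarith
    · intro h; linarith
  have hup : ∀ j : ℕ, (n - 1) / 2 ≤ j → j < n - 1 → ((inner ℝ ((k s - x) • dir n s - y • rot (dir n s))
      (dir n (s + ((j + 1 : ℕ) : ZMod n))) ≤ k (s + ((j + 1 : ℕ) : ZMod n))) ↔ y ≤ ln n k s (j + 1) x) := by
    intro j hj hj2
    have hs := sin_up n hn h3 j hj hj2
    rw [hin (j + 1)]
    unfold ln
    rw [le_div_iff_of_neg hs]
    constructor
    · intro h; linarith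
    · intro h; linarith
  constructor
  · intro hQ
    have h0 : 0 ≤ x := by
      have h1 := hQ (s + ((0 : ℕ) : ZMod n))
      rw [hin 0] at h1
      simp only [Nat.cast_zero, zero_mul, Real.cos_zero, Real.sin_zero, add_zero, mul_one, mul_zero, sub_zero] at h1
      linarith
    have h1 : (sv n k (th (dir n) T) s).l x ≤ y := by
      rw [hl]
      intro i
      exact (hlo i.val i.isLt).1 (hQ _)
    have h2 : y ≤ (sv n k (th (dir n) T) s).u x := by
      rw [hu]
      intro i
      have h3' := (hup ((n - 1) / 2 + i.val) (by omega) (by have := i.isLt; omega)).1 (hQ _)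
      have e : (n - 1) / 2 + i.val + 1 = (n - 1) / 2 + 1 + i.val := by omega
      rw [e] at h3'
      exact h3'
    refine ⟨h0, ?_, h1, h2⟩
    by_contra hx
    rw [not_le] at hx
    have hx0 : 0 < x := hw.trans hx
    have ht0 : 0 ≤ (sv n k (th (dir n) T) s).w / x := div_nonneg hw.le hx0.le
    have ht1 : (sv n k (th (dir n) T) s).w / x < 1 := by rw [div_lt_one hx0]; exact hx
    have hxe : (1 - (sv n k (th (dir n) T) s).w / x) * 0 + (sv n k (th (dir n) T) s).w / x * x =
        (sv n k (th (dir n) T) s).w := by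
      rw [div_mul_cancel₀ _ hx0.ne']
      ring
    have c1 := hcl.2 (mem_univ (0 : ℝ)) (mem_univ x) (by linarith : 0 ≤ 1 - (sv n k (th (dir n) T) s).w / x) ht0 (by ring)
    have c2 := hcu.2 (mem_univ (0 : ℝ)) (mem_univ x) (by linarith : 0 ≤ 1 - (sv n k (th (dir n) T) s).w / x) ht0 (by ring)
    simp only [smul_eq_mul] at c1 c2
    rw [hxe] at c1 c2
    rw [← e4] at c2
    have c3 := mul_lt_mul_of_pos_left e3 (by linarith : 0 < 1 - (sv n k (th (dir n) T) s).w / x)
    have c4 := mul_le_mul_of_nonneg_left (h1.trans h2) ht0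
    linarith
  · rintro ⟨h0, _, h1, h2⟩
    rw [hl] at h1
    rw [hu] at h2
    intro i
    have hi : i = s + (((i - s).val : ℕ) : ZMod n) := by
      rw [ZMod.natCast_zmod_val]
      ring
    have hlt := ZMod.val_lt (i - s)
    rw [hi]
    generalize (i - s).val = j at hlt
    rcases Nat.eq_zero_or_pos j with hj | hj
    · subst hj
      rw [hin 0]
      simp only [Nat.cast_zero, zero_mul, Real.cos_zero, Real.sin_zero, add_zero, mul_one, mul_zero, sub_zero]
      linarith
    · obtain ⟨j', rfl⟩ : ∃ j', j = j' + 1 := ⟨j - 1, by omega⟩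
      rcases Nat.lt_or_ge j' ((n - 1) / 2) with h | h
      · exact (hlo j' h).2 (h1 ⟨j', h⟩)
      · refine (hup j' h (by omega)).2 ?_
        have h4 := h2 ⟨j' - (n - 1) / 2, by omega⟩
        have e : (n - 1) / 2 + 1 + (j' - (n - 1) / 2) = j' + 1 := by omega
        simp only [e] at h4
        exact h4

theorem j_step (K : Dat) (hq : K.q ≠ 0) (x k k' : ℝ) : K.j x k' = K.j x k - (k' - k) * K.Phi x := by
  unfold Dat.j
  field_simp
  ring

theorem Phi_shr (K : Dat) (hq : K.q ≠ 0) (k e x : ℝ) : (K.shr k e).Phi x = K.Phi x := by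
  exact N0_shr K hq k e x

theorem j_shr (K : Dat) (hq : K.q ≠ 0) (k e x : ℝ) : (K.shr k e).j x 0 = K.j x k := by
  exact K.shear hq k e x

theorem Phi_scale (K : Dat) (c d : ℝ) (hc : 0 < c) (hd : 0 < d) (x : ℝ) : (K.scale c d).Phi (c * x) = c ^ 2 * K.Phi x := by
  exact (N0_scale K c d hc hd x).1

theorem j_scale (K : Dat) (c d : ℝ) (hc : 0 < c) (hd : 0 < d) (x : ℝ) : (K.scale c d).j (c * x) 0 = c * d * K.j x 0 := by
  exact (N0_scale K c d hc hd x).2

end Pool.Agent.Lib.MP_1dedaf_gt.DK
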