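import Pool.Agent.Lib.MP_1dedaf_gt.Mg.G015
import Pool.Agent.Lib.MP_1dedaf_gt.DK.A2
import Pool.Agent.Lib.MP_1dedaf_gt.DK.A3
import Pool.Agent.Lib.MP_1dedaf_gt.DK.A4
import Pool.Agent.Lib.MP_1dedaf_gt.Mg.G004
import Pool.Agent.Lib.MP_1dedaf_gt.Mg.G012
import Pool.Agent.Lib.MP_1dedaf_gt.Mg.G013
import Pool.Agent.Lib.MP_1dedaf_gt.Mg.G019
import Pool.Agent.Lib.MP_1dedaf_gt.DK.N0
import Pool.Agent.Lib.MP_1dedaf_gt.Mg.G024
import Pool.Agent.Lib.MP_1dedaf_gt.Mg.G025

/-!
# TASK DK N1: the polygon as a body, seen from the edges `s` and `t = s + m`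

`S = sin (m δ) > 0`, `t = s + m`, `K' = sv' n T k s m`: the reflected polygon seen from `-t`; its coordinates of the reflection of a point `z` are `x' = k t - ⟨z, u t⟩`, `y' = ⟨z, rot (u t)⟩` (reflection changes the sign of `rot`). In the sheared coordinates of the edge `s` (the line of the edge `-t + m = -s`):
`y' - ln' m x' = (k s - ⟨z, u s⟩)/S`, and `y - ln m x = (k t - ⟨z, u t⟩)/S` in the coordinates of `s` (because `u t = cos u s + sin rot (u s)`, `u s = cos u t - sin rot (u t)`). So with `X = k s - ⟨z, u s⟩`, `Y = (k t - ⟨z, u t⟩)/S` (linear coordinates of the plane): the point `z` is in `Q (dir n) k` iff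
`(X, Y)` satisfies the column conditions of `P = (sv ..).shr (slk n m) (sle ..)`, iff (reflection of `mem_Q`, `opt_neg`) `(Y, X)` satisfies the column conditions of `P' = ((sv' ..).shr (slk n m) (sle n (k∘neg) (-t) m)).scale (1/S) S`. Proof of `poly_bd`: take `K = ⟨P.p, P.q, P.w, P'.w, P.l, P.u, g, r⟩` with
`g = P'.l`, `r = P'.u`. `Ok`: continuity and convexity from B4 (affine functions subtracted; scaling); `P.p = - al ≠ 0` (`p_eq`), `P.q ≠ 0`; `P'.p = P.q`, `P'.q = P.p` (`q_eq`, `p_eq`, `al_neg`: `K'.q = - (be' S) = - (al S)`, `K'.p + K'.q slk = - al' = - be`, `P.q = - be S`); `0 < P.w`, `0 < P'.w`; `iff` = the equivalence above; `lu`, `gr`, `fat`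
from `sv_lt` and `sv_ends`. `K.l (K.w) = K.u (K.w)`: `sv_ends`. `K.g 0`: `P'.l 0 = S (K'.l 0 - ln' m 0)`; the row of height `0` is the edge `t`: `{x : (x, 0) in the body} = [sx (m-1), sx m]` (column side: `P.l x = 0` exactly there by `sv_l_eq` and the strict slopes; `P.u > 0` before `w`; if `m = h` then `sx m = w`), so `g 0 = sx (m-1)`, `r 0 = sx m`.
`K.l 0 = (sy 0 - ln m 0) = sx' (m-1)/S` with `sx' = sx n (k∘neg) (-t)`: by the same statement for the reflected polygon, or: `l 0` is the smallest `y` with `(0, y)` in the body, `S l 0 = k t - ⟨ver s, u t⟩` and `sx' (m-1) = k t - ⟨ver' (-t + (m-1)), dir (-t)⟩`, `ver' (-(s+1)) =` reflection of `ver s` (`lo`, `hi` are exchanged: use `ver_inner`, `ver_eq`).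
`0 < l 0` iff `m ≥ 2` (`sx' (m-1) > sx' 0 = 0`).
-/

set_option autoImplicit false

open MeasureTheory Set Filter Topology

namespace Pool.Agent.Lib.MP_1dedaf_gt.DK

open Pool.Agent.Lib.MP_1dedaf_gt.LB

private theorem N1_h (n : ℕ) (hn : Odd n) (h3 : 3 ≤ n) : 0 < (n - 1) / 2 ∧ n = 2 * ((n - 1) / 2) + 1 := by
  obtain ⟨m, rfl⟩ := hn
  omega

private theorem N1_rot_rot (x y : E2) : inner ℝ (rot x) (rot y) = inner ℝ x y := by
  simp [rot, EuclideanSpace.inner_eq_star_dotProduct, dotProduct, Fin.sum_univ_two]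
  ring

private theorem N1_rot_self (x : E2) : inner ℝ x (rot x) = 0 := by
  simp [rot, EuclideanSpace.inner_eq_star_dotProduct, dotProduct, Fin.sum_univ_two]
  ring

private theorem N1_inner (n : ℕ) (s : ZMod n) (c t : ℝ) :
    inner ℝ (c • dir n s + t • rot (dir n s)) (rot (dir n s)) = t := by
  rw [inner_add_left, real_inner_smul_left, real_inner_smul_left, N1_rot_self, N1_rot_rot,
    real_inner_self_eq_norm_sq, dir_norm]
  ring

private theorem N1_sy0 (n : ℕ) [NeZero n] (k : ZMod n → ℝ) (s : ZMod n) : sy n k s 0 = - hi n k s := by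
  unfold sy ver
  have h0 : s + ((0 : ℕ) : ZMod n) = s := by simp
  rw [h0, N1_inner]

private theorem N1_syn (n : ℕ) [NeZero n] (hn : Odd n) (h3 : 3 ≤ n) (k : ZMod n → ℝ) (s : ZMod n) :
    sy n k s (n - 1) = - lo n k s := by
  unfold sy
  have h0 : s + ((n - 1 : ℕ) : ZMod n) = s - 1 := by
    rw [Nat.cast_sub (by omega : 1 ≤ n)]
    simp
    ring
  rw [h0, ver_eq n hn h3 k s, N1_inner]

private theorem N1_frame (u v : E2) (hu : ‖u‖ = 1) (c S : ℝ) (h1 : inner ℝ v u = c) (h2 : inner ℝ v (rot u) = S) :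
    v 0 = c * u 0 - S * u 1 ∧ v 1 = c * u 1 + S * u 0 := by
  have h : u 0 ^ 2 + u 1 ^ 2 = 1 := by
    have h := EuclideanSpace.real_norm_sq_eq u
    rw [Fin.sum_univ_two, hu] at h
    linarith
  simp only [PiLp.inner_apply, rot, Fin.sum_univ_two, RCLike.inner_apply, conj_trivial] at h1 h2
  simp at h1 h2
  constructor
  · linear_combination (- v 0) * h + u 0 * h1 - u 1 * h2
  · linear_combination (- v 1) * h + u 1 * h1 + u 0 * h2

private theorem N1_refl (n : ℕ) [NeZero n] (k : ZMod n → ℝ) (z : E2) :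
    z ∈ Q (dir n) (fun i => k (-i)) ↔ (!₂[z 0, - z 1] : E2) ∈ Q (dir n) k := by
  have e : ∀ i, inner ℝ (!₂[z 0, - z 1] : E2) (dir n i) = inner ℝ z (dir n (-i)) := by
    intro i
    rw [dir_neg]
    simp only [PiLp.inner_apply, Fin.sum_univ_two, RCLike.inner_apply, conj_trivial]
    simp
  constructor
  · intro h i
    have h1 := h (-i)
    simp only [neg_neg] at h1
    rw [e]
    exact h1
  · intro h i
    have h1 := h (-i)
    rw [e, neg_neg] at h1
    exact h1

private theorem N1_pt (n : ℕ) [NeZero n] (k : ZMod n → ℝ) (s : ZMod n) (m : ℕ) (hS0 : Real.sin (m * dl n) ≠ 0) (X Y : ℝ)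
    (z : E2) (hz : z = ((fun i => k (-i)) (-(s + (m : ℕ))) - Real.sin (m * dl n) * Y) • dir n (-(s + (m : ℕ))) -
      (X / Real.sin (m * dl n) + (slk n m * (Real.sin (m * dl n) * Y) + sle n (fun i => k (-i)) (-(s + (m : ℕ))) m)) •
        rot (dir n (-(s + (m : ℕ))))) :
    (!₂[z 0, - z 1] : E2) = (k s - X) • dir n s - (Y + (slk n m * X + sle n k s m)) • rot (dir n s) := by
  obtain ⟨h1, h2, _⟩ := dir_inner n s m
  obtain ⟨f1, f2⟩ := N1_frame (dir n s) (dir n (s + (m : ℕ))) (dir_norm n s) _ _ h1 h2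
  have hcs := Real.sin_sq_add_cos_sq ((m : ℝ) * dl n)
  have e1 : -(-(s + (m : ℕ)) + (m : ℕ)) = s := by ring
  have e2 : -(-(s + (m : ZMod n))) = s + (m : ZMod n) := neg_neg _
  rw [← ln_aff] at hz
  rw [← ln_aff]
  unfold ln at hz ⊢
  simp only [e1, e2] at hz
  rw [dir_neg] at hz
  subst hz
  generalize Real.sin (m * dl n) = S at *
  generalize Real.cos (m * dl n) = c at *
  ext i
  fin_cases i
  · simp [rot, f1, f2]
    field_simp
    linear_combination (S * Y * (dir n s) 1 - k (s + (m : ZMod n)) * (dir n s) 1) * hcs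
  · simp [rot, f1, f2]
    field_simp
    linear_combination (k (s + (m : ZMod n)) * (dir n s) 0 - S * Y * (dir n s) 0) * hcs

theorem poly_bd (n : ℕ) [NeZero n] (hn : Odd n) (h3 : 3 ≤ n) {T k : ZMod n → ℝ} (hT : ∀ i, 0 < T i)
    (ho : Opt (dir n) T k) (s : ZMod n) {m : ℕ} (hm : 0 < m) (hm2 : 2 * m < n) (ha : al n m s T ≠ 0) (hb : be n m s T ≠ 0) :
    ∃ K : Bd, K.Ok ∧ K.col = (sv n k (th (dir n) T) s).shr (slk n m) (sle n k s m) ∧
      K.row = ((sv' n T k s m).shr (slk n m) (sle n (fun i => k (-i)) (-(s + (m : ℕ))) m)).scale (1 / Real.sin (m * dl n)) (Real.sin (m * dl n)) ∧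
      K.l K.w = K.u K.w ∧ K.g K.h = K.r K.h ∧ K.g 0 = sx n k s (m - 1) ∧ K.r 0 = sx n k s m ∧
      K.l 0 = sx n (fun i => k (-i)) (-(s + (m : ℕ))) (m - 1) / Real.sin (m * dl n) ∧
      K.u 0 = sx n (fun i => k (-i)) (-(s + (m : ℕ))) m / Real.sin (m * dl n) := by
  obtain ⟨hh, hnn⟩ := N1_h n hn h3
  have hT' : ∀ i : ZMod n, 0 < (fun i => T (-i)) i := fun i => hT (-i)
  have ho' := opt_neg n hn h3 ho
  have hS : 0 < Real.sin (m * dl n) := by
    have h := sin_lo n hn h3 (m - 1) (by omega)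
    have e : m - 1 + 1 = m := by omega
    rw [e] at h
    exact h
  have hS0 := hS.ne'
  obtain ⟨an1, an2⟩ := al_neg n hn h3 hm hm2 s T
  have hq := q_eq n hn h3 hm hm2 s T k
  have hp := p_eq n hn h3 hm hm2 s T k
  have hq' := q_eq n hn h3 hm hm2 (-(s + (m : ℕ))) (fun i => T (-i)) (fun i => k (-i))
  have hp' := p_eq n hn h3 hm hm2 (-(s + (m : ℕ))) (fun i => T (-i)) (fun i => k (-i))
  rw [an2] at hq'
  rw [an1] at hp'
  obtain ⟨e1, e2, e3, e4⟩ := sv_ends n hn h3 hT ho s
  obtain ⟨e1', e2', e3', e4'⟩ := sv_ends n hn h3 hT' ho' (-(s + (m : ℕ)))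
  obtain ⟨lc, lv⟩ := sv_l_cont n hn h3 k (th (dir n) T) s
  obtain ⟨uc, uv⟩ := sv_u_cont n hn h3 k (th (dir n) T) s
  obtain ⟨lc', lv'⟩ := sv_l_cont n hn h3 (fun i => k (-i)) (th (dir n) (fun i => T (-i))) (-(s + (m : ℕ)))
  obtain ⟨uc', uv'⟩ := sv_u_cont n hn h3 (fun i => k (-i)) (th (dir n) (fun i => T (-i))) (-(s + (m : ℕ)))
  have hw := sv_w_pos n hn h3 hT ho s
  have hw' := sv_w_pos n hn h3 hT' ho' (-(s + (m : ℕ)))
  have hlt := sv_lt n hn h3 hT ho s
  have hlt' := sv_lt n hn h3 hT' ho' (-(s + (m : ℕ)))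
  have hQ := mem_Q n hn h3 hT ho s
  have hQ' := mem_Q n hn h3 hT' ho' (-(s + (m : ℕ)))
  have hpt := N1_pt n k s m hS0
  have y1 := N1_sy0 n k s
  have y2 := N1_syn n hn h3 k s
  have y1' := N1_sy0 n (fun i => k (-i)) (-(s + (m : ℕ)))
  have y2' := N1_syn n hn h3 (fun i => k (-i)) (-(s + (m : ℕ)))
  have x1 := B1_sx n hn h3 k s (m - 1)
  have x2 := B1_sx' n k s (m - 1)
  have x1' := B1_sx n hn h3 (fun i => k (-i)) (-(s + (m : ℕ))) (m - 1)
  have x2' := B1_sx' n (fun i => k (-i)) (-(s + (m : ℕ))) (m - 1)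
  have em : m - 1 + 1 = m := by omega
  rw [em] at x1 x2 x1' x2'
  have ek : ∀ i : ZMod n, -(-i) = i := fun i => neg_neg i
  have es : -(-(s + (m : ZMod n)) + (m : ZMod n)) = s := by ring
  have hl0 : sle n k s m = (k s * Real.cos (m * dl n) - k (s + (m : ℕ))) / Real.sin (m * dl n) := by
    unfold sle ln
    rw [sub_zero]
  have hl0' : sle n (fun i => k (-i)) (-(s + (m : ℕ))) m =
      (k (s + (m : ℕ)) * Real.cos (m * dl n) - k s) / Real.sin (m * dl n) := by
    unfold sle ln
    rw [sub_zero]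
    simp only [ek, es]
  have z1 : lo n (fun i => k (-i)) (-s) = - hi n k s := by
    unfold lo hi
    have : -(-s - 1) = s + 1 := by ring
    simp only [ek, this]
    ring
  have z2 : hi n (fun i => k (-i)) (-s) = - lo n k s := by
    unfold lo hi
    have : -(-s + 1) = s - 1 := by ring
    simp only [ek, this]
    ring
  have z3 : lo n (fun i => k (-i)) (-(s + (m : ZMod n))) = - hi n k (s + (m : ZMod n)) := by
    unfold lo hi
    have : -(-(s + (m : ZMod n)) - 1) = s + (m : ZMod n) + 1 := by ring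
    simp only [ek, this]
    ring
  have z4 : hi n (fun i => k (-i)) (-(s + (m : ZMod n))) = - lo n k (s + (m : ZMod n)) := by
    unfold lo hi
    have : -(-(s + (m : ZMod n)) + 1) = s + (m : ZMod n) - 1 := by ring
    simp only [ek, this]
    ring
  have es2 : -(s + (m : ZMod n)) + (m : ZMod n) = -s := by ring
  simp only [es2, ek, z1, z2] at x1' x2'
  unfold sv'
  generalize hA : sv n k (th (dir n) T) s = A at *
  generalize hB : sv n (fun i => k (-i)) (th (dir n) fun i => T (-i)) (-(s + (m : ℕ))) = B at *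
  have hdiv : ∀ y : ℝ, y / (1 / Real.sin (m * dl n)) = Real.sin (m * dl n) * y := by
    intro y
    rw [div_div_eq_mul_div, div_one]
    ring
  have hslk : slk n m = -(Real.cos (m * dl n) / Real.sin (m * dl n)) := rfl
  have pp : A.p + A.q * slk n m = - al n m s T := by rw [hslk]; exact hp.symm
  have pp' : B.p + B.q * slk n m = - be n m s T := by rw [hslk]; exact hp'.symm
  refine ⟨⟨A.p + A.q * slk n m, A.q, A.w, 1 / Real.sin (m * dl n) * B.w,
    fun t => A.l t - (slk n m * t + sle n k s m), fun t => A.u t - (slk n m * t + sle n k s m),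
    fun x => Real.sin (m * dl n) * (B.l (x / (1 / Real.sin (m * dl n))) - (slk n m * (x / (1 / Real.sin (m * dl n))) +
      sle n (fun i => k (-i)) (-(s + (m : ℕ))) m)),
    fun x => Real.sin (m * dl n) * (B.u (x / (1 / Real.sin (m * dl n))) - (slk n m * (x / (1 / Real.sin (m * dl n))) +
      sle n (fun i => k (-i)) (-(s + (m : ℕ))) m))⟩, ?_, rfl, ?_, ?_, ?_, ?_, ?_, ?_, ?_⟩
  · have hBw : ∀ y : ℝ, y ≤ 1 / Real.sin (m * dl n) * B.w ↔ Real.sin (m * dl n) * y ≤ B.w := by
      intro y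
      rw [one_div, inv_mul_eq_div, le_div_iff₀ hS, mul_comm]
    constructor
    · show A.p + A.q * slk n m ≠ 0
      rw [pp]
      exact neg_ne_zero.2 ha
    · show A.q ≠ 0
      rw [hq]
      exact neg_ne_zero.2 (mul_ne_zero hb hS0)
    · exact hw
    · show 0 < 1 / Real.sin (m * dl n) * B.w
      positivity
    · show Continuous fun t => A.l t - (slk n m * t + sle n k s m)
      fun_prop
    · show Continuous fun t => A.u t - (slk n m * t + sle n k s m)
      fun_prop
    · show Continuous fun x => Real.sin (m * dl n) * (B.l (x / (1 / Real.sin (m * dl n))) -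
        (slk n m * (x / (1 / Real.sin (m * dl n))) + sle n (fun i => k (-i)) (-(s + (m : ℕ))) m))
      simp only [hdiv]
      fun_prop
    · show Continuous fun x => Real.sin (m * dl n) * (B.u (x / (1 / Real.sin (m * dl n))) -
        (slk n m * (x / (1 / Real.sin (m * dl n))) + sle n (fun i => k (-i)) (-(s + (m : ℕ))) m))
      simp only [hdiv]
      fun_prop
    · refine ⟨convex_Icc _ _, ?_⟩
      intro x _ y _ a b ha hb hab
      have h := lv.2 (mem_univ x) (mem_univ y) ha hb hab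
      simp only [smul_eq_mul] at h ⊢
      have hb' : b = 1 - a := by linarith
      subst hb'
      nlinarith [h]
    · refine ⟨convex_Icc _ _, ?_⟩
      intro x _ y _ a b ha hb hab
      have h := uv.2 (mem_univ x) (mem_univ y) ha hb hab
      simp only [smul_eq_mul] at h ⊢
      have hb' : b = 1 - a := by linarith
      subst hb'
      nlinarith [h]
    · refine ⟨convex_Icc _ _, ?_⟩
      intro x _ y _ a b ha hb hab
      have h := lv'.2 (mem_univ (Real.sin (m * dl n) * x)) (mem_univ (Real.sin (m * dl n) * y)) ha hb hab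
      simp only [smul_eq_mul, hdiv] at h ⊢
      have hb' : b = 1 - a := by linarith
      subst hb'
      have e : Real.sin (m * dl n) * (a * x + (1 - a) * y) =
        a * (Real.sin (m * dl n) * x) + (1 - a) * (Real.sin (m * dl n) * y) := by ring
      rw [e]
      have h2 := mul_le_mul_of_nonneg_left h hS.le
      linarith
    · refine ⟨convex_Icc _ _, ?_⟩
      intro x _ y _ a b ha hb hab
      have h := uv'.2 (mem_univ (Real.sin (m * dl n) * x)) (mem_univ (Real.sin (m * dl n) * y)) ha hb hab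
      simp only [smul_eq_mul, hdiv] at h ⊢
      have hb' : b = 1 - a := by linarith
      subst hb'
      have e : Real.sin (m * dl n) * (a * x + (1 - a) * y) =
        a * (Real.sin (m * dl n) * x) + (1 - a) * (Real.sin (m * dl n) * y) := by ring
      rw [e]
      have h2 := mul_le_mul_of_nonneg_left h hS.le
      linarith
    · intro x hx
      show A.l x - (slk n m * x + sle n k s m) ≤ A.u x - (slk n m * x + sle n k s m)
      rcases hx.2.lt_or_eq with h | h
      · have := hlt x hx.1 h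
        linarith
      · have h' : x = A.w := h
        rw [h', e4]
    · intro y hy
      show Real.sin (m * dl n) * (B.l (y / (1 / Real.sin (m * dl n))) - (slk n m * (y / (1 / Real.sin (m * dl n))) +
          sle n (fun i => k (-i)) (-(s + (m : ℕ))) m)) ≤
        Real.sin (m * dl n) * (B.u (y / (1 / Real.sin (m * dl n))) - (slk n m * (y / (1 / Real.sin (m * dl n))) +
          sle n (fun i => k (-i)) (-(s + (m : ℕ))) m))
      rw [hdiv]
      refine mul_le_mul_of_nonneg_left ?_ hS.le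
      have h0 : 0 ≤ Real.sin (m * dl n) * y := mul_nonneg hS.le hy.1
      have h1 : Real.sin (m * dl n) * y ≤ B.w := (hBw y).1 hy.2
      rcases h1.lt_or_eq with h | h
      · have := hlt' _ h0 h
        linarith
      · rw [h, e4']
    · refine ⟨0, ⟨le_refl _, hw.le⟩, ?_⟩
      show A.l 0 - (slk n m * 0 + sle n k s m) < A.u 0 - (slk n m * 0 + sle n k s m)
      linarith
    · intro x y
      show (0 ≤ x ∧ x ≤ A.w ∧ A.l x - (slk n m * x + sle n k s m) ≤ y ∧ y ≤ A.u x - (slk n m * x + sle n k s m)) ↔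
        (0 ≤ y ∧ y ≤ 1 / Real.sin (m * dl n) * B.w ∧
          Real.sin (m * dl n) * (B.l (y / (1 / Real.sin (m * dl n))) - (slk n m * (y / (1 / Real.sin (m * dl n))) +
            sle n (fun i => k (-i)) (-(s + (m : ℕ))) m)) ≤ x ∧
          x ≤ Real.sin (m * dl n) * (B.u (y / (1 / Real.sin (m * dl n))) - (slk n m * (y / (1 / Real.sin (m * dl n))) +
            sle n (fun i => k (-i)) (-(s + (m : ℕ))) m)))
      have a1 := hQ x (y + (slk n m * x + sle n k s m))
      have a2 := hQ' (Real.sin (m * dl n) * y) (x / Real.sin (m * dl n) +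
        (slk n m * (Real.sin (m * dl n) * y) + sle n (fun i => k (-i)) (-(s + (m : ℕ))) m))
      rw [N1_refl, hpt x y _ rfl] at a2
      have a3 := a1.symm.trans a2
      rw [hdiv, hBw]
      have b1 : 0 ≤ Real.sin (m * dl n) * y ↔ 0 ≤ y := mul_nonneg_iff_of_pos_left hS
      have b2 : ∀ v w : ℝ, Real.sin (m * dl n) * (v - w) ≤ x ↔ v ≤ x / Real.sin (m * dl n) + w := by
        intro v w
        rw [← sub_le_iff_le_add, le_div_iff₀ hS, mul_comm]
      have b3 : ∀ v w : ℝ, x ≤ Real.sin (m * dl n) * (v - w) ↔ x / Real.sin (m * dl n) + w ≤ v := by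
        intro v w
        rw [← le_sub_iff_add_le, div_le_iff₀ hS, mul_comm]
      rw [b2, b3, ← b1, sub_le_iff_le_add, le_sub_iff_add_le]
      exact a3
  · show (⟨A.q, A.p + A.q * slk n m, 1 / Real.sin (m * dl n) * B.w, _, _⟩ : Dat) =
      ⟨(B.p + B.q * slk n m) / (1 / Real.sin (m * dl n)), B.q / Real.sin (m * dl n), 1 / Real.sin (m * dl n) * B.w, _, _⟩
    congr 1
    · rw [pp', hdiv, hq]
      ring
    · rw [pp, hq']
      field_simp
  · show A.l A.w - (slk n m * A.w + sle n k s m) = A.u A.w - (slk n m * A.w + sle n k s m)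
    rw [e4]
  · show Real.sin (m * dl n) * (B.l (1 / Real.sin (m * dl n) * B.w / (1 / Real.sin (m * dl n))) - _) =
      Real.sin (m * dl n) * (B.u (1 / Real.sin (m * dl n) * B.w / (1 / Real.sin (m * dl n))) - _)
    have e : 1 / Real.sin (m * dl n) * B.w / (1 / Real.sin (m * dl n)) = B.w := by
      field_simp
    rw [e, e4']
  · show Real.sin (m * dl n) * (B.l (0 / (1 / Real.sin (m * dl n))) - (slk n m * (0 / (1 / Real.sin (m * dl n))) +
      sle n (fun i => k (-i)) (-(s + (m : ℕ))) m)) = sx n k s (m - 1)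
    rw [hdiv, mul_zero, e1', y1', z4, hl0', x1]
    field_simp
    ring
  · show Real.sin (m * dl n) * (B.u (0 / (1 / Real.sin (m * dl n))) - (slk n m * (0 / (1 / Real.sin (m * dl n))) +
      sle n (fun i => k (-i)) (-(s + (m : ℕ))) m)) = sx n k s m
    rw [hdiv, mul_zero, e2', y2', z3, hl0', x2]
    field_simp
    ring
  · show A.l 0 - (slk n m * 0 + sle n k s m) = _
    rw [e1, y1, hl0, x1']
    field_simp
    ring
  · show A.u 0 - (slk n m * 0 + sle n k s m) = _
    rw [e2, y2, hl0, x2']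
    field_simp
    ring

end Pool.Agent.Lib.MP_1dedaf_gt.DK
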